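import Mathlib

set_option autoImplicit false


/-!
# Berge's question on disjoint cliques: a regular graph with 427 vertices in which any two maximal cliques meet

The vertices of the graph are two sets of `189 = 7 * 27` points each, and `49` further points `(l, m)`. The points
`(b, g, i)`, `b` a truth value, carry a point `g` of the Fano plane, the points `(l, m)` a pair of lines of
the Fano plane. Points `(b, g, i)`, `(b', g', i')` are adjacent if `b ≠ b'`, all points `(l, m)`, `(l', m')` are
adjacent, and `(b, g, i)` is adjacent to `(l, m)` if `g` lies on the line `l` (for `b` false) or `m` (for `b`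
true). The graph is regular of degree `210`. A clique has at most one point `(b, g, i)` with given `b`. As any
two points of the Fano plane lie on a line, for two maximal cliques there is a point `(l, m)` adjacent to all
of their points other than itself, which thus belongs to both of them.
-/

namespace Pool.Agent.Helper20K9.BergeCliques

/-- the point `g` of the Fano plane lies on the line `l` -/
def inc (g l : Fin 7) : Bool := decide (g - l = 0 ∨ g - l = 1 ∨ g - l = 3)

theorem inc_two : ∀ g h : Fin 7, ∃ l : Fin 7, inc g l = true ∧ inc h l = true := by decide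

/-- the vertices -/
abbrev Vert : Type := (Bool × Fin 7 × Fin 27) ⊕ (Fin 7 × Fin 7)

/-- the line of the pair which matters for the points on the side `b` -/
def ln (b : Bool) (p : Fin 7 × Fin 7) : Fin 7 := if b then p.2 else p.1

/-- adjacency -/
def adj : Vert → Vert → Bool
  | Sum.inl x, Sum.inl y => x.1 != y.1
  | Sum.inl x, Sum.inr p => inc x.2.1 (ln x.1 p)
  | Sum.inr p, Sum.inl x => inc x.2.1 (ln x.1 p)
  | Sum.inr p, Sum.inr q => p != q

/-- the graph -/
def gr : SimpleGraph Vert where
  Adj v w := adj v w = true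
  symm := ⟨by
    rintro (x | p) (y | q) h
    · simp only [adj, bne_iff_ne, ne_eq] at h ⊢
      exact fun h' => h h'.symm
    · exact h
    · exact h
    · simp only [adj, bne_iff_ne, ne_eq] at h ⊢
      exact fun h' => h h'.symm⟩
  loopless := ⟨by
    rintro (x | p) h
    · simp [adj] at h
    · simp [adj] at h⟩

instance : DecidableRel gr.Adj := fun v w => inferInstanceAs (Decidable (adj v w = true))

theorem sum_a : ∀ b : Bool, (∑ x : Bool × Fin 7 × Fin 27, if (b != x.1) = true then 1 else 0) = 189 := by
  decide +kernel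

theorem sum_b : ∀ (b : Bool) (g : Fin 7),
    (∑ p : Fin 7 × Fin 7, if inc g (ln b p) = true then 1 else 0) = 21 := by
  decide +kernel

theorem sum_c : ∀ p : Fin 7 × Fin 7,
    (∑ x : Bool × Fin 7 × Fin 27, if inc x.2.1 (ln x.1 p) = true then 1 else 0) = 162 := by
  decide +kernel

theorem sum_d : ∀ p : Fin 7 × Fin 7,
    (∑ q : Fin 7 × Fin 7, if (p != q) = true then 1 else 0) = 48 := by
  decide +kernel

theorem reg : gr.IsRegularOfDegree 210 := by
  intro v
  have h0 : gr.degree v = ∑ w : Vert, if adj v w = true then 1 else 0 := by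
    rw [← SimpleGraph.card_neighborFinset_eq_degree, SimpleGraph.neighborFinset_eq_filter,
      Finset.card_filter]
    rfl
  rw [h0, Fintype.sum_sum_type]
  rcases v with ⟨b, g, i⟩ | p
  · exact congrArg₂ (· + ·) ((Finset.sum_congr rfl fun x _ => by congr).trans (sum_a b))
      ((Finset.sum_congr rfl fun x _ => by congr).trans (sum_b b g))
  · exact congrArg₂ (· + ·) ((Finset.sum_congr rfl fun x _ => by congr).trans (sum_c p))
      ((Finset.sum_congr rfl fun x _ => by congr).trans (sum_d p))

theorem ne_top : gr ≠ ⊤ := by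
  intro h
  have h1 : (⊤ : SimpleGraph Vert).Adj (Sum.inl (false, 0, 0)) (Sum.inl (false, 0, 1)) := by
    rw [SimpleGraph.top_adj]
    intro h2
    simp at h2
  rw [← h] at h1
  exact absurd h1 (by decide)

/-- the points of a clique on the side `b` carry one point of the Fano plane -/
theorem one_point {s : Set Vert} (hs : gr.IsClique s) (b : Bool) :
    ∃ g : Fin 7, ∀ h i, Sum.inl (b, h, i) ∈ s → h = g := by
  by_cases hne : ∃ h i, (Sum.inl (b, h, i) : Vert) ∈ s
  · obtain ⟨g, j, hg⟩ := hne
    refine ⟨g, fun h i hh => ?_⟩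
    by_contra hcon
    have hadj : gr.Adj (Sum.inl (b, h, i)) (Sum.inl (b, g, j)) := hs hh hg (by
      intro he
      simp only [Sum.inl.injEq, Prod.mk.injEq] at he
      exact hcon he.2.1)
    have h2 : (b != b) = true := hadj
    simp at h2
  · exact ⟨0, fun h i hh => absurd ⟨h, i, hh⟩ hne⟩

/-- a leaf adjacent to all the points of a maximal clique belongs to it -/
theorem mem_of {s : Set Vert} (hs : Maximal gr.IsClique s) (p : Fin 7 × Fin 7)
    (h : ∀ b g i, Sum.inl (b, g, i) ∈ s → inc g (ln b p) = true) : Sum.inr p ∈ s := by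
  have hcl : gr.IsClique (insert (Sum.inr p) s) := by
    rw [SimpleGraph.isClique_insert]
    refine ⟨hs.prop, ?_⟩
    rintro (⟨b, g, i⟩ | q) hq hne
    · exact h b g i hq
    · show (p != q) = true
      rw [bne_iff_ne]
      exact fun hpq => hne (by rw [hpq])
  exact hs.le_of_ge hcl (Set.subset_insert _ _) (Set.mem_insert _ _)

theorem result :
    ¬ (∀ (V : Type) [Fintype V] [DecidableEq V] (G : SimpleGraph V) [DecidableRel G.Adj] (d : ℕ),
      G.IsRegularOfDegree d → G ≠ ⊤ →
        ∃ s t : Set V, Maximal G.IsClique s ∧ Maximal G.IsClique t ∧ Disjoint s t) := by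
  intro H
  obtain ⟨s, t, hs, ht, hst⟩ := H Vert gr 210 reg ne_top
  obtain ⟨g₁, h₁⟩ := one_point hs.prop false
  obtain ⟨g₂, h₂⟩ := one_point ht.prop false
  obtain ⟨g₃, h₃⟩ := one_point hs.prop true
  obtain ⟨g₄, h₄⟩ := one_point ht.prop true
  obtain ⟨l, hl₁, hl₂⟩ := inc_two g₁ g₂
  obtain ⟨m, hm₁, hm₂⟩ := inc_two g₃ g₄
  have hms : (Sum.inr (l, m) : Vert) ∈ s := mem_of hs (l, m) (by
    rintro (_ | _) g i hg
    · rw [h₁ g i hg]; exact hl₁
    · rw [h₃ g i hg]; exact hm₁)
  have hmt : (Sum.inr (l, m) : Vert) ∈ t := mem_of ht (l, m) (by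
    rintro (_ | _) g i hg
    · rw [h₂ g i hg]; exact hl₂
    · rw [h₄ g i hg]; exact hm₂)
  exact Set.disjoint_left.1 hst hms hmt

end Pool.Agent.Helper20K9.BergeCliques
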