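import Mathlib
import Pool.Agent.TH863.Alg
import Pool.Agent.TH863.Classes

/-!
Solutions of `x ^ p + y ^ r = z ^ p`: the factors of `y`, and the residue classes of the second factor.
-/

set_option autoImplicit false

namespace Pool.Agent.Helper20K9.FC

open Finset
open Pool.Agent.TH863 (GG GG_mul split ff card_ff_image pow_inj_of_coprime)

/-- the factors of `y` -/
theorem diff_struct {N p r x y z : ℕ} (hp : p.Prime) (hp3 : 3 ≤ p) (hr2 : 3 ≤ r)
    (hx : 0 < x) (hxz : Nat.Coprime x z) (hy : 0 < y) (hyN : y ≤ N) (h : x ^ p + y ^ r = z ^ p) :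
    ∃ e b1 b2 D : ℕ, e ≤ 1 ∧ 1 ≤ b1 ∧ 1 ≤ b2 ∧ y = b1 * b2 ∧ 0 < D ∧ p ^ e * D = b1 ^ r ∧
      (∃ X : ℤ, GG p X (X - (D : ℤ)) = (p : ℤ) ^ e * (b2 : ℤ) ^ r) ∧
      b1 ^ 3 ≤ p * N ∧ 2 ^ (p - 1) ≤ N ^ r ∧ ((e = 0 ∧ b1 = 1) ∨ 2 ^ p ≤ N ^ 2) := by
  have hyr : 0 < y ^ r := by positivity
  have hxz' : x < z := by
    apply lt_of_pow_lt_pow_left₀ p (Nat.zero_le _)
    omega
  have hco : IsCoprime (z : ℤ) (x : ℤ) := (Nat.isCoprime_iff_coprime.2 hxz).symm
  have hd : (0 : ℤ) < (z : ℤ) - x := by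
    have : (x : ℤ) < z := by exact_mod_cast hxz'
    omega
  have heq : (z : ℤ) ^ p - (x : ℤ) ^ p = (y : ℤ) ^ r := by
    have : (x : ℤ) ^ p + (y : ℤ) ^ r = (z : ℤ) ^ p := by exact_mod_cast h
    linarith
  obtain ⟨b1, b2, e, he, hb, _, hb1, hb2, hD, hG, he1, _, _, _⟩ :=
    split hp (by omega) hco hy (by omega : 1 ≤ r) hd heq
  obtain ⟨D, hDe⟩ : ∃ D : ℕ, D = z - x := ⟨_, rfl⟩
  have hDI : (D : ℤ) = (z : ℤ) - x := by
    rw [hDe]; push_cast [hxz'.le]; ring
  have hD0 : 0 < D := by omega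
  have hpD : p ^ e * D = b1 ^ r := by
    have : (p : ℤ) ^ e * (D : ℤ) = (b1 : ℤ) ^ r := by rw [hDI]; exact hD
    exact_mod_cast this
  have hN0 : 0 < N := lt_of_lt_of_le hy hyN
  have hyrN : y ^ r ≤ N ^ r := Nat.pow_le_pow_left hyN r
  -- `D ^ p ≤ N ^ r`
  have hDp : D ^ p ≤ N ^ r := by
    have h1 : x ^ p + D ^ p ≤ (x + D) ^ p := pow_add_pow_le (Nat.zero_le _) (Nat.zero_le _) (by omega)
    have h2 : x + D = z := by omega
    rw [h2] at h1
    omega
  have hp1 : 1 ≤ p := by omega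
  have hDcub : D ^ 3 ≤ N ^ r := (Nat.pow_le_pow_right hD0 hp3).trans hDp
  refine ⟨e, b1, b2, D, he, hb1, hb2, hb, hD0, hpD, ⟨z, ?_⟩, ?_, ?_, ?_⟩
  · rw [hDI, sub_sub_cancel]
    exact hG
  · -- `b1 ^ 3 ≤ p N`
    have h1 : (b1 ^ 3) ^ r ≤ (p * N) ^ r := by
      calc (b1 ^ 3) ^ r = (b1 ^ r) ^ 3 := by rw [← pow_mul, ← pow_mul, mul_comm]
        _ = (p ^ e) ^ 3 * D ^ 3 := by rw [← hpD, mul_pow]
        _ ≤ p ^ r * N ^ r := by
            apply Nat.mul_le_mul _ hDcub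
            rw [← pow_mul]
            apply Nat.pow_le_pow_right (by omega)
            omega
        _ = (p * N) ^ r := (mul_pow _ _ _).symm
    exact le_of_pow_le_pow_left₀ (by omega) (Nat.zero_le _) h1
  · -- `2 ^ (p - 1) ≤ N ^ r`
    have h1 : z ^ (p - 1) ≤ y ^ r := by
      obtain ⟨k, rfl⟩ : ∃ k, p = k + 1 := ⟨p - 1, by omega⟩
      rw [Nat.add_sub_cancel]
      have h2 : x ^ (k + 1) ≤ x * z ^ k := by
        rw [pow_succ']
        exact Nat.mul_le_mul_left _ (Nat.pow_le_pow_left hxz'.le _)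
      have h3 : z ^ (k + 1) = z * z ^ k := pow_succ' _ _
      have h4 : (x + 1) * z ^ k ≤ z * z ^ k := Nat.mul_le_mul_right _ (by omega)
      have h5 : (x + 1) * z ^ k = x * z ^ k + z ^ k := by ring
      omega
    calc 2 ^ (p - 1) ≤ z ^ (p - 1) := Nat.pow_le_pow_left (by omega) _
      _ ≤ y ^ r := h1
      _ ≤ N ^ r := hyrN
  · -- the bound for `p`
    rcases Nat.eq_zero_or_pos e with h0 | h0
    · rcases Nat.lt_or_ge b1 2 with h1 | h1
      · left; exact ⟨h0, by omega⟩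
      · right
        rw [h0, pow_zero, one_mul] at hpD
        have h2 : (2 ^ p) ^ r ≤ (N ^ 2) ^ r := by
          calc (2 ^ p) ^ r ≤ (b1 ^ p) ^ r := Nat.pow_le_pow_left (Nat.pow_le_pow_left h1 p) r
            _ = (b1 ^ r) ^ p := by rw [← pow_mul, ← pow_mul, mul_comm]
            _ = D ^ p := by rw [hpD]
            _ ≤ N ^ r := hDp
            _ ≤ (N ^ 2) ^ r := Nat.pow_le_pow_left (Nat.le_self_pow (by norm_num) N) r
        exact le_of_pow_le_pow_left₀ (by omega) (Nat.zero_le _) h2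
    · right
      have he' : e = 1 := by omega
      have hpb : p ∣ b1 := he1 he'
      rw [he', pow_one] at hpD
      have h1 : p ^ (r - 1) ≤ D := by
        have h2 : p ^ r ≤ p * D := by
          rw [hpD]
          exact Nat.pow_le_pow_left (Nat.le_of_dvd hb1 hpb) r
        have h3 : p ^ r = p * p ^ (r - 1) := by
          rw [← pow_succ']
          congr 1
          omega
        rw [h3] at h2
        exact Nat.le_of_mul_le_mul_left h2 (by omega)
      have h4 : (2 ^ p) ^ (r - 1) ≤ (N ^ 2) ^ (r - 1) := by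
        calc (2 ^ p) ^ (r - 1) = (2 ^ (r - 1)) ^ p := by rw [← pow_mul, ← pow_mul, mul_comm]
          _ ≤ (p ^ (r - 1)) ^ p := Nat.pow_le_pow_left (Nat.pow_le_pow_left (by omega) _) _
          _ ≤ D ^ p := Nat.pow_le_pow_left h1 _
          _ ≤ N ^ r := hDp
          _ ≤ N ^ (2 * (r - 1)) := Nat.pow_le_pow_right hN0 (by omega)
          _ = (N ^ 2) ^ (r - 1) := by rw [pow_mul]
      exact le_of_pow_le_pow_left₀ (by omega) (Nat.zero_le _) h4

open Classical in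
/-- the subset of `ZMod t` given by a predicate, for prime `t` -/
noncomputable def OmF (Q : (t : ℕ) → ZMod t → Prop) (t : ℕ) : Finset (ZMod t) :=
  if h : t.Prime then
    haveI : Fact t.Prime := ⟨h⟩
    (univ : Finset (ZMod t)).filter (Q t)
  else ∅

theorem mem_OmF {Q : (t : ℕ) → ZMod t → Prop} {t : ℕ} (ht : t.Prime) {β : ZMod t} (h : Q t β) :
    β ∈ OmF Q t := by
  classical
  unfold OmF
  rw [dif_pos ht]
  haveI : Fact t.Prime := ⟨ht⟩
  exact mem_filter.2 ⟨mem_univ _, h⟩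

theorem of_mem_OmF {Q : (t : ℕ) → ZMod t → Prop} {t : ℕ} {β : ZMod t} (h : β ∈ OmF Q t) : Q t β := by
  classical
  unfold OmF at h
  split_ifs at h with ht
  · haveI : Fact t.Prime := ⟨ht⟩
    exact (mem_filter.1 h).2
  · exact absurd h (notMem_empty _)

/-- residue classes with `p ^ e β ^ r` a value of the form -/
theorem card_half {Q : (t : ℕ) → ZMod t → Prop} {t : ℕ} (ht : t.Prime) (ht2 : t ≠ 2) {p r : ℕ}
    (hp : Odd p) (hr : 1 ≤ r) (hcop : Nat.Coprime r (t - 1)) (c δ : ZMod t) (hc : c ≠ 0)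
    (hQ : ∀ β, Q t β → ∃ ξ : ZMod t, ff p δ ξ = c * β ^ r) : 2 * (OmF Q t).card ≤ t + 1 := by
  classical
  haveI : Fact t.Prime := ⟨ht⟩
  have h3 : ((OmF Q t).image (fun β => c * β ^ r)).card = (OmF Q t).card := by
    apply Finset.card_image_of_injective
    intro s u hst
    exact pow_inj_of_coprime hr hcop (mul_left_cancel₀ hc hst)
  have h4 : (OmF Q t).image (fun β => c * β ^ r) ⊆ (univ : Finset (ZMod t)).image (ff p δ) := by
    intro v hv
    obtain ⟨β, hβ, rfl⟩ := Finset.mem_image.1 hv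
    obtain ⟨ξ, hξ⟩ := hQ β (of_mem_OmF hβ)
    exact Finset.mem_image.2 ⟨ξ, Finset.mem_univ _, hξ⟩
  have h5 := Finset.card_le_card h4
  have h6 := card_ff_image ht2 hp δ
  omega

theorem pow_cls {t lam : ℕ} (ht : t.Prime) (h : t - 1 ∣ lam) {r s : ℕ} (hr : 1 ≤ r) (hs : 1 ≤ s)
    (hrs : r % lam = s % lam) (β : ZMod t) : β ^ r = β ^ s := by
  haveI : Fact t.Prime := ⟨ht⟩
  by_cases hβ : β = 0
  · rw [hβ, zero_pow (by omega), zero_pow (by omega)]
  · have h1 : β ^ lam = 1 := by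
      obtain ⟨m, rfl⟩ := h
      rw [pow_mul, ZMod.pow_card_sub_one_eq_one hβ, one_pow]
    have h2 : ∀ n : ℕ, β ^ n = β ^ (n % lam) := by
      intro n
      conv_lhs => rw [← Nat.mod_add_div n lam, pow_add, pow_mul, h1, one_pow, mul_one]
    rw [h2 r, h2 s, hrs]

/-- the number of prime factors -/
theorem card_primeFactors_le2 {g : ℕ} (hg : 0 < g) : (g.primeFactors.card : ℝ) ≤ Real.log g / Real.log 2 := by
  have h1 : 2 ^ g.primeFactors.card ≤ g := by
    calc 2 ^ g.primeFactors.card = ∏ p ∈ g.primeFactors, 2 := by rw [prod_const]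
      _ ≤ ∏ p ∈ g.primeFactors, p := prod_le_prod' fun p hp => (Nat.prime_of_mem_primeFactors hp).two_le
      _ ≤ g := Nat.le_of_dvd hg (Nat.prod_primeFactors_dvd g)
  have hl2 : 0 < Real.log 2 := Real.log_pos (by norm_num)
  rw [le_div_iff₀ hl2, ← Real.log_pow]
  exact Real.log_le_log (by positivity) (by exact_mod_cast h1)

end Pool.Agent.Helper20K9.FC
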