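import Mathlib
import Pool.Agent.TH194.BL.Fin4
import Pool.Agent.TH194.BL.Add
import Pool.Agent.TH194.BL.Low
import Pool.Agent.TH194.BL.Lsk
import Pool.Agent.TH194.BL.Ssp

/-!
The large sieve in dimension one with the primes `t` up to `(log N) ^ 2` for which `t - 1` has only prime
factors up to `log N`: one set `P` of primes, one common multiple `lam` of the numbers `t - 1`, and the
bound `H ^ (3/4) * N ^ ε` for sets in intervals of length `H ≤ N` which occupy at most half of the classes.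
-/

set_option autoImplicit false

namespace Pool.Agent.Helper20K9.FC

open Finset Filter
open Pool.Agent.TH194.BL

/-- the large sieve in dimension one -/
theorem lsk1 (N Q j a : ℕ) (P Z : Finset ℕ) (Om : (t : ℕ) → Finset (ZMod t)) (hN : 1 ≤ N)
    (hQ : Q ^ 2 ≤ N) (hP : ∀ t ∈ P, t.Prime) (hZ : ∀ z ∈ Z, a < z ∧ z ≤ a + N)
    (hOm : ∀ t ∈ P, ((Om t).card : ℝ) ≤ 3 / 4 * (t : ℝ))
    (hmem : ∀ z ∈ Z, ∀ t ∈ P, ((z : ℕ) : ZMod t) ∈ Om t)
    (hj : ∀ D ∈ P.powersetCard j, ∏ t ∈ D, t ≤ Q) :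
    (Z.card : ℝ) * ((P.card.choose j : ℝ) / 3 ^ j) ≤ 12 * (N : ℝ) := by
  classical
  have h := (lsk add low) 1 N Q j (fun _ => a) P (Z.image (fun z => fun _ : Fin 1 => z))
    (fun t => (Om t).image (fun β => fun _ : Fin 1 => β)) hN hQ hP ?_ ?_ ?_ hj
  · rw [card_image_of_injective, pow_one] at h
    · exact h
    · intro x y hxy
      exact congrFun hxy 0
  · intro z hz i
    obtain ⟨w, hw, rfl⟩ := mem_image.1 hz
    exact mem_Ioc.2 (hZ w hw)
  · intro t ht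
    rw [pow_one]
    refine le_trans ?_ (hOm t ht)
    exact_mod_cast card_image_le
  · intro z hz t ht
    obtain ⟨w, hw, rfl⟩ := mem_image.1 hz
    exact mem_image.2 ⟨_, hmem w hw t ht, rfl⟩

/-- the lower bound for the sieve sum, for intervals of any length -/
theorem sieve_sum1 {ε : ℝ} (h0 : 0 < ε) (h1 : ε ≤ 1 / 8) {L M : ℝ}
    (hl1 : 1 ≤ L) (hll : 1 ≤ Real.log L) (h24 : 24 ≤ L ^ (ε / 16)) (h16 : 8 * L ≤ L ^ (al ε * (1 - ε / 8)))
    (h8 : 2 * Real.log L ≤ ε / 8 * L)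
    {n j : ℕ} (hn : L ^ (al ε * (1 - ε / 8)) / 4 ≤ n)
    (hj1 : (j : ℝ) ≤ L) (hj2 : M / 2 ≤ (j + 1) * (al ε * Real.log L)) (hM : 0 ≤ M) :
    Real.exp ((1 / 4 - ε / 4) * M - ε / 8 * L) ≤ (n.choose j : ℝ) / 3 ^ j := by
  have hL0 : 0 < L := by linarith
  have hal := al_ge h0 h1
  have hll0 : 0 < Real.log L := by linarith
  have hn2 : 2 * L ≤ n := by linarith
  have h2j : 2 * j ≤ n := by
    have : (2 * j : ℝ) ≤ n := by linarith
    exact_mod_cast this
  have c1 := choose_lower' h2j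
  -- the ratio
  have hr : L ^ be ε ≤ (n : ℝ) / (6 * L) := by
    rw [le_div_iff₀ (by positivity)]
    have e1 : L ^ be ε * L ^ (ε / 16) * L = L ^ (al ε * (1 - ε / 8)) := by
      rw [← Real.rpow_add hL0]
      nth_rewrite 2 [← Real.rpow_one L]
      rw [← Real.rpow_add hL0]
      congr 1
      unfold be
      ring
    have e2 : L ^ be ε * 24 * L ≤ L ^ be ε * L ^ (ε / 16) * L := by
      gcongr
    nlinarith
  have hpow : (L ^ be ε) ^ j ≤ (n.choose j : ℝ) / 3 ^ j := by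
    rw [le_div_iff₀ (by positivity)]
    calc (L ^ be ε) ^ j * 3 ^ j = (L ^ be ε * 3) ^ j := by rw [mul_pow]
      _ ≤ ((n : ℝ) / (2 * j)) ^ j := by
          rcases Nat.eq_zero_or_pos j with rfl | hj
          · simp
          have hj0 : (0 : ℝ) < j := by exact_mod_cast hj
          apply pow_le_pow_left₀ (by positivity)
          calc L ^ be ε * 3 ≤ (n : ℝ) / (6 * L) * 3 := by gcongr
            _ = (n : ℝ) / (2 * L) := by field_simp; ring
            _ ≤ (n : ℝ) / (2 * j) := by gcongr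
      _ ≤ _ := c1
  refine le_trans ?_ hpow
  have e3 : (L ^ be ε) ^ j = Real.exp (be ε * Real.log L * j) := by
    rw [Real.rpow_def_of_pos hL0, ← Real.exp_nat_mul]
    congr 1
    ring
  rw [e3]
  apply Real.exp_le_exp.2
  have hb := be_al h0 h1
  have hb0 := be_pos h0 h1
  have hb2 := be_le h0 h1
  have s1 : be ε * (M / 2) ≤ be ε * ((j + 1) * (al ε * Real.log L)) := by gcongr
  have s2 : (1 / 4 - ε / 4) * (2 * al ε) * (M / 2) ≤ be ε * (M / 2) := by gcongr
  have hal0 : 0 < al ε := by linarith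
  have s3 : (1 / 4 - ε / 4) * M ≤ be ε * ((j + 1) * Real.log L) := by
    have : al ε * ((1 / 4 - ε / 4) * M) ≤ al ε * (be ε * ((j + 1) * Real.log L)) := by
      calc al ε * ((1 / 4 - ε / 4) * M) = (1 / 4 - ε / 4) * (2 * al ε) * (M / 2) := by ring
        _ ≤ _ := s2
        _ ≤ _ := s1
        _ = _ := by ring
    exact le_of_mul_le_mul_left this hal0
  have s4 : be ε * Real.log L ≤ ε / 8 * L := by nlinarith
  nlinarith

/-- **the supply of primes and the sieve** -/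
theorem supply1 {ε : ℝ} (h0 : 0 < ε) (h1 : ε ≤ 1 / 8) : ∃ N₀ : ℕ, 3 ≤ N₀ ∧ ∀ N : ℕ, N₀ ≤ N →
    ∃ (P : Finset ℕ) (lam : ℕ), 0 < lam ∧ (lam : ℝ) ≤ (N : ℝ) ^ (ε / 8) ∧
      (∀ t ∈ P, t.Prime ∧ 3 ≤ t ∧ t - 1 ∣ lam ∧
        ∀ p : ℕ, p.Prime → p ∣ t - 1 → (p : ℝ) ≤ Real.log N) ∧
      ∀ P' ⊆ P, ((P \ P').card : ℝ) ≤ 8 * Real.log N → ∀ H : ℕ, 1 ≤ H → H ≤ N →
        ∀ (a : ℕ) (Z : Finset ℕ) (Om : (t : ℕ) → Finset (ZMod t)),
        (∀ z ∈ Z, a < z ∧ z ≤ a + H) → (∀ t ∈ P', 2 * (Om t).card ≤ t + 1) →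
        (∀ z ∈ Z, ∀ t ∈ P', ((z : ℕ) : ZMod t) ∈ Om t) →
        (Z.card : ℝ) ≤ (H : ℝ) ^ (3 / 4 : ℝ) * (N : ℝ) ^ ε := by
  classical
  obtain ⟨T₀, hT₀⟩ := ssp (1 / 2 + ε / 16) (ε / 16) (by linarith) (by linarith) (by linarith) 1
  have hev := (Real.tendsto_log_atTop.comp tendsto_natCast_atTop_atTop).eventually
    (ev_par 1 1 h0 h1 (max T₀ 2))
  have hev2 : ∀ᶠ L : ℝ in atTop, 24 ≤ L ^ (ε / 16) :=
    (tendsto_rpow_atTop (by linarith)).eventually_ge_atTop 24
  have hev3 : ∀ᶠ L : ℝ in atTop, 32 ≤ L ^ (1 / 2 : ℝ) :=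
    (tendsto_rpow_atTop (by norm_num)).eventually_ge_atTop 32
  have hev4 : ∀ᶠ L : ℝ in atTop, Real.log 12 / (ε / 8) ≤ L := eventually_ge_atTop _
  have hev5 : ∀ᶠ L : ℝ in atTop, Real.exp 2 ≤ L := eventually_ge_atTop _
  have hev' := (Real.tendsto_log_atTop.comp tendsto_natCast_atTop_atTop).eventually
    (hev2.and (hev3.and (hev4.and hev5)))
  obtain ⟨N₀, hN₀⟩ := eventually_atTop.1 (hev.and hev')
  refine ⟨max N₀ 3, le_max_right _ _, fun N hN => ?_⟩
  have hN1 : 3 ≤ N := (le_max_right _ _).trans hN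
  obtain ⟨hp, f24, fh, f12, fe⟩ := hN₀ N ((le_max_left _ _).trans hN)
  simp only [Function.comp] at hp f24 fh f12 fe
  set L := Real.log N with hL
  have hNR : (0 : ℝ) < N := by exact_mod_cast (by omega : 0 < N)
  have hN1R : (1 : ℝ) ≤ N := by exact_mod_cast (by omega : 1 ≤ N)
  have hL0 : 0 < L := by linarith [hp.l1]
  have hll : 0 < Real.log L := by linarith [hp.ll]
  have hll2 : 2 ≤ Real.log L := by rwa [Real.le_log_iff_exp_le hL0]
  have hal := al_ge h0 h1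
  have hal2 := al_le h0
  have f16 : 32 * L ≤ L ^ (al ε * (1 - ε / 8)) := by
    calc 32 * L ≤ L ^ (1 / 2 : ℝ) * L := by gcongr
      _ = L ^ (3 / 2 : ℝ) := by
          rw [show (3 / 2 : ℝ) = 1 / 2 + 1 by norm_num, Real.rpow_add hL0, Real.rpow_one]
      _ ≤ _ := Real.rpow_le_rpow_of_exponent_le hp.l1 (al_e h0 h1)
  set T := ⌊L ^ al ε⌋₊ with hT
  have hTR : (T : ℝ) ≤ L ^ al ε := Nat.floor_le (by positivity)
  have hT2 : 2 ≤ T := (le_max_right _ _).trans hp.t0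
  have hT0 : (0 : ℝ) < T := by exact_mod_cast (by omega : 0 < T)
  have hlogT : Real.log T ≤ al ε * Real.log L := by
    have := Real.log_le_log hT0 hTR
    rwa [Real.log_rpow hL0] at this
  have hlogL : Real.log L ≤ Real.log T := Real.log_le_log hL0 hp.tL
  -- primes
  set P₀ := (Icc 1 T).filter (fun t : ℕ => t.Prime ∧ t % 4 = 3 ∧ 2 ∣ t - 1 ∧
    ∀ p : ℕ, p.Prime → p ∣ t - 1 → (p : ℝ) ≤ (T : ℝ) ^ (1 / 2 + ε / 16)) with hP₀
  have hP₀c : (T : ℝ) ^ (1 - ε / 16) ≤ (P₀.card : ℝ) := by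
    have h := hT₀ T ((le_max_left _ _).trans hp.t0) 2 Nat.prime_two
      (by rw [pow_one]; push_cast; linarith)
    refine h.trans (le_of_eq ?_)
    rw [hP₀]
  have hPc : L ^ (al ε * (1 - ε / 8)) / 2 ≤ (P₀.card : ℝ) := by
    have c3 := hp.tk
    have c4 : L ^ (al ε * (1 - ε / 8)) / 2 ≤ (T : ℝ) ^ (1 - ε / 8) := by
      have d1 : (L ^ al ε / 2) ^ (1 - ε / 8) ≤ (T : ℝ) ^ (1 - ε / 8) :=
        Real.rpow_le_rpow (by positivity) hp.tl (by linarith)
      have d2 : (L ^ al ε / 2) ^ (1 - ε / 8) = L ^ (al ε * (1 - ε / 8)) / 2 ^ (1 - ε / 8) := by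
        rw [Real.div_rpow (by positivity) (by norm_num), ← Real.rpow_mul hL0.le]
      have d3 : (2 : ℝ) ^ (1 - ε / 8) ≤ 2 := by
        calc (2 : ℝ) ^ (1 - ε / 8) ≤ 2 ^ (1 : ℝ) :=
              Real.rpow_le_rpow_of_exponent_le (by norm_num) (by linarith)
          _ = 2 := Real.rpow_one 2
      calc L ^ (al ε * (1 - ε / 8)) / 2 ≤ L ^ (al ε * (1 - ε / 8)) / 2 ^ (1 - ε / 8) := by
            gcongr
        _ = _ := d2.symm
        _ ≤ _ := d1
    have c5 : (0 : ℝ) ≤ 16 * ((1 : ℕ) + 4) ^ 2 := by positivity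
    push_cast at c3 c5
    linarith
  have hPmem : ∀ t ∈ P₀, t ≤ T ∧ t.Prime ∧ t % 4 = 3 ∧
      (∀ p : ℕ, p.Prime → p ∣ t - 1 → (p : ℝ) ≤ (T : ℝ) ^ (1 / 2 + ε / 16)) := by
    intro t ht
    rw [hP₀, mem_filter, mem_Icc] at ht
    exact ⟨ht.1.2, ht.2.1, ht.2.2.1, ht.2.2.2.2⟩
  -- small primes
  set Y' := L ^ (1 - ε / 2) with hY'
  set S := (Icc 1 ⌊Y'⌋₊).filter (fun p : ℕ => p.Prime) with hS
  have hY'0 : 0 < Y' := by linarith [hp.y2]
  have hY'L : Y' ≤ L := by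
    calc Y' ≤ L ^ (1 : ℝ) := Real.rpow_le_rpow_of_exponent_le hp.l1 (by linarith)
      _ = L := Real.rpow_one L
  have hSc : (S.card : ℝ) ≤ Y' := by
    calc (S.card : ℝ) ≤ ((Icc 1 ⌊Y'⌋₊).card : ℝ) := by exact_mod_cast card_filter_le _ _
      _ = (⌊Y'⌋₊ : ℝ) := by rw [Nat.card_Icc, Nat.add_sub_cancel]
      _ ≤ Y' := Nat.floor_le hY'0.le
  have hSp : ∀ p ∈ S, p.Prime := fun p hp' => (mem_filter.1 hp').2
  have hSmem : ∀ p : ℕ, p.Prime → (p : ℝ) ≤ Y' → p ∈ S := by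
    intro p hpp hpY
    rw [hS, mem_filter, mem_Icc]
    exact ⟨⟨hpp.one_le, Nat.le_floor hpY⟩, hpp⟩
  have hTth : (T : ℝ) ^ (1 / 2 + ε / 16) ≤ Y' := by
    calc (T : ℝ) ^ (1 / 2 + ε / 16) ≤ (L ^ al ε) ^ (1 / 2 + ε / 16) :=
          Real.rpow_le_rpow hT0.le hTR (by linarith)
      _ = L ^ (al ε * (1 / 2 + ε / 16)) := by rw [← Real.rpow_mul hL0.le]
      _ = Y' := by rw [al_mul h0]
  have hlam0 : (0 : ℝ) < lamOf S T := by exact_mod_cast lamOf_pos hSp
  have hlam : (lamOf S T : ℝ) ≤ (N : ℝ) ^ (ε / 8) := by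
    rw [Real.rpow_def_of_pos hNR, ← hL, ← Real.log_le_iff_le_exp hlam0]
    have c1 := Real.log_le_log hlam0 (lamOf_le (S := S) hT2)
    rw [Real.log_pow] at c1
    push_cast at c1
    have c2 : Real.log T ≤ 2 * Real.log L := by
      refine hlogT.trans ?_
      gcongr
    have hlT0 : 0 ≤ Real.log T := by linarith
    have b1 : Real.log (lamOf S T) ≤ (Y' + 1) * (2 * Real.log L) := by
      calc Real.log (lamOf S T) ≤ _ := c1
        _ ≤ (Y' + 1) * (2 * Real.log L) := by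
            apply mul_le_mul (by linarith) c2 hlT0 (by linarith)
    have e2 := hp.e2
    have e3 : 0 ≤ Real.log 2 := Real.log_nonneg (by norm_num)
    have e4 : (Y' + 1) * (2 * Real.log L) ≤ (L ^ (1 - ε / 2) + 1) * ((4 * (1 : ℕ) + (1 : ℕ)) * Real.log L) := by
      rw [← hY']
      push_cast
      nlinarith
    linarith
  refine ⟨P₀, lamOf S T, lamOf_pos hSp, hlam, fun t ht => ?_, ?_⟩
  · obtain ⟨g1, g2, g3, g4⟩ := hPmem t ht
    refine ⟨g2, by omega, dvd_lamOf g1 g3 (fun p hpp hpt => hSmem p hpp ((g4 p hpp hpt).trans hTth)), ?_⟩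
    intro p hpp hpt
    exact ((g4 p hpp hpt).trans hTth).trans hY'L
  · intro P' hP'P hP'c H hH1 hHN a Z Om hZ hOm hmem
    have hHR : (1 : ℝ) ≤ H := by exact_mod_cast hH1
    have hlH : 0 ≤ Real.log H := Real.log_nonneg hHR
    have hlHL : Real.log H ≤ L := Real.log_le_log (by linarith) (by exact_mod_cast hHN)
    -- j and Q
    set Q := Nat.sqrt H with hQ
    have hQ2 : Q ^ 2 ≤ H := by rw [sq]; exact Nat.sqrt_le H
    have hQ1 : 1 ≤ Q := by
      rw [hQ, Nat.le_sqrt]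
      omega
    set j := Nat.log T Q with hj
    have hTj : T ^ j ≤ Q := Nat.pow_log_le_self T (by omega)
    have hTj2 : Q < T ^ (j + 1) := Nat.lt_pow_succ_log_self (by omega) Q
    have hNQ : H < (Q + 1) ^ 2 := by rw [sq]; exact Nat.lt_succ_sqrt H
    have hlT : 1 ≤ Real.log T := by linarith [hp.ll]
    have hj1 : (j : ℝ) ≤ L := by
      have a1 : (T : ℝ) ^ j ≤ Q := by exact_mod_cast hTj
      have a2 := Real.log_le_log (by positivity) a1
      rw [Real.log_pow] at a2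
      have a3 : Real.log Q ≤ L := by
        apply Real.log_le_log (by exact_mod_cast hQ1)
        have : Q ≤ Q ^ 2 := Nat.le_self_pow (by norm_num) Q
        exact_mod_cast (this.trans hQ2).trans hHN
      have a4 : (j : ℝ) * 1 ≤ j * Real.log T := by gcongr
      linarith
    have hj2 : Real.log H / 2 ≤ (j + 1) * (al ε * Real.log L) := by
      have a1 : H < (T ^ (j + 1)) ^ 2 := lt_of_lt_of_le hNQ (Nat.pow_le_pow_left hTj2 2)
      have a2 : (H : ℝ) ≤ ((T : ℝ) ^ (j + 1)) ^ 2 := by exact_mod_cast a1.le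
      have a3 := Real.log_le_log (by linarith) a2
      rw [← pow_mul, Real.log_pow] at a3
      push_cast at a3
      have a4 : ((j : ℝ) + 1) * 2 * Real.log T ≤ (j + 1) * 2 * (al ε * Real.log L) := by gcongr
      linarith
    have hP'card : L ^ (al ε * (1 - ε / 8)) / 4 ≤ (P'.card : ℝ) := by
      have c1 : P₀.card = (P₀ \ P').card + P'.card := by
        rw [card_sdiff_of_subset hP'P]
        have := card_le_card hP'P
        omega
      have c2 : (P₀.card : ℝ) = ((P₀ \ P').card : ℝ) + P'.card := by exact_mod_cast c1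
      linarith
    have hsum := sieve_sum1 h0 h1 hp.l1 hp.ll f24 (by linarith) hp.e8 hP'card hj1 hj2 hlH
    have hjP : j ≤ P'.card := by
      have : (j : ℝ) ≤ P'.card := by linarith
      exact_mod_cast this
    have hls := lsk1 H Q j a P' Z Om hH1 hQ2 (fun t ht => (hPmem t (hP'P ht)).2.1) hZ ?_ hmem ?_
    · have hpos := Real.exp_pos ((1 / 4 - ε / 4) * Real.log H - ε / 8 * L)
      have k1 : (Z.card : ℝ) * Real.exp ((1 / 4 - ε / 4) * Real.log H - ε / 8 * L) ≤ 12 * H :=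
        (mul_le_mul_of_nonneg_left hsum (Nat.cast_nonneg _)).trans hls
      have k2 : (12 : ℝ) ≤ Real.exp (ε / 8 * L) := by
        rw [← Real.log_le_iff_le_exp (by norm_num)]
        rw [div_le_iff₀ (by linarith)] at f12
        linarith
      have hHexp : (H : ℝ) = Real.exp (Real.log H) := (Real.exp_log (by linarith)).symm
      have k3 : (H : ℝ) ^ (3 / 4 : ℝ) * (N : ℝ) ^ ε = Real.exp (3 / 4 * Real.log H + ε * L) := by
        rw [Real.rpow_def_of_pos (by linarith), Real.rpow_def_of_pos hNR, ← Real.exp_add]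
        congr 1
        ring
      rw [k3]
      have k4 : 12 * (H : ℝ) ≤ Real.exp (3 / 4 * Real.log H + ε * L) *
          Real.exp ((1 / 4 - ε / 4) * Real.log H - ε / 8 * L) := by
        rw [← Real.exp_add]
        calc 12 * (H : ℝ) ≤ Real.exp (ε / 8 * L) * Real.exp (Real.log H) := by
              rw [← hHexp]
              exact mul_le_mul_of_nonneg_right k2 (by linarith)
          _ = Real.exp (ε / 8 * L + Real.log H) := by rw [← Real.exp_add]
          _ ≤ _ := by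
            apply Real.exp_le_exp.2
            nlinarith
      exact le_of_mul_le_mul_right (k1.trans k4) hpos
    · intro t ht
      have c1 := hOm t ht
      have c2 : (2 : ℝ) * ((Om t).card : ℝ) ≤ t + 1 := by exact_mod_cast c1
      have c3 : (3 : ℝ) ≤ t := by
        have := (hPmem t (hP'P ht)).2.2.1
        exact_mod_cast (by omega : 3 ≤ t)
      linarith
    · intro D hD
      rw [mem_powersetCard] at hD
      calc ∏ t ∈ D, t ≤ ∏ t ∈ D, T := prod_le_prod' (fun t ht => (hPmem t (hP'P (hD.1 ht))).1)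
        _ = T ^ j := by rw [prod_const, hD.2]
        _ ≤ Q := hTj

end Pool.Agent.Helper20K9.FC
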