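import Mathlib
import Pool.Agent.Helper20K9.SmSieve
import Pool.Agent.Helper20K9.DiffStruct
import Pool.Agent.TH863.Final

/-!
Counting the `y ≤ N` with `x ^ p + y ^ r = z ^ p`.
-/

set_option autoImplicit false

namespace Pool.Agent.Helper20K9.FC

open Finset Filter
open Pool.Agent.TH863 (GG GG_mul ff prods card_prods mem_prods card_biUnion_real U2 card_U2 A2)

/-- the properties of the supply of primes -/
def Sieve (N : ℕ) (ε : ℝ) (P : Finset ℕ) (lam : ℕ) : Prop :=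
  0 < lam ∧ (lam : ℝ) ≤ (N : ℝ) ^ (ε / 8) ∧
      (∀ t ∈ P, t.Prime ∧ 3 ≤ t ∧ t - 1 ∣ lam ∧
        ∀ p : ℕ, p.Prime → p ∣ t - 1 → (p : ℝ) ≤ Real.log N) ∧
      ∀ P' ⊆ P, ((P \ P').card : ℝ) ≤ 8 * Real.log N → ∀ H : ℕ, 1 ≤ H → H ≤ N →
        ∀ (a : ℕ) (Z : Finset ℕ) (Om : (t : ℕ) → Finset (ZMod t)),
        (∀ z ∈ Z, a < z ∧ z ≤ a + H) → (∀ t ∈ P', 2 * (Om t).card ≤ t + 1) →
        (∀ z ∈ Z, ∀ t ∈ P', ((z : ℕ) : ZMod t) ∈ Om t) →
        (Z.card : ℝ) ≤ (H : ℝ) ^ (3 / 4 : ℝ) * (N : ℝ) ^ ε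

open Classical in
/-- the second factors, large `r`, small `p` -/
noncomputable def Z1 (N lam p e ρ b : ℕ) : Finset ℕ :=
  (Icc 1 (N / b)).filter (fun n => ∃ r D : ℕ, r.Prime ∧ Real.log N < r ∧ r % lam = ρ ∧
    p ^ e * D = b ^ r ∧ ∃ X : ℤ, GG p X (X - (D : ℤ)) = (p : ℤ) ^ e * (n : ℤ) ^ r)

open Classical in
/-- the case `z = x + 1`, large `r` -/
noncomputable def Z2 (N lam π ρ : ℕ) : Finset ℕ :=
  (Icc 1 N).filter (fun n => ∃ p r : ℕ, p.Prime ∧ 3 ≤ p ∧ p % lam = π ∧ r.Prime ∧ Real.log N < r ∧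
    r % lam = ρ ∧ ∃ X : ℤ, GG p X (X - 1) = (n : ℤ) ^ r)

theorem cop_of_large {N t r : ℕ} (hr : r.Prime) (hrN : Real.log N < r)
    (h : ∀ p : ℕ, p.Prime → p ∣ t - 1 → (p : ℝ) ≤ Real.log N) : Nat.Coprime r (t - 1) := by
  rw [Nat.Prime.coprime_iff_not_dvd hr]
  intro hd
  have := h r hr hd
  linarith

theorem card_Z1 {N : ℕ} {ε : ℝ} {P : Finset ℕ} {lam : ℕ} (hS : Sieve N ε P lam) (hN : 3 ≤ N)
    {p e ρ b : ℕ} (hp : p.Prime) (hp3 : 3 ≤ p) (hpN : 2 ^ p ≤ N ^ 2) (hb : 1 ≤ b) (hbN : b ≤ N) :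
    ((Z1 N lam p e ρ b).card : ℝ) ≤ ((N : ℝ) / b) ^ (3 / 4 : ℝ) * (N : ℝ) ^ ε := by
  classical
  obtain ⟨hl0, hl, hP, hsv⟩ := hS
  have hNR : (1 : ℝ) ≤ N := by exact_mod_cast (by omega : 1 ≤ N)
  rcases (Z1 N lam p e ρ b).eq_empty_or_nonempty with h0 | ⟨n0, hn0⟩
  · rw [h0, card_empty, Nat.cast_zero]
    positivity
  · obtain ⟨hn1, r₀, D₀, hr₀, hr₀N, hr₀ρ, hD₀, -⟩ := mem_filter.1 hn0
    have hH1 : 1 ≤ N / b := by
      have := mem_Icc.1 hn1
      omega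
    obtain ⟨P', hP'⟩ : ∃ P' : Finset ℕ, P' = P.filter (fun t => ¬ t ∣ p * b) := ⟨_, rfl⟩
    have hP'P : P' ⊆ P := by rw [hP']; exact filter_subset _ _
    have hpb0 : 0 < p * b := by positivity
    have hcard : ((P \ P').card : ℝ) ≤ 8 * Real.log N := by
      have h1 : P \ P' ⊆ (p * b).primeFactors := by
        intro t ht
        rw [Finset.mem_sdiff, hP', mem_filter] at ht
        rw [Nat.mem_primeFactors]
        refine ⟨(hP t ht.1).1, ?_, hpb0.ne'⟩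
        by_contra h
        exact ht.2 ⟨ht.1, h⟩
      have h2 : ((P \ P').card : ℝ) ≤ ((p * b).primeFactors.card : ℝ) := by
        exact_mod_cast card_le_card h1
      refine h2.trans ((card_primeFactors_le2 hpb0).trans ?_)
      have hl2 : (1 : ℝ) / 2 ≤ Real.log 2 := by have := Real.log_two_gt_d9; linarith
      rw [div_le_iff₀ (by linarith)]
      have h3 : p * b ≤ N ^ 3 := by
        have h4 : p ≤ N ^ 2 := (Nat.lt_two_pow_self (n := p)).le.trans hpN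
        calc p * b ≤ N ^ 2 * N := Nat.mul_le_mul h4 hbN
          _ = N ^ 3 := by ring
      have h5 : Real.log ((p * b : ℕ) : ℝ) ≤ 3 * Real.log N := by
        have h6 : ((p * b : ℕ) : ℝ) ≤ (N : ℝ) ^ 3 := by exact_mod_cast h3
        have := Real.log_le_log (by exact_mod_cast hpb0) h6
        rw [Real.log_pow] at this
        exact_mod_cast this
      have h7 : 0 ≤ Real.log N := Real.log_nonneg hNR
      nlinarith
    have hmain := hsv P' hP'P hcard (N / b) hH1 (Nat.div_le_self N b) 0 (Z1 N lam p e ρ b)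
      (OmF (fun t β => ∃ ξ : ZMod t, ff p ((D₀ : ℕ) : ZMod t) ξ = (p : ZMod t) ^ e * β ^ r₀)) ?_ ?_ ?_
    · refine hmain.trans ?_
      apply mul_le_mul_of_nonneg_right _ (by positivity)
      apply Real.rpow_le_rpow (Nat.cast_nonneg _) _ (by norm_num)
      exact Nat.cast_div_le
    · intro z hz
      have := mem_Icc.1 (mem_filter.1 hz).1
      omega
    · intro t ht
      have htP := hP t (hP'P ht)
      rw [hP', mem_filter] at ht
      haveI : Fact t.Prime := ⟨htP.1⟩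
      have hpt : (p : ZMod t) ≠ 0 := by
        intro h
        rw [ZMod.natCast_eq_zero_iff] at h
        exact ht.2 (h.mul_right b)
      refine card_half htP.1 (by omega) (hp.odd_of_ne_two (by omega)) hr₀.one_le
        (cop_of_large hr₀ hr₀N htP.2.2.2) ((p : ZMod t) ^ e) ((D₀ : ℕ) : ZMod t) (pow_ne_zero _ hpt) ?_
      intro β hβ
      exact hβ
    · intro z hz t ht
      have htP := hP t (hP'P ht)
      rw [hP', mem_filter] at ht
      haveI : Fact t.Prime := ⟨htP.1⟩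
      have hpt : (p : ZMod t) ≠ 0 := by
        intro h
        rw [ZMod.natCast_eq_zero_iff] at h
        exact ht.2 (h.mul_right b)
      obtain ⟨-, r, D, hr, hrN, hrρ, hD, X, hX⟩ := mem_filter.1 hz
      apply mem_OmF htP.1
      have hrr : ∀ β : ZMod t, β ^ r = β ^ r₀ := fun β =>
        pow_cls htP.1 htP.2.2.1 hr.one_le hr₀.one_le (by rw [hrρ, hr₀ρ]) β
      have hDD : ((D : ℕ) : ZMod t) = ((D₀ : ℕ) : ZMod t) := by
        have h1 : (p : ZMod t) ^ e * (D : ZMod t) = (b : ZMod t) ^ r := by exact_mod_cast congrArg _ hD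
        have h2 : (p : ZMod t) ^ e * (D₀ : ZMod t) = (b : ZMod t) ^ r₀ := by exact_mod_cast congrArg _ hD₀
        rw [hrr, ← h2] at h1
        exact mul_left_cancel₀ (pow_ne_zero _ hpt) h1
      refine ⟨(X : ZMod t), ?_⟩
      rw [← hDD, ← hrr]
      have := congrArg (fun w : ℤ => (w : ZMod t)) hX
      simp only [GG] at this
      push_cast at this
      rw [ff]
      exact this

theorem card_Z2 {N : ℕ} {ε : ℝ} {P : Finset ℕ} {lam : ℕ} (hS : Sieve N ε P lam) (hN : 3 ≤ N)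
    {π ρ : ℕ} : ((Z2 N lam π ρ).card : ℝ) ≤ (N : ℝ) ^ (3 / 4 : ℝ) * (N : ℝ) ^ ε := by
  classical
  obtain ⟨hl0, hl, hP, hsv⟩ := hS
  have hNR : (1 : ℝ) ≤ N := by exact_mod_cast (by omega : 1 ≤ N)
  rcases (Z2 N lam π ρ).eq_empty_or_nonempty with h0 | ⟨n0, hn0⟩
  · rw [h0, card_empty, Nat.cast_zero]
    positivity
  · obtain ⟨hn1, p₀, r₀, hp₀, hp₀3, hp₀π, hr₀, hr₀N, hr₀ρ, -⟩ := mem_filter.1 hn0
    refine hsv P (Subset.refl _) ?_ N (by omega) le_rfl 0 (Z2 N lam π ρ)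
      (OmF (fun t β => ∃ ξ : ZMod t, ff p₀ 1 ξ = 1 * β ^ r₀)) ?_ ?_ ?_
    · rw [Finset.sdiff_self, card_empty, Nat.cast_zero]
      have := Real.log_nonneg hNR
      linarith
    · intro z hz
      have := mem_Icc.1 (mem_filter.1 hz).1
      omega
    · intro t ht
      have htP := hP t ht
      haveI : Fact t.Prime := ⟨htP.1⟩
      exact card_half htP.1 (by omega) (hp₀.odd_of_ne_two (by omega)) hr₀.one_le
        (cop_of_large hr₀ hr₀N htP.2.2.2) 1 1 one_ne_zero (fun β hβ => hβ)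
    · intro z hz t ht
      have htP := hP t ht
      haveI : Fact t.Prime := ⟨htP.1⟩
      obtain ⟨-, p, r, hp, hp3, hpπ, hr, hrN, hrρ, X, hX⟩ := mem_filter.1 hz
      apply mem_OmF htP.1
      have hrr : ∀ β : ZMod t, β ^ r = β ^ r₀ := fun β =>
        pow_cls htP.1 htP.2.2.1 hr.one_le hr₀.one_le (by rw [hrρ, hr₀ρ]) β
      have hpp : ∀ β : ZMod t, β ^ p = β ^ p₀ := fun β =>
        pow_cls htP.1 htP.2.2.1 hp.one_le hp₀.one_le (by rw [hpπ, hp₀π]) β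
      refine ⟨(X : ZMod t), ?_⟩
      have h1 : ff p₀ (1 : ZMod t) (X : ZMod t) = (X : ZMod t) ^ p₀ - ((X : ZMod t) - 1) ^ p₀ := by
        have h2 := geom_sum₂_mul (X : ZMod t) ((X : ZMod t) - 1) p₀
        rw [sub_sub_cancel, mul_one] at h2
        exact h2
      rw [h1, one_mul, ← hrr, ← hpp, ← hpp]
      have h3 := GG_mul p X (X - 1)
      rw [sub_sub_cancel, mul_one, hX] at h3
      have := congrArg (fun w : ℤ => (w : ZMod t)) h3
      push_cast at this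
      exact this.symm

theorem sum_34 (B : ℕ) : ∑ b ∈ Icc 1 B, ((b : ℝ) ^ (3 / 4 : ℝ))⁻¹ ≤ 4 * (B : ℝ) ^ (1 / 4 : ℝ) := by
  induction B with
  | zero => simp
  | succ n ih =>
    rw [Finset.sum_Icc_succ_top (by omega)]
    obtain ⟨u, hu⟩ : ∃ u : ℝ, u = ((n + 1 : ℕ) : ℝ) ^ (1 / 4 : ℝ) := ⟨_, rfl⟩
    obtain ⟨v, hv⟩ : ∃ v : ℝ, v = (n : ℝ) ^ (1 / 4 : ℝ) := ⟨_, rfl⟩
    have hn0 : (0 : ℝ) ≤ n := Nat.cast_nonneg n
    have hn1 : (0 : ℝ) < ((n + 1 : ℕ) : ℝ) := by positivity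
    have hu0 : 0 < u := by rw [hu]; positivity
    have hv0 : 0 ≤ v := by rw [hv]; positivity
    have hu4 : u ^ 4 = n + 1 := by
      rw [hu, ← Real.rpow_natCast, ← Real.rpow_mul hn1.le]
      norm_num
    have hv4 : v ^ 4 = n := by
      rw [hv, ← Real.rpow_natCast, ← Real.rpow_mul hn0]
      norm_num
    have hu3 : ((n + 1 : ℕ) : ℝ) ^ (3 / 4 : ℝ) = u ^ 3 := by
      rw [hu, ← Real.rpow_natCast, ← Real.rpow_mul hn1.le]
      norm_num
    have hvu : v ≤ u := by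
      rw [hu, hv]
      apply Real.rpow_le_rpow hn0 _ (by norm_num)
      push_cast
      linarith
    rw [hu3, ← hu]
    have h1 : (u ^ 3)⁻¹ ≤ 4 * (u - v) := by
      rw [inv_le_iff_one_le_mul₀ (by positivity)]
      have h2 : (u - v) * (u ^ 3 + u ^ 2 * v + u * v ^ 2 + v ^ 3) = 1 := by
        have : (u - v) * (u ^ 3 + u ^ 2 * v + u * v ^ 2 + v ^ 3) = u ^ 4 - v ^ 4 := by ring
        rw [this, hu4, hv4]; ring
      have h3 : u ^ 3 + u ^ 2 * v + u * v ^ 2 + v ^ 3 ≤ 4 * u ^ 3 := by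
        have a1 : u ^ 2 * v ≤ u ^ 2 * u := by gcongr
        have a2 : u * v ^ 2 ≤ u * u ^ 2 := by gcongr
        have a3 : v ^ 3 ≤ u ^ 3 := by gcongr
        nlinarith
      calc (1 : ℝ) = (u - v) * (u ^ 3 + u ^ 2 * v + u * v ^ 2 + v ^ 3) := h2.symm
        _ ≤ (u - v) * (4 * u ^ 3) := mul_le_mul_of_nonneg_left h3 (by linarith)
        _ = 4 * (u - v) * u ^ 3 := by ring
    rw [← hv] at ih
    linarith

/-- the `y ≤ N` with `x ^ p + y ^ r = z ^ p` -/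
def ED (N : ℕ) : Set ℕ :=
  {y : ℕ | 0 < y ∧ y ≤ N ∧ ∃ x z p r : ℕ, 0 < x ∧ p.Prime ∧ r.Prime ∧ 3 ≤ p ∧ 5 ≤ r ∧
    Nat.Coprime x z ∧ x ^ p + y ^ r = z ^ p}

open Classical in
noncomputable def UB1 (N lam A B : ℕ) : Finset ℕ :=
  ((Icc 1 A).filter (fun p => p.Prime ∧ 3 ≤ p ∧ 2 ^ p ≤ N ^ 2)).biUnion fun p =>
    (range 2).biUnion fun e => (range lam).biUnion fun ρ => prods B (fun b => Z1 N lam p e ρ b)

noncomputable def UB2 (N lam : ℕ) : Finset ℕ :=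
  (range lam).biUnion fun π => (range lam).biUnion fun ρ => Z2 N lam π ρ

theorem coverD {N lam A B : ℕ} (hN : 3 ≤ N) (hlam : 0 < lam)
    (hA : 1 + 3 * (Real.log N) ^ 2 ≤ A) (hA' : 3 * Real.log N ≤ A) (hL : 1 ≤ Real.log N)
    (hB : ∀ b : ℕ, b ^ 3 ≤ A * N → b ≤ B) :
    ED N ⊆ ((U2 N A A B ∪ UB1 N lam A B ∪ UB2 N lam : Finset ℕ) : Set ℕ) := by
  classical
  rintro y ⟨hy, hyN, x, z, p, r, hx, hp, hr, hp3, hr5, hxz, h⟩
  obtain ⟨e, b1, b2, D, he, hb1, hb2, hyb, hD0, hD, hX, hb3, hpr, hcase⟩ :=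
    diff_struct hp hp3 (by omega) hx hxz hy hyN h
  have hNR : (1 : ℝ) ≤ N := by exact_mod_cast (by omega : 1 ≤ N)
  have hlog0 : 0 ≤ Real.log N := Real.log_nonneg hNR
  have hl2 : (2 : ℝ) / 3 ≤ Real.log 2 := by have := Real.log_two_gt_d9; linarith
  have hb2N : b2 ≤ N / b1 := by
    rw [Nat.le_div_iff_mul_le (by omega), mul_comm]
    omega
  rw [mem_coe, mem_union, mem_union]
  rcases le_or_gt (r : ℝ) (Real.log N) with hrL | hrL
  · -- small `r`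
    left; left
    have hpA : p ≤ A := by
      have h1 : (2 : ℝ) ^ (p - 1) ≤ (N : ℝ) ^ r := by exact_mod_cast hpr
      have h2 := Real.log_le_log (by positivity) h1
      rw [Real.log_pow, Real.log_pow] at h2
      have h3 : ((p - 1 : ℕ) : ℝ) = p - 1 := by push_cast [hp.one_le]; ring
      rw [h3] at h2
      have h4 : (p : ℝ) - 1 ≤ 3 / 2 * (Real.log N) ^ 2 := by
        have h5 : (0 : ℝ) ≤ (p : ℝ) - 1 := by
          have : (1 : ℝ) ≤ p := by exact_mod_cast hp.one_le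
          linarith
        have h6 : ((p : ℝ) - 1) * (2 / 3) ≤ ((p : ℝ) - 1) * Real.log 2 := by gcongr
        have h7 : (r : ℝ) * Real.log N ≤ Real.log N * Real.log N := by gcongr
        nlinarith
      have h8 : (p : ℝ) ≤ A := by
        have : (0 : ℝ) ≤ (Real.log N) ^ 2 := by positivity
        linarith
      exact_mod_cast h8
    have hb1B : b1 ≤ B := hB b1 (hb3.trans (Nat.mul_le_mul_right _ hpA))
    have hrA : r ≤ A := by
      have : (r : ℝ) ≤ A := by linarith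
      exact_mod_cast this
    rw [U2, mem_biUnion]
    refine ⟨p, mem_filter.2 ⟨mem_Icc.2 ⟨hp.one_le, hpA⟩, hp, by omega⟩, ?_⟩
    rw [mem_biUnion]
    refine ⟨e, mem_range.2 (by omega), ?_⟩
    rw [mem_biUnion]
    refine ⟨r, mem_filter.2 ⟨mem_Icc.2 ⟨hr.one_le, hrA⟩, hr, hr5⟩, ?_⟩
    rw [hyb]
    apply mem_prods hb1 hb1B
    rw [A2, mem_filter]
    refine ⟨mem_Icc.2 ⟨hb2, hb2N⟩, ?_⟩
    obtain ⟨X, hX⟩ := hX
    refine ⟨X, ?_⟩
    have h1 : b1 ^ r / p ^ e = D := by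
      rw [← hD]
      exact Nat.mul_div_cancel_left _ (Nat.pow_pos hp.pos)
    rw [h1]
    exact hX
  · rcases hcase with ⟨he0, hb10⟩ | hpN
    · -- `z = x + 1`
      right
      rw [UB2, mem_biUnion]
      refine ⟨p % lam, mem_range.2 (Nat.mod_lt _ hlam), ?_⟩
      rw [mem_biUnion]
      refine ⟨r % lam, mem_range.2 (Nat.mod_lt _ hlam), ?_⟩
      rw [Z2, mem_filter]
      refine ⟨mem_Icc.2 ⟨hy, hyN⟩, p, r, hp, hp3, rfl, hr, hrL, rfl, ?_⟩
      obtain ⟨X, hX⟩ := hX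
      refine ⟨X, ?_⟩
      rw [he0, hb10, pow_zero, one_mul, one_pow] at hD
      rw [hD, he0, pow_zero, one_mul] at hX
      rw [hyb, hb10, one_mul]
      exact_mod_cast hX
    · left; right
      have hpA : p ≤ A := by
        have h1 : (2 : ℝ) ^ p ≤ (N : ℝ) ^ 2 := by exact_mod_cast hpN
        have h2 := Real.log_le_log (by positivity) h1
        rw [Real.log_pow, Real.log_pow] at h2
        have h3 : (p : ℝ) * (2 / 3) ≤ p * Real.log 2 := by gcongr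
        have h4 : (p : ℝ) ≤ A := by
          push_cast at h2
          linarith
        exact_mod_cast h4
      have hb1B : b1 ≤ B := hB b1 (hb3.trans (Nat.mul_le_mul_right _ hpA))
      rw [UB1, mem_biUnion]
      refine ⟨p, mem_filter.2 ⟨mem_Icc.2 ⟨hp.one_le, hpA⟩, hp, hp3, hpN⟩, ?_⟩
      rw [mem_biUnion]
      refine ⟨e, mem_range.2 (by omega), ?_⟩
      rw [mem_biUnion]
      refine ⟨r % lam, mem_range.2 (Nat.mod_lt _ hlam), ?_⟩
      rw [hyb]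
      apply mem_prods hb1 hb1B
      rw [Z1, mem_filter]
      exact ⟨mem_Icc.2 ⟨hb2, hb2N⟩, r, D, hr, hrL, rfl, hD, hX⟩

theorem card_UB1 {N lam A B : ℕ} {ε : ℝ} {P : Finset ℕ} (hS : Sieve N ε P lam) (hN : 3 ≤ N) (hBN : B ≤ N) :
    ((UB1 N lam A B).card : ℝ) ≤ A * (2 * (lam * ((N : ℝ) ^ (3 / 4 : ℝ) * (N : ℝ) ^ ε *
      (4 * (B : ℝ) ^ (1 / 4 : ℝ))))) := by
  classical
  have hNR : (0 : ℝ) ≤ N := Nat.cast_nonneg N
  have h1 : ∀ p ∈ (Icc 1 A).filter (fun p => p.Prime ∧ 3 ≤ p ∧ 2 ^ p ≤ N ^ 2), ∀ e ∈ range 2,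
      ∀ ρ ∈ range lam, ((prods B (fun b => Z1 N lam p e ρ b)).card : ℝ) ≤
        (N : ℝ) ^ (3 / 4 : ℝ) * (N : ℝ) ^ ε * (4 * (B : ℝ) ^ (1 / 4 : ℝ)) := by
    intro p hp e _ ρ _
    obtain ⟨-, hp1, hp3, hpN⟩ := mem_filter.1 hp
    have h2 := card_prods B (fun b => Z1 N lam p e ρ b)
      (fun b => (N : ℝ) ^ (3 / 4 : ℝ) * (N : ℝ) ^ ε * ((b : ℝ) ^ (3 / 4 : ℝ))⁻¹) (by
      intro b hb
      rw [mem_Icc] at hb
      have h3 := card_Z1 hS hN (e := e) (ρ := ρ) hp1 hp3 hpN hb.1 (hb.2.trans hBN)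
      rw [Real.div_rpow hNR (Nat.cast_nonneg b)] at h3
      refine h3.trans (le_of_eq ?_)
      rw [div_eq_mul_inv]
      ring)
    refine h2.trans ?_
    rw [← Finset.mul_sum]
    exact mul_le_mul_of_nonneg_left (sum_34 B) (by positivity)
  refine (card_biUnion_real _ _ _ (fun p hp => card_biUnion_real _ _ _
    (fun e he => card_biUnion_real _ _ _ (h1 p hp e he)))).trans ?_
  rw [card_range, card_range]
  push_cast
  apply mul_le_mul_of_nonneg_right _ (by positivity)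
  have := Finset.card_filter_le (Icc 1 A) (fun p => p.Prime ∧ 3 ≤ p ∧ 2 ^ p ≤ N ^ 2)
  rw [Nat.card_Icc, Nat.add_sub_cancel] at this
  exact_mod_cast this

theorem card_UB2 {N lam : ℕ} {ε : ℝ} {P : Finset ℕ} (hS : Sieve N ε P lam) (hN : 3 ≤ N) :
    ((UB2 N lam).card : ℝ) ≤ lam * (lam * ((N : ℝ) ^ (3 / 4 : ℝ) * (N : ℝ) ^ ε)) := by
  classical
  refine (card_biUnion_real _ _ _ (fun π _ => card_biUnion_real _ _ _
    (fun ρ _ => card_Z2 hS hN))).trans ?_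
  rw [card_range]

theorem final_diff {η : ℝ} (hη : 0 < η) : ∃ C : ℝ, ∀ N : ℕ, 1 ≤ N →
    ((ED N).ncard : ℝ) ≤ C * (N : ℝ) ^ (5 / 6 + η : ℝ) := by
  classical
  obtain ⟨ε, hε⟩ : ∃ ε : ℝ, ε = min (η / 4) (1 / 8) := ⟨_, rfl⟩
  have h0 : 0 < ε := by rw [hε]; positivity
  have h1 : ε ≤ 1 / 8 := by rw [hε]; exact min_le_right _ _
  have hεη : 4 * ε ≤ η := by
    have : ε ≤ η / 4 := by rw [hε]; exact min_le_left _ _
    linarith
  obtain ⟨N₀, hN₀3, hsup⟩ := supply1 h0 h1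
  obtain ⟨C, hC, hU2⟩ := card_U2
  have ev1 : ∀ᶠ N : ℕ in atTop, 2 + 3 * (Real.log N) ^ 2 ≤ (N : ℝ) ^ ε := by
    have e1 := ((isLittleO_log_rpow_rpow_atTop (s := ε) 2 h0).const_mul_left 6).bound
      (show (0 : ℝ) < 1 by norm_num)
    have e2 : ∀ᶠ x : ℝ in atTop, 4 ≤ x ^ ε := (tendsto_rpow_atTop h0).eventually_ge_atTop 4
    filter_upwards [tendsto_natCast_atTop_atTop.eventually e1,
      tendsto_natCast_atTop_atTop.eventually e2] with N g1 g2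
    rw [one_mul, Real.norm_of_nonneg (Real.rpow_nonneg (Nat.cast_nonneg N) _)] at g1
    have g3 := (Real.le_norm_self _).trans g1
    have g4 : Real.log (N : ℝ) ^ (2 : ℝ) = (Real.log N) ^ 2 := by
      rw [← Real.rpow_natCast]; norm_num
    rw [g4] at g3
    linarith
  have ev2 : ∀ᶠ N : ℕ in atTop, 2 * Real.log ((N : ℝ) + 2) ≤ (N : ℝ) ^ ε := by
    have e1 := ((isLittleO_log_rpow_atTop h0).const_mul_left 4).bound
      (show (0 : ℝ) < 1 by norm_num)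
    filter_upwards [tendsto_natCast_atTop_atTop.eventually e1, eventually_ge_atTop 2] with N g1 g2
    rw [one_mul, Real.norm_of_nonneg (Real.rpow_nonneg (Nat.cast_nonneg N) _)] at g1
    have g3 := (Real.le_norm_self _).trans g1
    have g5 : (2 : ℝ) ≤ N := by exact_mod_cast g2
    have g6 : Real.log ((N : ℝ) + 2) ≤ 2 * Real.log N := by
      have e : (N : ℝ) + 2 ≤ (N : ℝ) ^ 2 := by nlinarith
      calc Real.log ((N : ℝ) + 2) ≤ Real.log ((N : ℝ) ^ 2) := Real.log_le_log (by linarith) e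
        _ = 2 * Real.log N := by rw [Real.log_pow]; norm_num
    linarith
  have ev3 : ∀ᶠ N : ℕ in atTop, (1 : ℝ) ≤ Real.log N :=
    (Real.tendsto_log_atTop.comp tendsto_natCast_atTop_atTop).eventually_ge_atTop 1
  obtain ⟨N₁, hN₁⟩ := eventually_atTop.1 (ev1.and (ev2.and ev3))
  obtain ⟨M, hM⟩ : ∃ M : ℕ, M = max (max N₀ N₁) 3 := ⟨_, rfl⟩
  refine ⟨C + 9 + M, fun N hN => ?_⟩
  have hNR : (1 : ℝ) ≤ N := by exact_mod_cast hN
  have hpow1 : 1 ≤ (N : ℝ) ^ (5 / 6 + η : ℝ) := Real.one_le_rpow hNR (by linarith)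
  have hED : (ED N).ncard ≤ N := by
    have h1 : ED N ⊆ ((Icc 1 N : Finset ℕ) : Set ℕ) := by
      intro y hy
      exact mem_coe.2 (mem_Icc.2 ⟨hy.1, hy.2.1⟩)
    have h2 := Set.ncard_le_ncard h1 (Finset.finite_toSet _)
    rwa [Set.ncard_coe_finset, Nat.card_Icc, Nat.add_sub_cancel] at h2
  rcases Nat.lt_or_ge N M with hlt | hge
  · have h2 : ((ED N).ncard : ℝ) ≤ M := by exact_mod_cast hED.trans hlt.le
    calc ((ED N).ncard : ℝ) ≤ M := h2
      _ ≤ C + 9 + M := by linarith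
      _ = (C + 9 + M) * 1 := (mul_one _).symm
      _ ≤ (C + 9 + M) * (N : ℝ) ^ (5 / 6 + η : ℝ) := by
        apply mul_le_mul_of_nonneg_left hpow1
        have : (0 : ℝ) ≤ M := Nat.cast_nonneg M
        linarith
  · have hge' : N₀ ≤ N ∧ N₁ ≤ N ∧ 3 ≤ N := by
      rw [hM] at hge
      simp only [ge_iff_le, max_le_iff] at hge
      exact ⟨hge.1.1, hge.1.2, hge.2⟩
    obtain ⟨g1, g2, g3⟩ := hN₁ N hge'.2.1
    obtain ⟨P, lam, hS⟩ := hsup N hge'.1
    have hSv : Sieve N ε P lam := hS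
    have hlam := hS.1
    have hlamN := hS.2.1
    obtain ⟨A, hA⟩ : ∃ A : ℕ, A = ⌊(N : ℝ) ^ ε⌋₊ := ⟨_, rfl⟩
    obtain ⟨B, hB⟩ : ∃ B : ℕ, B = ⌊(N : ℝ) ^ (1 / 3 + ε : ℝ)⌋₊ := ⟨_, rfl⟩
    have hNε0 : 0 ≤ (N : ℝ) ^ ε := by positivity
    have hAle : (A : ℝ) ≤ (N : ℝ) ^ ε := by rw [hA]; exact Nat.floor_le hNε0
    have hAge : (N : ℝ) ^ ε - 1 ≤ (A : ℝ) := by
      have := Nat.lt_floor_add_one ((N : ℝ) ^ ε)
      rw [← hA] at this
      linarith
    have hBle : (B : ℝ) ≤ (N : ℝ) ^ (1 / 3 + ε : ℝ) := by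
      rw [hB]; exact Nat.floor_le (by positivity)
    have hBN : B ≤ N := by
      have h2 : (B : ℝ) ≤ N := by
        refine hBle.trans ?_
        calc (N : ℝ) ^ (1 / 3 + ε : ℝ) ≤ (N : ℝ) ^ (1 : ℝ) :=
              Real.rpow_le_rpow_of_exponent_le hNR (by linarith)
          _ = N := Real.rpow_one _
      exact_mod_cast h2
    have hBmem : ∀ b : ℕ, b ^ 3 ≤ A * N → b ≤ B := by
      intro b hb
      rw [hB]
      apply Nat.le_floor
      have h2 : (b : ℝ) ^ 3 ≤ (N : ℝ) ^ ε * N := by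
        have : (b : ℝ) ^ 3 ≤ A * N := by exact_mod_cast hb
        exact this.trans (by gcongr)
      have h3 : (N : ℝ) ^ ε * N = (N : ℝ) ^ (1 + ε : ℝ) := by
        rw [Real.rpow_add (by linarith), Real.rpow_one, mul_comm]
      rw [h3] at h2
      have h4 : (b : ℝ) = ((b : ℝ) ^ 3) ^ (1 / 3 : ℝ) := by
        rw [← Real.rpow_natCast, ← Real.rpow_mul (Nat.cast_nonneg b)]
        norm_num
      rw [h4]
      calc ((b : ℝ) ^ 3) ^ (1 / 3 : ℝ) ≤ ((N : ℝ) ^ (1 + ε : ℝ)) ^ (1 / 3 : ℝ) :=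
            Real.rpow_le_rpow (by positivity) h2 (by norm_num)
        _ = (N : ℝ) ^ ((1 + ε) * (1 / 3) : ℝ) := by rw [← Real.rpow_mul (by linarith)]
        _ ≤ (N : ℝ) ^ (1 / 3 + ε : ℝ) := Real.rpow_le_rpow_of_exponent_le hNR (by linarith)
    have hcov := coverD (A := A) (B := B) hge'.2.2 hlam (by linarith) (by
      have : Real.log N ≤ (Real.log N) ^ 2 := by nlinarith
      linarith) g3 hBmem
    have h2 := Set.ncard_le_ncard hcov (Finset.finite_toSet _)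
    rw [Set.ncard_coe_finset] at h2
    have h3 : (U2 N A A B ∪ UB1 N lam A B ∪ UB2 N lam).card ≤
        (U2 N A A B).card + (UB1 N lam A B).card + (UB2 N lam).card :=
      (Finset.card_union_le _ _).trans (Nat.add_le_add_right (Finset.card_union_le _ _) _)
    have h4 : ((ED N).ncard : ℝ) ≤
        (U2 N A A B).card + (UB1 N lam A B).card + (UB2 N lam).card := by
      exact_mod_cast h2.trans h3
    have hN0 : (0 : ℝ) < N := by linarith
    -- the three bounds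
    have b1 : ((U2 N A A B).card : ℝ) ≤ C * (N : ℝ) ^ (5 / 6 + η : ℝ) := by
      refine (hU2 N A A B hN).trans ?_
      have k1 : √(N : ℝ) = (N : ℝ) ^ (1 / 2 : ℝ) := Real.sqrt_eq_rpow _
      have k2 : √(B : ℝ) ≤ (N : ℝ) ^ ((1 / 3 + ε) * (1 / 2) : ℝ) := by
        rw [Real.sqrt_eq_rpow, Real.rpow_mul hN0.le]
        exact Real.rpow_le_rpow (Nat.cast_nonneg B) hBle (by norm_num)
      have k3 : Real.log ((N : ℝ) + 2) ≤ (N : ℝ) ^ ε := by
        have : 0 ≤ Real.log ((N : ℝ) + 2) := Real.log_nonneg (by linarith)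
        linarith
      have k4 : 0 ≤ Real.log ((N : ℝ) + 2) := Real.log_nonneg (by linarith)
      calc C * A * A * (√N * Real.log (N + 2) * √(B : ℝ))
          ≤ C * (N : ℝ) ^ ε * (N : ℝ) ^ ε *
            ((N : ℝ) ^ (1 / 2 : ℝ) * (N : ℝ) ^ ε * (N : ℝ) ^ ((1 / 3 + ε) * (1 / 2) : ℝ)) := by
            rw [k1]
            gcongr
        _ = C * (N : ℝ) ^ (ε + ε + (1 / 2 + ε + (1 / 3 + ε) * (1 / 2)) : ℝ) := by
            rw [Real.rpow_add hN0, Real.rpow_add hN0, Real.rpow_add hN0, Real.rpow_add hN0]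
            ring
        _ ≤ C * (N : ℝ) ^ (5 / 6 + η : ℝ) := by
            apply mul_le_mul_of_nonneg_left _ hC.le
            exact Real.rpow_le_rpow_of_exponent_le hNR (by linarith)
    have b2 : ((UB1 N lam A B).card : ℝ) ≤ 8 * (N : ℝ) ^ (5 / 6 + η : ℝ) := by
      refine (card_UB1 hSv hge'.2.2 hBN).trans ?_
      have k2 : (B : ℝ) ^ (1 / 4 : ℝ) ≤ (N : ℝ) ^ ((1 / 3 + ε) * (1 / 4) : ℝ) := by
        rw [Real.rpow_mul hN0.le]
        exact Real.rpow_le_rpow (Nat.cast_nonneg B) hBle (by norm_num)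
      calc (A : ℝ) * (2 * (lam * ((N : ℝ) ^ (3 / 4 : ℝ) * (N : ℝ) ^ ε * (4 * (B : ℝ) ^ (1 / 4 : ℝ)))))
          ≤ (N : ℝ) ^ ε * (2 * ((N : ℝ) ^ (ε / 8) * ((N : ℝ) ^ (3 / 4 : ℝ) * (N : ℝ) ^ ε *
            (4 * (N : ℝ) ^ ((1 / 3 + ε) * (1 / 4) : ℝ))))) := by gcongr
        _ = 8 * (N : ℝ) ^ (ε + (ε / 8 + (3 / 4 + ε + (1 / 3 + ε) * (1 / 4))) : ℝ) := by
            rw [Real.rpow_add hN0, Real.rpow_add hN0, Real.rpow_add hN0, Real.rpow_add hN0]
            ring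
        _ ≤ 8 * (N : ℝ) ^ (5 / 6 + η : ℝ) := by
            apply mul_le_mul_of_nonneg_left _ (by norm_num)
            exact Real.rpow_le_rpow_of_exponent_le hNR (by linarith)
    have b3 : ((UB2 N lam).card : ℝ) ≤ 1 * (N : ℝ) ^ (5 / 6 + η : ℝ) := by
      refine (card_UB2 hSv hge'.2.2).trans ?_
      calc (lam : ℝ) * (lam * ((N : ℝ) ^ (3 / 4 : ℝ) * (N : ℝ) ^ ε))
          ≤ (N : ℝ) ^ (ε / 8) * ((N : ℝ) ^ (ε / 8) * ((N : ℝ) ^ (3 / 4 : ℝ) * (N : ℝ) ^ ε)) := by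
            gcongr
        _ = 1 * (N : ℝ) ^ (ε / 8 + (ε / 8 + (3 / 4 + ε)) : ℝ) := by
            rw [Real.rpow_add hN0, Real.rpow_add hN0, Real.rpow_add hN0]
            ring
        _ ≤ 1 * (N : ℝ) ^ (5 / 6 + η : ℝ) := by
            apply mul_le_mul_of_nonneg_left _ (by norm_num)
            exact Real.rpow_le_rpow_of_exponent_le hNR (by linarith)
    have hM0 : (0 : ℝ) ≤ M := Nat.cast_nonneg M
    have h5 : 0 ≤ (M : ℝ) * (N : ℝ) ^ (5 / 6 + η : ℝ) := by positivity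
    calc ((ED N).ncard : ℝ) ≤ C * (N : ℝ) ^ (5 / 6 + η : ℝ) + 8 * (N : ℝ) ^ (5 / 6 + η : ℝ) +
          1 * (N : ℝ) ^ (5 / 6 + η : ℝ) := by linarith
      _ ≤ (C + 9 + M) * (N : ℝ) ^ (5 / 6 + η : ℝ) := by linarith

end Pool.Agent.Helper20K9.FC
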