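import Mathlib
import Pool.Agent.Helper20K9.SmSieve
import Pool.Agent.Helper20K9.DiffStruct
import Pool.Agent.Y353.SU.Loc

/-!
The sieve for the bases `B` in an interval, the base `A` being fixed.
-/

set_option autoImplicit false

namespace Pool.Agent.Helper20K9.FC

open Finset Filter
open Pool.Agent.TH194.BL

/-- the three equations -/
def Eq3 (A B C x y q : ℕ) : Prop :=
  A ^ x + B ^ y = C ^ q ∨ A ^ x + C ^ q = B ^ y ∨ B ^ y + C ^ q = A ^ x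

/-- the three pairs of signs -/
def sgn3 : Finset (ℤ × ℤ) := {((1 : ℤ), (1 : ℤ)), (-1, 1), (1, -1)}

theorem eq3_sgn {A B C x y q : ℕ} (h : Eq3 A B C x y q) :
    ∃ s ∈ sgn3, s.1 * (A : ℤ) ^ x + s.2 * (B : ℤ) ^ y = (C : ℤ) ^ q := by
  rcases h with h | h | h
  · refine ⟨(1, 1), by simp [sgn3], ?_⟩
    have : (A : ℤ) ^ x + (B : ℤ) ^ y = (C : ℤ) ^ q := by exact_mod_cast h
    simp only
    linarith
  · refine ⟨(-1, 1), by simp [sgn3], ?_⟩
    have : (A : ℤ) ^ x + (C : ℤ) ^ q = (B : ℤ) ^ y := by exact_mod_cast h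
    simp only
    linarith
  · refine ⟨(1, -1), by simp [sgn3], ?_⟩
    have : (B : ℤ) ^ y + (C : ℤ) ^ q = (A : ℤ) ^ x := by exact_mod_cast h
    simp only
    linarith

theorem sgn3_ne {s : ℤ × ℤ} (hs : s ∈ sgn3) (t : ℕ) [Fact t.Prime] :
    (s.1 : ZMod t) ≠ 0 ∧ (s.2 : ZMod t) ≠ 0 := by
  simp only [sgn3, mem_insert, mem_singleton] at hs
  rcases hs with rfl | rfl | rfl <;> simp

/-- one dimensional form of the local count -/
theorem loc1 {R q t : ℕ} (ht : t.Prime) (hq : q.Prime) (hqt : q ∣ t - 1) (hkt : 16 * (1 + R + 1) ^ 2 ≤ t)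
    (y : ℕ) (hr : ∀ ρ : ℕ, ρ ∣ t - 1 → ρ ∣ y → ρ ≤ R) (Q : (t : ℕ) → ZMod t → Prop)
    (α β : ZMod t) (hα : α ≠ 0) (hβ : β ≠ 0)
    (hQ : ∀ v : ZMod t, Q t v → v = 0 ∨ ∃ z, α + β * v ^ y = z ^ q) :
    ((OmF Q t).card : ℝ) ≤ 3 / 4 * (t : ℝ) := by
  classical
  haveI : Fact t.Prime := ⟨ht⟩
  have h := Pool.Agent.Y353.SU.locR R 1 q t hq hqt hkt (![0] : Fin 1 → ℕ) (![y] : Fin 1 → ℕ) α β 1 hα hβ
    (by
      intro r hr1 hr2
      have h1 := hr2 0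
      simp at h1
      exact hr r hr1 (by exact_mod_cast h1))
  rw [pow_one] at h
  refine le_trans ?_ h
  have h2 : ((OmF Q t).image (fun v => fun _ : Fin 1 => v)).card = (OmF Q t).card := by
    apply card_image_of_injective
    intro v w hvw
    exact congrFun hvw 0
  rw [← h2]
  norm_cast
  apply card_le_card
  intro f hf
  obtain ⟨v, hv, rfl⟩ := mem_image.1 hf
  rw [mem_filter]
  refine ⟨mem_univ _, ?_⟩
  rcases hQ v (of_mem_OmF hv) with h3 | ⟨z, hz⟩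
  · left; exact ⟨0, h3⟩
  · right
    refine ⟨z, ?_⟩
    simpa using hz

/-- **the sieve**: `A` fixed, the exponent `q` fixed, all bases `B` of an interval -/
theorem fib_sieve {q R N Q j lam b A : ℕ} {P E : Finset ℕ} (hq : q.Prime) (hlam : 0 < lam)
    (hP : ∀ t ∈ P, t.Prime ∧ t - 1 ∣ lam ∧ q ∣ t - 1 ∧ 16 * (1 + R + 1) ^ 2 ≤ t)
    (hN : 1 ≤ N) (hQ : Q ^ 2 ≤ N) (hPA : ∀ t ∈ P, ¬ t ∣ A)
    (hj : ∀ D ∈ P.powersetCard j, ∏ t ∈ D, t ≤ Q)
    (hE : ∀ β ∈ E, (b < β ∧ β ≤ b + N) ∧ ∃ x y C : ℕ, Eq3 A β C x y q ∧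
      ∀ t ∈ P, ∀ ρ : ℕ, ρ ∣ t - 1 → ρ ∣ y → ρ ≤ R) :
    (E.card : ℝ) * ((P.card.choose j : ℝ) / 3 ^ j) ≤ 3 * (lam : ℝ) ^ 2 * (12 * (N : ℝ)) := by
  classical
  set I : Finset ((ℤ × ℤ) × (ℕ × ℕ)) := sgn3 ×ˢ (range lam ×ˢ range lam) with hI
  set Z : (ℤ × ℤ) × (ℕ × ℕ) → Finset ℕ := fun i => E.filter (fun β => ∃ x y C : ℕ,
    i.1.1 * (A : ℤ) ^ x + i.1.2 * (β : ℤ) ^ y = (C : ℤ) ^ q ∧ x % lam = i.2.1 ∧ y % lam = i.2.2 ∧
      ∀ t ∈ P, ∀ ρ : ℕ, ρ ∣ t - 1 → ρ ∣ y → ρ ≤ R) with hZ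
  have hcov : E ⊆ I.biUnion Z := by
    intro β hβ
    obtain ⟨hβ1, x, y, C, heq, hg⟩ := hE β hβ
    obtain ⟨s, hs, hseq⟩ := eq3_sgn heq
    rw [mem_biUnion]
    refine ⟨(s, (x % lam, y % lam)), ?_, ?_⟩
    · rw [hI, mem_product, mem_product, mem_range, mem_range]
      exact ⟨hs, Nat.mod_lt _ hlam, Nat.mod_lt _ hlam⟩
    · rw [hZ]
      simp only
      rw [mem_filter]
      exact ⟨hβ, x, y, C, hseq, rfl, rfl, hg⟩
  have hIc : (I.card : ℝ) = 3 * (lam : ℝ) ^ 2 := by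
    have h3 : sgn3.card = 3 := by decide
    rw [hI, card_product, card_product, card_range, h3]
    push_cast
    ring
  have hone : ∀ i ∈ I, ((Z i).card : ℝ) * ((P.card.choose j : ℝ) / 3 ^ j) ≤ 12 * (N : ℝ) := by
    rintro ⟨s, x0, y0⟩ hi
    rw [hI, mem_product, mem_product, mem_range, mem_range] at hi
    obtain ⟨hs, hx0, hy0⟩ := hi
    simp only at hs hx0 hy0
    by_cases hne : (Z (s, (x0, y0))).Nonempty
    swap
    · rw [not_nonempty_iff_eq_empty] at hne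
      rw [hne, card_empty, Nat.cast_zero, zero_mul]
      positivity
    set Qp : (t : ℕ) → ZMod t → Prop := fun t v =>
      v = 0 ∨ ∃ z : ZMod t, (s.1 : ZMod t) * (A : ZMod t) ^ x0 + (s.2 : ZMod t) * v ^ y0 = z ^ q with hQp
    -- the class `y0` has the gcd property
    have hgy : ∀ t ∈ P, ∀ ρ : ℕ, ρ ∣ t - 1 → ρ ∣ y0 → ρ ≤ R := by
      obtain ⟨β, hβ⟩ := hne
      rw [hZ] at hβ
      simp only at hβ
      rw [mem_filter] at hβ
      obtain ⟨_, x, y, C, _, _, hy, hg⟩ := hβ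
      intro t ht ρ h1 h2
      apply hg t ht ρ h1
      have h3 : ρ ∣ lam := h1.trans (hP t ht).2.1
      rw [← Nat.mod_add_div y lam, hy]
      exact dvd_add h2 (h3.mul_right _)
    refine lsk1 N Q j b P (Z (s, (x0, y0))) (OmF Qp) hN hQ (fun t ht => (hP t ht).1) ?_ ?_ ?_ hj
    · intro β hβ
      exact (hE β (filter_subset _ _ hβ)).1
    · intro t ht
      obtain ⟨t1, t2, t3, t4⟩ := hP t ht
      haveI : Fact t.Prime := ⟨t1⟩
      obtain ⟨n1, n2⟩ := sgn3_ne hs t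
      have hA0 : (A : ZMod t) ≠ 0 := by
        rw [Ne, ZMod.natCast_eq_zero_iff]
        exact hPA t ht
      exact loc1 t1 hq t3 t4 y0 (hgy t ht) Qp _ _ (mul_ne_zero n1 (pow_ne_zero _ hA0)) n2
        (fun v hv => hv)
    · intro β hβ t ht
      rw [hZ] at hβ
      simp only at hβ
      rw [mem_filter] at hβ
      obtain ⟨_, x, y, C, heq, hx, hy, _⟩ := hβ
      obtain ⟨t1, t2, t3, t4⟩ := hP t ht
      haveI : Fact t.Prime := ⟨t1⟩
      apply mem_OmF t1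
      rw [hQp]
      simp only
      by_cases h0 : (β : ZMod t) = 0
      · left; exact h0
      right
      have hA0 : (A : ZMod t) ≠ 0 := by
        rw [Ne, ZMod.natCast_eq_zero_iff]
        exact hPA t ht
      have hpow : ∀ v : ZMod t, v ≠ 0 → ∀ n : ℕ, v ^ n = v ^ (n % lam) := by
        intro v hv n
        have h1 : v ^ lam = 1 := by
          obtain ⟨m, rfl⟩ := t2
          rw [pow_mul, ZMod.pow_card_sub_one_eq_one hv, one_pow]
        conv_lhs => rw [← Nat.mod_add_div n lam, pow_add, pow_mul, h1, one_pow, mul_one]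
      refine ⟨(C : ZMod t), ?_⟩
      have h2 := congrArg (Int.cast : ℤ → ZMod t) heq
      push_cast at h2
      rw [hpow _ hA0 x, hpow _ h0 y, hx, hy] at h2
      exact h2
  have hcard : (E.card : ℝ) ≤ ∑ i ∈ I, ((Z i).card : ℝ) := by
    have h1 : E.card ≤ ∑ i ∈ I, (Z i).card := (card_le_card hcov).trans card_biUnion_le
    exact_mod_cast h1
  calc (E.card : ℝ) * ((P.card.choose j : ℝ) / 3 ^ j) ≤
      (∑ i ∈ I, ((Z i).card : ℝ)) * ((P.card.choose j : ℝ) / 3 ^ j) :=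
        mul_le_mul_of_nonneg_right hcard (by positivity)
    _ = ∑ i ∈ I, ((Z i).card : ℝ) * ((P.card.choose j : ℝ) / 3 ^ j) := sum_mul _ _ _
    _ ≤ ∑ i ∈ I, 12 * (N : ℝ) := sum_le_sum hone
    _ = 3 * (lam : ℝ) ^ 2 * (12 * (N : ℝ)) := by rw [sum_const, nsmul_eq_mul, hIc]

end Pool.Agent.Helper20K9.FC
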