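import Mathlib
import Pool.Agent.Y353.QO.Sup

/-!
Many primes `t ≡ 1 mod g` with a common small multiple of the numbers `t - 1`, none of which is divisible by a
given large prime `r` (variant of `Pool.Agent.Y353.QO.Sup`).
-/

set_option autoImplicit false

namespace Pool.Agent.Helper20K9.FC

open Finset Filter Topology
open Pool.Agent.Y353.PS

/-- the primes `p ≡ 1 mod m r` -/
theorem remove_le {z K m r : ℕ} (hm : 0 < m) (hz : 2 ≤ z) (hr : r.Prime) (hrm : ¬ r ∣ m) :
    ∑ p ∈ (Ioc z (z ^ K)).filter (fun p => p.Prime ∧ p ≡ 1 [MOD m] ∧ r ∣ p - 1), (1 : ℝ) / p ≤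
      (1 + K * Real.log z) / ((m : ℝ) * r) := by
  classical
  obtain ⟨T, hT⟩ : ∃ T : Finset ℕ, T = (Ioc z (z ^ K)).filter
      (fun p => p.Prime ∧ p ≡ 1 [MOD m] ∧ r ∣ p - 1) := ⟨_, rfl⟩
  rw [← hT]
  have hmr0 : 0 < m * r := Nat.mul_pos hm hr.pos
  have hmrR : (0 : ℝ) < (m : ℝ) * r := by exact_mod_cast hmr0
  have hex : ∀ p ∈ T, p = 1 + (m * r) * ((p - 1) / (m * r)) ∧ 1 ≤ (p - 1) / (m * r) ∧
      (p - 1) / (m * r) ≤ z ^ K := by
    intro p hp
    rw [hT, mem_filter, mem_Ioc] at hp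
    obtain ⟨⟨hp1, hp2⟩, hp3, hp4, hp6⟩ := hp
    have hp5 : 1 ≤ p := hp3.one_lt.le
    have e2 : m ∣ p - 1 := (Nat.modEq_iff_dvd' hp5).1 hp4.symm
    have e3 : m * r ∣ p - 1 :=
      Nat.Coprime.mul_dvd_of_dvd_of_dvd ((Nat.Prime.coprime_iff_not_dvd hr).2 hrm).symm e2 hp6
    obtain ⟨k, hk⟩ := e3
    rw [hk, Nat.mul_div_cancel_left _ hmr0]
    refine ⟨by omega, ?_, ?_⟩
    · rcases Nat.eq_zero_or_pos k with h0 | h0
      · rw [h0, mul_zero] at hk
        omega
      · exact h0
    · have : k ≤ (m * r) * k := Nat.le_mul_of_pos_left k hmr0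
      omega
  have h2 : ∑ p ∈ T, (1 : ℝ) / p ≤ ∑ k ∈ Icc 1 (z ^ K), (1 / ((m : ℝ) * r)) * (1 / (k : ℝ)) := by
    calc ∑ p ∈ T, (1 : ℝ) / p
        ≤ ∑ p ∈ T, (1 / ((m : ℝ) * r)) * (1 / (((p - 1) / (m * r) : ℕ) : ℝ)) := by
          apply sum_le_sum
          intro p hp
          obtain ⟨g1, g2, g3⟩ := hex p hp
          obtain ⟨k, hk⟩ : ∃ k, k = (p - 1) / (m * r) := ⟨_, rfl⟩
          rw [← hk] at g1 g2 ⊢
          have hk0 : (0 : ℝ) < k := by exact_mod_cast g2
          rw [← one_div_mul_one_div]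
          rw [one_div_mul_one_div, one_div_mul_one_div]
          apply one_div_le_one_div_of_le (by positivity)
          have : (((m * r) * k : ℕ) : ℝ) ≤ (p : ℝ) := by exact_mod_cast (by omega)
          push_cast at this
          exact this
      _ = ∑ k ∈ T.image (fun p => (p - 1) / (m * r)), (1 / ((m : ℝ) * r)) * (1 / (k : ℝ)) := by
          rw [sum_image]
          intro p hp p' hp' hpp
          rw [mem_coe] at hp hp'
          have g1 := (hex p hp).1
          have g2 := (hex p' hp').1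
          simp only at hpp
          rw [g1, g2, hpp]
      _ ≤ _ := by
          apply sum_le_sum_of_subset_of_nonneg
          · intro k hk
            rw [mem_image] at hk
            obtain ⟨p, hp, rfl⟩ := hk
            obtain ⟨g1, g2, g3⟩ := hex p hp
            exact mem_Icc.2 ⟨g2, g3⟩
          · intro k _ _
            positivity
  rw [← mul_sum] at h2
  refine h2.trans ?_
  have h3 : ∑ k ∈ Icc 1 (z ^ K), (1 : ℝ) / k ≤ 1 + K * Real.log z := by
    have e2 := harmonic_le_one_add_log (z ^ K)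
    have e3 : ((harmonic (z ^ K) : ℚ) : ℝ) = ∑ k ∈ Icc 1 (z ^ K), (1 : ℝ) / k := by
      rw [harmonic_eq_sum_Icc]
      push_cast
      apply sum_congr rfl
      intro k _
      rw [one_div]
    rw [e3] at e2
    have e4 : Real.log ((z ^ K : ℕ) : ℝ) = K * Real.log z := by
      rw [Nat.cast_pow, Real.log_pow]
    rw [e4] at e2
    exact e2
  calc 1 / ((m : ℝ) * r) * ∑ k ∈ Icc 1 (z ^ K), (1 : ℝ) / k ≤ 1 / ((m : ℝ) * r) * (1 + K * Real.log z) :=
        mul_le_mul_of_nonneg_left h3 (by positivity)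
    _ = _ := by ring

/-- the popular cofactor `k` -/
theorem popularR {z K g r : ℕ} {c : ℝ} (D : Finset ℕ) (hpos : ∀ d ∈ D, 0 < d) (hg : 0 < g)
    (hz : 2 ≤ z) (hc : 0 < c) (hD : 0 < D.card)
    (h : ∀ d ∈ D, c / (g * d : ℕ) ≤ ∑ p ∈ (Ioc z (z ^ K)).filter
      (fun p => p.Prime ∧ p ≡ 1 [MOD g * d] ∧ ¬ r ∣ p - 1), (1 : ℝ) / p) :
    ∃ k : ℕ, 0 < k ∧ k ≤ z ^ K ∧ c * D.card / (1 + K * Real.log z) ≤
      ((D.filter (fun d => (1 + (g * d) * k).Prime ∧ z < 1 + (g * d) * k ∧
        1 + (g * d) * k ≤ z ^ K ∧ ¬ r ∣ (g * d) * k)).card : ℝ) := by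
  classical
  set good : ℕ → ℕ → Prop := fun d k => (1 + (g * d) * k).Prime ∧ z < 1 + (g * d) * k ∧
        1 + (g * d) * k ≤ z ^ K ∧ ¬ r ∣ (g * d) * k with hgood
  set I := Icc 1 (z ^ K) with hI
  -- for each `d`
  have h1 : ∀ d ∈ D, c ≤ ∑ k ∈ I.filter (fun k => good d k), (1 : ℝ) / k := by
    intro d hd
    have hd0 := hpos d hd
    have hm : 0 < g * d := Nat.mul_pos hg hd0
    have hmR : (0 : ℝ) < (g * d : ℕ) := by exact_mod_cast hm
    obtain ⟨T, hT⟩ : ∃ T : Finset ℕ, T = (Ioc z (z ^ K)).filter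
        (fun p => p.Prime ∧ p ≡ 1 [MOD g * d] ∧ ¬ r ∣ p - 1) := ⟨_, rfl⟩
    have hd' := h d hd
    rw [← hT] at hd'
    have hex : ∀ p ∈ T, p = 1 + (g * d) * ((p - 1) / (g * d)) ∧ 0 < (p - 1) / (g * d) := by
      intro p hp
      rw [hT, mem_filter, mem_Ioc] at hp
      obtain ⟨⟨hp1, hp2⟩, hp3, hp4, hp6⟩ := hp
      have hp5 : 1 ≤ p := hp3.one_lt.le
      have e2 : g * d ∣ p - 1 := (Nat.modEq_iff_dvd' hp5).1 hp4.symm
      obtain ⟨k, hk⟩ := e2
      rw [hk, Nat.mul_div_cancel_left _ hm]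
      refine ⟨by omega, ?_⟩
      rcases Nat.eq_zero_or_pos k with h0 | h0
      · rw [h0, mul_zero] at hk
        omega
      · exact h0
    have h2 : ∑ p ∈ T, (1 : ℝ) / p ≤
        ∑ k ∈ I.filter (fun k => good d k), (1 : ℝ) / ((g * d : ℕ) * k) := by
      calc ∑ p ∈ T, (1 : ℝ) / p
          ≤ ∑ p ∈ T, (1 : ℝ) / ((g * d : ℕ) * ((p - 1) / (g * d) : ℕ)) := by
            apply sum_le_sum
            intro p hp
            obtain ⟨g1, g2⟩ := hex p hp
            obtain ⟨k, hk⟩ : ∃ k, k = (p - 1) / (g * d) := ⟨_, rfl⟩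
            rw [← hk] at g1 g2 ⊢
            apply one_div_le_one_div_of_le
            · have : (0 : ℝ) < k := by exact_mod_cast g2
              positivity
            · have : (((g * d) * k : ℕ) : ℝ) ≤ (p : ℝ) := by exact_mod_cast (by omega)
              push_cast at this ⊢
              exact this
        _ = ∑ k ∈ T.image (fun p => (p - 1) / (g * d)), (1 : ℝ) / ((g * d : ℕ) * k) := by
            rw [sum_image]
            intro p hp p' hp' hpp
            rw [mem_coe] at hp hp'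
            have g1 := (hex p hp).1
            have g2 := (hex p' hp').1
            simp only at hpp
            rw [g1, g2, hpp]
        _ ≤ _ := by
            apply sum_le_sum_of_subset_of_nonneg
            · intro k hk
              rw [mem_image] at hk
              obtain ⟨p, hp, rfl⟩ := hk
              obtain ⟨g1, g2⟩ := hex p hp
              rw [hT, mem_filter, mem_Ioc] at hp
              obtain ⟨⟨hp1, hp2⟩, hp3, hp4, hp6⟩ := hp
              rw [mem_filter, hI, mem_Icc]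
              refine ⟨⟨g2, ?_⟩, ?_⟩
              · exact (Nat.div_le_self _ _).trans ((Nat.sub_le _ _).trans hp2)
              · rw [hgood]
                simp only
                have g3 : (g * d) * ((p - 1) / (g * d)) = p - 1 := by omega
                rw [g3]
                have g4 : 1 + (p - 1) = p := by omega
                rw [g4]
                exact ⟨hp3, hp1, hp2, hp6⟩
            · intro k _ _
              positivity
    have h3 : ∑ k ∈ I.filter (fun k => good d k), (1 : ℝ) / ((g * d : ℕ) * k) =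
        (1 / ((g * d : ℕ))) * ∑ k ∈ I.filter (fun k => good d k), (1 : ℝ) / k := by
      rw [mul_sum]
      apply sum_congr rfl
      intro k _
      rw [div_mul_div_comm, one_mul]
    have h4 := hd'.trans h2
    rw [h3] at h4
    have h5 : c / (g * d : ℕ) = (1 / ((g * d : ℕ))) * c := by ring
    rw [h5] at h4
    exact le_of_mul_le_mul_left h4 (by positivity)
  -- sum over `d`
  have h2 : D.card * c ≤ ∑ k ∈ I, (1 : ℝ) / k * ((D.filter (fun d => good d k)).card : ℝ) := by
    calc D.card * c = ∑ d ∈ D, c := by rw [sum_const, nsmul_eq_mul]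
      _ ≤ ∑ d ∈ D, ∑ k ∈ I.filter (fun k => good d k), (1 : ℝ) / k := sum_le_sum h1
      _ = ∑ d ∈ D, ∑ k ∈ I, if good d k then (1 : ℝ) / k else 0 := by
          apply sum_congr rfl
          intro d _
          rw [sum_filter]
      _ = ∑ k ∈ I, ∑ d ∈ D, if good d k then (1 : ℝ) / k else 0 := sum_comm
      _ = _ := by
          apply sum_congr rfl
          intro k _
          rw [← sum_filter, sum_const, nsmul_eq_mul, mul_comm]
  have hz0 : (0 : ℝ) < z := by exact_mod_cast (by omega : 0 < z)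
  have hlogz : 0 < Real.log z := Real.log_pos (by exact_mod_cast (by omega : 1 < z))
  have h3 : ∑ k ∈ I, (1 : ℝ) / k ≤ 1 + K * Real.log z := by
    have e2 := harmonic_le_one_add_log (z ^ K)
    have e3 : ((harmonic (z ^ K) : ℚ) : ℝ) = ∑ k ∈ Icc 1 (z ^ K), (1 : ℝ) / k := by
      rw [harmonic_eq_sum_Icc]
      push_cast
      apply sum_congr rfl
      intro k _
      rw [one_div]
    rw [e3] at e2
    have e4 : Real.log ((z ^ K : ℕ) : ℝ) = K * Real.log z := by
      rw [Nat.cast_pow, Real.log_pow]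
    rw [e4] at e2
    exact e2
  by_contra hcon
  push Not at hcon
  have hS0 : 0 < 1 + K * Real.log z := by positivity
  have h4 : ∀ k ∈ I, (1 : ℝ) / k * ((D.filter (fun d => good d k)).card : ℝ) ≤
      (1 : ℝ) / k * (c * D.card / (1 + K * Real.log z)) := by
    intro k hk
    rw [hI, mem_Icc] at hk
    apply mul_le_mul_of_nonneg_left _ (by positivity)
    exact (hcon k hk.1 hk.2).le
  have h5 : 1 ∈ I := by
    rw [hI, mem_Icc]
    exact ⟨le_rfl, Nat.one_le_pow _ _ (by omega)⟩
  have h6 : ∑ k ∈ I, (1 : ℝ) / k * ((D.filter (fun d => good d k)).card : ℝ) <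
      ∑ k ∈ I, (1 : ℝ) / k * (c * D.card / (1 + K * Real.log z)) := by
    apply sum_lt_sum h4
    refine ⟨1, h5, ?_⟩
    apply mul_lt_mul_of_pos_left _ (by norm_num)
    exact hcon 1 one_pos (Nat.one_le_pow _ _ (by omega))
  rw [← sum_mul] at h6
  have hDR : (0 : ℝ) < D.card := by exact_mod_cast hD
  have h7 : (∑ k ∈ I, (1 : ℝ) / k) * (c * D.card / (1 + K * Real.log z)) ≤
      (1 + K * Real.log z) * (c * D.card / (1 + K * Real.log z)) :=
    mul_le_mul_of_nonneg_right h3 (by positivity)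
  have h8 : (1 + K * Real.log z) * (c * D.card / (1 + K * Real.log z)) = D.card * c := by
    field_simp
  linarith

/-- many primes `t` for which `t - 1` divides one number `lam` -/
theorem supplyR_of {z K g q₁ y j r : ℕ} {c : ℝ} (hz : 2 ≤ z) (hc : 0 < c) (hr : r.Prime) (hrg : ¬ r ∣ g)
    (hyr : y < r) (hrc : (1 + K * Real.log z) / r ≤ c / 2)
    (hg : 0 < g) (hq1 : g < q₁)
    (h : ∀ m b : ℕ, 0 < m → m ^ 16 ≤ z → ¬ q₁ ∣ m → b.Coprime m →
      c / (m.totient : ℝ) ≤
        ∑ p ∈ (Ioc z (z ^ K)).filter (fun p => p.Prime ∧ p ≡ b [MOD m]), (1 : ℝ) / p)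
    (hy : (g * y ^ j) ^ 16 ≤ z) (hj : j + g.primeFactors.card + 1 ≤ Nat.primeCounting y) :
    ∃ (P : Finset ℕ) (lam : ℕ), (∀ t ∈ P, t.Prime ∧ z < t ∧ t ≤ z ^ K ∧ t - 1 ∣ lam ∧ g ∣ t - 1 ∧
        ¬ r ∣ t - 1) ∧
      0 < lam ∧ lam ≤ g * z ^ K * 4 ^ y ∧
      c / 2 * ((Nat.primeCounting y - g.primeFactors.card - 1).choose j : ℕ) / (1 + K * Real.log z) ≤
        (P.card : ℝ) := by
  classical
  -- the prime to be left out
  obtain ⟨l, hl0, hl⟩ : ∃ l : ℕ, (l = 0 ∨ l.Prime) ∧
      ∀ m : ℕ, g.Coprime m → ¬ l ∣ m → ¬ q₁ ∣ g * m := by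
    by_cases hex : ∃ l : ℕ, l.Prime ∧ l ∣ q₁ ∧ ¬ l ∣ g
    · obtain ⟨l, hl1, hl2, hl3⟩ := hex
      refine ⟨l, Or.inr hl1, fun m _ hlm hdiv => ?_⟩
      rcases (Nat.Prime.dvd_mul hl1).1 (hl2.trans hdiv) with h2 | h2
      · exact hl3 h2
      · exact hlm h2
    · push Not at hex
      refine ⟨0, Or.inl rfl, fun m hgm _ hdiv => ?_⟩
      have hcop : Nat.Coprime q₁ m := by
        apply Nat.Coprime.symm
        apply Nat.coprime_of_dvd
        intro p hp hpm hpq
        have h1 := hex p hp hpq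
        exact hp.one_lt.ne' (Nat.dvd_one.1 (hgm ▸ Nat.dvd_gcd h1 hpm))
      have h1 : q₁ ∣ g := hcop.dvd_of_dvd_mul_right hdiv
      have h2 := Nat.le_of_dvd hg h1
      omega
  -- the primes
  set Q := ((Nat.primesLE y) \ g.primeFactors).erase l with hQ
  have hQp : ∀ p ∈ Q, p.Prime ∧ p ≤ y ∧ ¬ p ∣ g ∧ p ≠ l := by
    intro p hp
    rw [hQ, mem_erase, Finset.mem_sdiff] at hp
    have h2 := Nat.mem_primesLE.1 hp.2.1
    refine ⟨h2.2, h2.1, fun h3 => hp.2.2 ?_, hp.1⟩
    exact Nat.mem_primeFactors.2 ⟨h2.2, h3, hg.ne'⟩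
  have hQc : Nat.primeCounting y - g.primeFactors.card - 1 ≤ Q.card := by
    have e1 : (Nat.primesLE y).card = Nat.primeCounting y := Nat.primesLE_card_eq_primeCounting _
    have e2 := Finset.le_card_sdiff g.primeFactors (Nat.primesLE y)
    have e3 := Finset.pred_card_le_card_erase (s := (Nat.primesLE y) \ g.primeFactors) (a := l)
    rw [← hQ] at e3
    omega
  set D := (Q.powersetCard j).image (fun D => ∏ p ∈ D, p) with hD
  have hDc : (Nat.primeCounting y - g.primeFactors.card - 1).choose j ≤ D.card := by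
    rw [hD, card_prods Q (fun p hp => (hQp p hp).1)]
    exact Nat.choose_le_choose j hQc
  have hDprop : ∀ d ∈ D, 0 < d ∧ g.Coprime d ∧ ¬ l ∣ d ∧ d ≤ y ^ j ∧ d ∣ ∏ p ∈ Q, p := by
    intro d hd
    rw [hD, mem_image] at hd
    obtain ⟨S, hS, rfl⟩ := hd
    rw [mem_powersetCard] at hS
    have hSp : ∀ p ∈ S, p.Prime ∧ p ≤ y ∧ ¬ p ∣ g ∧ p ≠ l := fun p hp => hQp p (hS.1 hp)
    refine ⟨prod_pos fun p hp => (hSp p hp).1.pos, ?_, ?_, ?_, ?_⟩
    · apply Nat.Coprime.prod_right
      intro p hp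
      exact ((hSp p hp).1.coprime_iff_not_dvd.2 (hSp p hp).2.2.1).symm
    · intro hl1
      rcases hl0 with h0 | h0
      · rw [h0] at hl1
        have h2 := Nat.eq_zero_of_zero_dvd hl1
        have h3 : 0 < ∏ p ∈ S, p := prod_pos fun p hp => (hSp p hp).1.pos
        omega
      · obtain ⟨p, hp, hlp⟩ := (Nat.Prime.prime h0).exists_mem_finset_dvd hl1
        exact (hSp p hp).2.2.2 ((Nat.prime_dvd_prime_iff_eq h0 (hSp p hp).1).1 hlp).symm
    · calc ∏ p ∈ S, p ≤ ∏ p ∈ S, y := prod_le_prod' fun p hp => (hSp p hp).2.1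
        _ = y ^ j := by rw [prod_const, hS.2]
    · exact prod_dvd_prod_of_subset _ _ _ hS.1
  have hjc : 0 < (Nat.primeCounting y - g.primeFactors.card - 1).choose j := Nat.choose_pos (by omega)
  have hD0 : 0 < D.card := lt_of_lt_of_le hjc hDc
  obtain ⟨k, hk0, hkz, hk⟩ := popularR (z := z) (K := K) (g := g) (r := r) (c := c / 2) D
    (fun d hd => (hDprop d hd).1) hg hz (by positivity) hD0 (by
      intro d hd
      obtain ⟨g1, g2, g3, g4, g5⟩ := hDprop d hd
      have hm0 : 0 < g * d := by positivity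
      have h1 := h (g * d) 1 hm0 ?_ (hl d g2 g3) (Nat.coprime_one_left _)
      · have hrd : ¬ r ∣ d := by
          intro hrd
          have h2 : r ∣ ∏ p ∈ Q, p := hrd.trans g5
          obtain ⟨p, hp, hrp⟩ := (Nat.Prime.prime hr).exists_mem_finset_dvd h2
          have h3 := (Nat.prime_dvd_prime_iff_eq hr (hQp p hp).1).1 hrp
          have h4 := (hQp p hp).2.1
          omega
        have hrm : ¬ r ∣ g * d := fun hd2 => ((Nat.Prime.dvd_mul hr).1 hd2).elim hrg hrd
        have hrem := remove_le (z := z) (K := K) (m := g * d) hm0 hz hr hrm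
        have hsplit : ∑ p ∈ (Ioc z (z ^ K)).filter (fun p => p.Prime ∧ p ≡ 1 [MOD g * d]), (1 : ℝ) / p =
            ∑ p ∈ (Ioc z (z ^ K)).filter (fun p => p.Prime ∧ p ≡ 1 [MOD g * d] ∧ ¬ r ∣ p - 1), (1 : ℝ) / p +
            ∑ p ∈ (Ioc z (z ^ K)).filter (fun p => p.Prime ∧ p ≡ 1 [MOD g * d] ∧ r ∣ p - 1), (1 : ℝ) / p := by
          rw [← sum_filter_add_sum_filter_not
            ((Ioc z (z ^ K)).filter (fun p => p.Prime ∧ p ≡ 1 [MOD g * d])) (fun p => ¬ r ∣ p - 1),
            filter_filter, filter_filter]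
          congr 1
          · apply sum_congr _ (fun _ _ => rfl)
            apply filter_congr
            intro p _
            tauto
          · apply sum_congr _ (fun _ _ => rfl)
            apply filter_congr
            intro p _
            tauto
        have h2 : c / ((g * d : ℕ) : ℝ) ≤ c / ((g * d).totient : ℝ) := by
          apply div_le_div_of_nonneg_left hc.le
          · exact_mod_cast Nat.totient_pos.2 hm0
          · exact_mod_cast Nat.totient_le _
        have hmR : (0 : ℝ) < ((g * d : ℕ) : ℝ) := by exact_mod_cast hm0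
        have h3 : (1 + K * Real.log z) / (((g * d : ℕ) : ℝ) * r) ≤ c / 2 / ((g * d : ℕ) : ℝ) := by
          rw [mul_comm ((g * d : ℕ) : ℝ) (r : ℝ), ← div_div]
          exact div_le_div_of_nonneg_right hrc hmR.le
        have h4 : c / ((g * d : ℕ) : ℝ) = c / 2 / ((g * d : ℕ) : ℝ) + c / 2 / ((g * d : ℕ) : ℝ) := by ring
        linarith
      · refine le_trans ?_ hy
        apply Nat.pow_le_pow_left
        exact Nat.mul_le_mul_left _ g4)
  set G := D.filter (fun d => (1 + (g * d) * k).Prime ∧ z < 1 + (g * d) * k ∧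
        1 + (g * d) * k ≤ z ^ K ∧ ¬ r ∣ (g * d) * k) with hG
  refine ⟨G.image (fun d => 1 + (g * d) * k), g * k * ∏ p ∈ Q, p, ?_, ?_, ?_, ?_⟩
  · intro t ht
    rw [mem_image] at ht
    obtain ⟨d, hd, rfl⟩ := ht
    rw [hG, mem_filter] at hd
    obtain ⟨hd1, hd2, hd3, hd4, hd5⟩ := hd
    obtain ⟨g1, g2, g3, g4, g5⟩ := hDprop d hd1
    refine ⟨hd2, hd3, hd4, ?_, ?_, ?_⟩
    · have e1 : 1 + (g * d) * k - 1 = g * k * d := by
        rw [Nat.add_sub_cancel_left]; ring
      rw [e1]
      exact Nat.mul_dvd_mul_left _ g5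
    · have e1 : 1 + (g * d) * k - 1 = g * (d * k) := by
        rw [Nat.add_sub_cancel_left]; ring
      rw [e1]
      exact Dvd.intro _ rfl
    · rw [Nat.add_sub_cancel_left]
      exact hd5
  · have h1 : 0 < ∏ p ∈ Q, p := prod_pos fun p hp => (hQp p hp).1.pos
    positivity
  · have h1 : ∏ p ∈ Q, p ≤ 4 ^ y := by
      have e1 : ∏ p ∈ Q, p ∣ primorial y := by
        unfold primorial
        apply prod_dvd_prod_of_subset
        intro p hp
        have h2 := hQp p hp
        rw [mem_filter, mem_range]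
        exact ⟨by omega, h2.1⟩
      exact (Nat.le_of_dvd (primorial_pos y) e1).trans (primorial_le_four_pow y)
    exact Nat.mul_le_mul (Nat.mul_le_mul_left _ hkz) h1
  · rw [card_image_of_injOn]
    · refine le_trans ?_ hk
      have hz0 : (0 : ℝ) < z := by exact_mod_cast (by omega : 0 < z)
      have hlogz : 0 < Real.log z := Real.log_pos (by exact_mod_cast (by omega : 1 < z))
      apply div_le_div_of_nonneg_right _ (by positivity)
      apply mul_le_mul_of_nonneg_left _ (by positivity)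
      exact_mod_cast hDc
    · intro d _ d' _ hdd
      simp only at hdd
      have e1 : g * k * d = g * k * d' := by
        have a1 : (g * d) * k = g * k * d := by ring
        have a2 : (g * d') * k = g * k * d' := by ring
        omega
      exact Nat.eq_of_mul_eq_mul_left (by positivity) e1

end Pool.Agent.Helper20K9.FC
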