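import Mathlib
import Pool.Agent.Helper20K9.Fib1
import Pool.Agent.Helper20K9.SupR2
import Pool.Agent.Y353.PS.Loc
import Pool.Agent.TH194.BL.Fin3

/-!
The sieve for the bases `B` in an interval, the base `A` being fixed: choice of the parameters.
-/

set_option autoImplicit false

namespace Pool.Agent.Helper20K9.FC

open Finset Filter Topology
open Pool.Agent.TH194.BL
open Pool.Agent.Y353.PS (Par' ev_par')

theorem ev_R : ∀ᶠ L : ℝ in atTop,
    16 * (1 + ⌊Real.exp (L ^ (1 / 3 : ℝ))⌋₊ ^ 2 + 1) ^ 2 ≤ ⌊Real.exp (√L)⌋₊ ∧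
    L ≤ Real.exp (L ^ (1 / 3 : ℝ)) := by
  have h1 : ∀ᶠ L : ℝ in atTop, 24 ≤ L ^ (1 / 3 : ℝ) :=
    (tendsto_rpow_atTop (by norm_num)).eventually_ge_atTop _
  have h2 : ∀ᶠ L : ℝ in atTop, 6 ≤ L ^ (1 / 6 : ℝ) :=
    (tendsto_rpow_atTop (by norm_num)).eventually_ge_atTop _
  filter_upwards [h1, h2, eventually_ge_atTop 1] with L g1 g2 g3
  have hL0 : 0 < L := by linarith
  set u := L ^ (1 / 3 : ℝ) with hu
  have hsq : 6 * u ≤ √L := by
    have e1 : √L = L ^ (1 / 6 : ℝ) * u := by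
      rw [hu, Real.sqrt_eq_rpow, ← Real.rpow_add hL0]
      norm_num
    rw [e1]
    exact mul_le_mul_of_nonneg_right g2 (by linarith)
  constructor
  · apply Nat.le_floor
    push_cast
    have hR : ((⌊Real.exp u⌋₊ : ℕ) : ℝ) ≤ Real.exp u := Nat.floor_le (Real.exp_nonneg _)
    have hR0 : (0 : ℝ) ≤ ((⌊Real.exp u⌋₊ : ℕ) : ℝ) := Nat.cast_nonneg _
    have hE1 : (1 : ℝ) ≤ Real.exp u := Real.one_le_exp (by linarith)
    have h3 : (1 : ℝ) + ((⌊Real.exp u⌋₊ : ℕ) : ℝ) ^ 2 + 1 ≤ 3 * Real.exp u ^ 2 := by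
      have a1 : ((⌊Real.exp u⌋₊ : ℕ) : ℝ) ^ 2 ≤ Real.exp u ^ 2 := pow_le_pow_left₀ hR0 hR 2
      have a2 : (1 : ℝ) ≤ Real.exp u ^ 2 := one_le_pow₀ hE1
      linarith
    have h4 : (144 : ℝ) ≤ Real.exp u ^ 2 := by
      have a1 : u + 1 ≤ Real.exp u := Real.add_one_le_exp u
      nlinarith
    calc (16 : ℝ) * (1 + ((⌊Real.exp u⌋₊ : ℕ) : ℝ) ^ 2 + 1) ^ 2 ≤ 16 * (3 * Real.exp u ^ 2) ^ 2 := by
          gcongr
      _ = 144 * Real.exp u ^ 4 := by ring
      _ ≤ Real.exp u ^ 2 * Real.exp u ^ 4 := by gcongr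
      _ = Real.exp (6 * u) := by rw [← pow_add, ← Real.exp_nat_mul]; norm_num
      _ ≤ Real.exp (√L) := Real.exp_le_exp.2 hsq
  · have e1 : L = u ^ 3 := by
      rw [hu, ← Real.rpow_natCast, ← Real.rpow_mul hL0.le]
      norm_num
    have e2 : u ^ 4 / 24 ≤ Real.exp u := by
      have := Real.pow_div_factorial_le_exp u (by linarith) 4
      norm_num [Nat.factorial] at this
      exact this
    calc L = u ^ 3 := e1
      _ ≤ u ^ 4 / 24 := by
        rw [le_div_iff₀ (by norm_num)]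
        have : 0 ≤ u ^ 3 := by positivity
        nlinarith
      _ ≤ _ := e2

theorem card_large_factors {z A : ℕ} {T : Finset ℕ} (hA : 0 < A) (hT : ∀ t ∈ T, t.Prime ∧ z < t ∧ t ∣ A) :
    z ^ T.card ≤ A := by
  have h1 : ∏ t ∈ T, t ∣ A := by
    apply Finset.prod_primes_dvd
    · intro t ht; exact (Nat.Prime.prime (hT t ht).1)
    · intro t ht; exact (hT t ht).2.2
  calc z ^ T.card = ∏ t ∈ T, z := by rw [prod_const]
    _ ≤ ∏ t ∈ T, t := prod_le_prod' fun t ht => (hT t ht).2.1.le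
    _ ≤ A := Nat.le_of_dvd hA h1

/-- one prime exponent `q`, one prime `r` that is allowed to divide the other exponent -/
theorem fib_core : ∃ K : ℕ, 1 ≤ K ∧ ∀ B : ℕ, ∃ N₀ : ℕ, ∀ N : ℕ, N₀ ≤ N → ∀ q r : ℕ, q.Prime →
    (q : ℝ) ≤ Real.log N ^ B → r.Prime → Real.exp (Real.log N ^ (1 / 3 : ℝ)) < r → r ≠ q →
    ∃ lam : ℕ, 0 < lam ∧ Real.log lam ≤ Real.log N ^ (19 / 20 : ℝ) / 2 ∧
    ∀ (A b : ℕ) (E : Finset ℕ), 0 < A → A ≤ N →
    (∀ β ∈ E, (b < β ∧ β ≤ b + N) ∧ ∃ x m p C : ℕ, p.Prime ∧ 0 < m ∧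
      (m : ℝ) ≤ Real.exp (Real.log N ^ (1 / 3 : ℝ)) ∧
      (p ∣ lam → p = r ∨ (p : ℝ) ≤ Real.exp (Real.log N ^ (1 / 3 : ℝ))) ∧ Eq3 A β C x (m * p) q) →
    (E.card : ℝ) ≤ (N : ℝ) ^ (1 - 1 / (500 * K) : ℝ) := by
  classical
  obtain ⟨K, hK, hsup⟩ := supplyR
  refine ⟨K, hK, fun B => ?_⟩
  obtain ⟨z₀, hz₀⟩ := hsup (3 * (B + 1))
  have hev := (Real.tendsto_log_atTop.comp tendsto_natCast_atTop_atTop).eventually
    ((ev_par' 1 (B + 1) K (max z₀ 2) hK).and (ev_R.and (eventually_ge_atTop (4 : ℝ))))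
  obtain ⟨N₀, hN₀⟩ := eventually_atTop.1 hev
  refine ⟨max N₀ 1, fun N hN q r hq hqB hr hrL hrq => ?_⟩
  have hN1 : 1 ≤ N := (le_max_right _ _).trans hN
  obtain ⟨z, hz⟩ : ∃ z : ℕ, z = ⌊Real.exp (√(Real.log N))⌋₊ := ⟨_, rfl⟩
  obtain ⟨hp, ⟨hR1, hR2⟩, hL4⟩ := hN₀ N ((le_max_left _ _).trans hN)
  simp only [Function.comp] at hp hR1 hR2 hL4
  rw [← hz] at hp hR1
  have hKR : (1 : ℝ) ≤ K := by exact_mod_cast hK
  set L := Real.log (N : ℝ) with hL
  have hNR : (0 : ℝ) < N := by exact_mod_cast hN1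
  have hNexp : (N : ℝ) = Real.exp L := (Real.exp_log hNR).symm
  have hL0 : 0 < L := by linarith [hp.l1]
  have hL1 : 1 ≤ L := hp.l1
  have hsL : √L * √L = L := Real.mul_self_sqrt hL0.le
  have hs2 : 2 ≤ √L := by
    rw [Real.le_sqrt (by norm_num) hL0.le]; norm_num; exact hL4
  have hzz : z₀ ≤ z ∧ 2 ≤ z := by
    have := hp.z0
    simp only [max_le_iff] at this
    exact this
  have hzR : (0 : ℝ) < z := by exact_mod_cast (by omega : 0 < z)
  have hz1R : (1 : ℝ) ≤ z := by exact_mod_cast (by omega : 1 ≤ z)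
  have hlogz : Real.log z ≤ √L := by
    have := Real.log_le_log hzR hp.zle
    rwa [Real.log_exp] at this
  set R0 : ℕ := ⌊Real.exp (L ^ (1 / 3 : ℝ))⌋₊ with hR0
  -- the supply
  obtain ⟨P, lam, p1, p2, p4, p5⟩ := hz₀ z hzz.1 q r hq.pos (by
      have h2 : L ^ B ≤ L ^ (B + 1) := pow_le_pow_right₀ hL1 (by omega)
      exact (hqB.trans h2).trans hp.qz) hr (by
      have h1 : Real.log z ^ 2 ≤ √L ^ 2 := pow_le_pow_left₀ (by linarith [hp.l0]) hlogz 2
      rw [Real.sq_sqrt hL0.le] at h1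
      linarith) (by
      intro h
      exact hrq ((Nat.prime_dvd_prime_iff_eq hr hq).1 h))
  have hllam : Real.log lam ≤ L ^ (19 / 20 : ℝ) / 2 := by
    refine p4.trans ?_
    have h1 : Real.log z ^ (19 / 10 : ℝ) ≤ √L ^ (19 / 10 : ℝ) :=
      Real.rpow_le_rpow (by linarith [hp.l0]) hlogz (by norm_num)
    have h2 : √L ^ (19 / 10 : ℝ) = L ^ (19 / 20 : ℝ) := by
      rw [Real.sqrt_eq_rpow, ← Real.rpow_mul hL0.le]; norm_num
    rw [h2] at h1
    linarith
  refine ⟨lam, p2, hllam, fun A b E hA hAN hE => ?_⟩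
  -- the primes that do not divide `A`
  set P' := P.filter (fun t => ¬ t ∣ A) with hP'
  have hPsplit : (P.card : ℝ) = P'.card + ((P.filter (fun t => ¬ ¬ t ∣ A)).card : ℝ) := by
    exact_mod_cast (card_filter_add_card_filter_not (s := P) (fun t => ¬ t ∣ A)).symm
  have hrem : ((P.filter (fun t => ¬ ¬ t ∣ A)).card : ℝ) ≤ 2 * √L := by
    have h1 := card_large_factors (z := z) (T := P.filter (fun t => ¬ ¬ t ∣ A)) hA (by
      intro t ht
      rw [mem_filter, not_not] at ht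
      exact ⟨(p1 t ht.1).1, (p1 t ht.1).2.1, ht.2⟩)
    have h2 : ((z : ℝ)) ^ (P.filter (fun t => ¬ ¬ t ∣ A)).card ≤ N := by
      exact_mod_cast h1.trans hAN
    have h3 := Real.log_le_log (pow_pos hzR _) h2
    rw [Real.log_pow, ← hL] at h3
    have h4 : √L / 2 ≤ Real.log z := by linarith [hp.zge]
    have h5 : ((P.filter (fun t => ¬ ¬ t ∣ A)).card : ℝ) * (√L / 2) ≤ L :=
      (mul_le_mul_of_nonneg_left h4 (Nat.cast_nonneg _)).trans h3
    have h6 : ((P.filter (fun t => ¬ ¬ t ∣ A)).card : ℝ) * √L ≤ (2 * √L) * √L := by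
      calc ((P.filter (fun t => ¬ ¬ t ∣ A)).card : ℝ) * √L =
          2 * (((P.filter (fun t => ¬ ¬ t ∣ A)).card : ℝ) * (√L / 2)) := by ring
        _ ≤ 2 * L := by linarith
        _ = (2 * √L) * √L := by rw [mul_assoc, hsL]
    exact le_of_mul_le_mul_right h6 (by linarith)
  have hz12 : (z : ℝ) ^ (1 / 200 : ℝ) ≤ (z : ℝ) ^ (1 / 100 : ℝ) :=
    Real.rpow_le_rpow_of_exponent_le hz1R (by norm_num)
  have hP'c : (z : ℝ) ^ (1 / 100 : ℝ) / 2 ≤ (P'.card : ℝ) := by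
    have h1 := hp.jz
    linarith
  -- j and Q
  set j := ⌊√L / (2 * K)⌋₊ with hj
  have hjle : (j : ℝ) ≤ √L / (2 * K) := Nat.floor_le (by positivity)
  have hjge : √L / (2 * K) - 1 ≤ (j : ℝ) := by
    have := Nat.lt_floor_add_one (√L / (2 * K)); linarith
  have hjK : (j : ℝ) * (2 * K) ≤ √L := by
    rwa [le_div_iff₀ (by positivity)] at hjle
  have hj2L : 2 * (j : ℝ) ≤ √L := by
    have h0 : (0 : ℝ) ≤ j := Nat.cast_nonneg _
    nlinarith
  set Q := Nat.sqrt N with hQ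
  have hQ2 : Q ^ 2 ≤ N := by rw [sq]; exact Nat.sqrt_le N
  have hprod : ∀ D ∈ P'.powersetCard j, ∏ t ∈ D, t ≤ Q := by
    intro D hD
    rw [mem_powersetCard] at hD
    rw [hQ, Nat.le_sqrt, ← sq]
    have h1 : ∏ t ∈ D, t ≤ z ^ (K * j) := by
      calc ∏ t ∈ D, t ≤ ∏ t ∈ D, z ^ K :=
            prod_le_prod' fun t ht => (p1 t (mem_filter.1 (hD.1 ht)).1).2.2.1
        _ = z ^ (K * j) := by rw [prod_const, hD.2, pow_mul]
    have h2 : ((z ^ (K * j)) ^ 2 : ℕ) ≤ N := by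
      have h3 : (((z ^ (K * j)) ^ 2 : ℕ) : ℝ) ≤ N := by
        have hz' : 0 < z := by omega
        rw [← Real.log_le_log_iff (by positivity) hNR]
        push_cast
        rw [Real.log_pow, Real.log_pow, ← hL]
        push_cast
        calc (2 : ℝ) * (K * j * Real.log z) = (j * (2 * K)) * Real.log z := by ring
          _ ≤ √L * √L := mul_le_mul hjK hlogz (by linarith [hp.l0]) (Real.sqrt_nonneg _)
          _ = L := hsL
      exact_mod_cast h3
    exact (Nat.pow_le_pow_left h1 2).trans h2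
  have hjP : 2 * j ≤ P'.card := by
    have : ((2 * j : ℕ) : ℝ) ≤ P'.card := by
      push_cast
      have h1 := hp.jz
      linarith
    exact_mod_cast this
  -- the sieve
  have hsv := fib_sieve (q := q) (R := R0 ^ 2) (N := N) (Q := Q) (j := j) (lam := lam) (b := b) (A := A)
    (P := P') (E := E) hq p2 (fun t ht => by
      obtain ⟨a1, a2, a3, a4, a5, a6⟩ := p1 t (mem_filter.1 ht).1
      exact ⟨a1, a4, a5, hR1.trans a2.le⟩) hN1 hQ2 (fun t ht => (mem_filter.1 ht).2) hprod (by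
      intro β hβ
      obtain ⟨hb, x, m, p, C, hpp, hm0, hm, hpl, heq⟩ := hE β hβ
      refine ⟨hb, x, m * p, C, heq, ?_⟩
      intro t ht ρ hρ1 hρ2
      obtain ⟨a1, a2, a3, a4, a5, a6⟩ := p1 t (mem_filter.1 ht).1
      have hmR : m ≤ R0 := by
        rw [hR0]
        exact Nat.le_floor hm
      have hR01 : 1 ≤ R0 := by omega
      by_cases hpR : (p : ℝ) ≤ Real.exp (L ^ (1 / 3 : ℝ))
      · have hpR' : p ≤ R0 := by
          rw [hR0]
          exact Nat.le_floor hpR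
        calc ρ ≤ m * p := Nat.le_of_dvd (Nat.mul_pos hm0 hpp.pos) hρ2
          _ ≤ R0 * R0 := Nat.mul_le_mul hmR hpR'
          _ = R0 ^ 2 := (sq R0).symm
      · have hpt : ¬ p ∣ t - 1 := by
          intro hpt
          rcases hpl (hpt.trans a4) with h | h
          · rw [h] at hpt
            exact a6 hpt
          · exact hpR h
        have hcop : Nat.Coprime ρ p := by
          rw [Nat.coprime_comm, Nat.Prime.coprime_iff_not_dvd hpp]
          exact fun h => hpt (h.trans hρ1)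
        have h1 : ρ ∣ m := hcop.dvd_of_dvd_mul_right hρ2
        calc ρ ≤ m := Nat.le_of_dvd hm0 h1
          _ ≤ R0 := hmR
          _ ≤ R0 ^ 2 := Nat.le_self_pow two_ne_zero _)
  -- logarithms
  have hch := choose_lower' hjP
  have hlamR : (0 : ℝ) < lam := by exact_mod_cast p2
  have hden : Real.exp (Real.log z / 200 * j) ≤ (P'.card.choose j : ℝ) / 3 ^ j := by
    have h1 : Real.exp (Real.log z / 200 * j) = ((z : ℝ) ^ (1 / 200 : ℝ)) ^ j := by
      rw [Real.rpow_def_of_pos hzR, ← Real.exp_nat_mul]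
      congr 1; ring
    rw [h1, le_div_iff₀ (by positivity), ← mul_pow]
    refine le_trans ?_ hch
    rcases Nat.eq_zero_or_pos j with h0 | h0
    · rw [h0]; simp
    · apply pow_le_pow_left₀ (by positivity)
      have hj0 : (0 : ℝ) < j := by exact_mod_cast h0
      rw [le_div_iff₀ (by positivity)]
      calc (z : ℝ) ^ (1 / 200 : ℝ) * 3 * (2 * j) = (z : ℝ) ^ (1 / 200 : ℝ) * (6 * j) := by ring
        _ ≤ (z : ℝ) ^ (1 / 200 : ℝ) * ((z : ℝ) ^ (1 / 200 : ℝ) / 2) := by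
            apply mul_le_mul_of_nonneg_left _ (by positivity)
            have := hp.jz
            linarith
        _ = (z : ℝ) ^ (1 / 100 : ℝ) / 2 := by
            rw [← mul_div_assoc, ← Real.rpow_add hzR]; norm_num
        _ ≤ P'.card := hP'c
  have hlow : L / (400 * K) - √L ≤ Real.log z / 200 * j := by
    have a1 : (√L - 1) / 200 * (√L / (2 * K) - 1) ≤ Real.log z / 200 * j := by
      rcases le_total 0 (√L / (2 * K) - 1) with h0 | h0
      · apply mul_le_mul _ hjge h0 (by linarith [hp.l0])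
        have := hp.zge
        linarith
      · have h1 : 0 ≤ Real.log z / 200 * j := by
          have := hp.l0
          positivity
        have h2 : 0 ≤ (√L - 1) / 200 := by linarith
        nlinarith
    have a2 : (√L - 1) / 200 * (√L / (2 * K) - 1) =
        L / (400 * K) - (√L / 200 + √L / (400 * K) - 1 / 200) := by
      have hid : ∀ s Kr : ℝ, Kr ≠ 0 → (s - 1) / 200 * (s / (2 * Kr) - 1) =
          s * s / (400 * Kr) - (s / 200 + s / (400 * Kr) - 1 / 200) := by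
        intro s Kr hKr
        field_simp
        ring
      have h1 := hid (√L) K (by positivity)
      rwa [hsL] at h1
    have a3 : √L / (400 * K) ≤ √L / 400 := by
      apply div_le_div_of_nonneg_left (Real.sqrt_nonneg _) (by norm_num)
      linarith
    have a4 : 0 ≤ √L := Real.sqrt_nonneg _
    linarith
  have hE1 : (E.card : ℝ) * Real.exp (L / (400 * K) - √L) ≤ 3 * (lam : ℝ) ^ 2 * (12 * (N : ℝ)) := by
    refine le_trans ?_ hsv
    exact mul_le_mul_of_nonneg_left ((Real.exp_le_exp.2 hlow).trans hden) (Nat.cast_nonneg _)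
  have hlam2 : (lam : ℝ) ^ 2 ≤ Real.exp (L ^ (19 / 20 : ℝ)) := by
    rw [← Real.log_le_iff_le_exp (by positivity), Real.log_pow]
    push_cast
    linarith
  have hlogL : 1 ≤ Real.log L := by
    rw [Real.le_log_iff_exp_le hL0]
    have := Real.exp_one_lt_d9
    linarith
  have hfin := hp.fin
  have hlog3 : Real.log 3 ≤ 2 * Real.log 2 := by
    rw [show (2 : ℝ) * Real.log 2 = Real.log (2 ^ 2) by rw [Real.log_pow]; norm_num]
    exact Real.log_le_log (by norm_num) (by norm_num)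
  have hlog2 := Real.log_two_lt_d9
  have hpw : (1 : ℝ) ≤ L ^ (19 / 20 : ℝ) := Real.one_le_rpow hL1 (by norm_num)
  have hextra : 1 ≤ ((B + 1 : ℕ) : ℝ) * Real.log L * (2 * L ^ (19 / 20 : ℝ)) := by
    have b1 : (1 : ℝ) ≤ ((B + 1 : ℕ) : ℝ) := by push_cast; linarith [(Nat.cast_nonneg B : (0 : ℝ) ≤ B)]
    have b2 : (1 : ℝ) ≤ ((B + 1 : ℕ) : ℝ) * Real.log L := by nlinarith
    nlinarith
  have hgoal : (3 : ℝ) * (lam : ℝ) ^ 2 * (12 * (N : ℝ)) ≤
      (N : ℝ) ^ (1 - 1 / (500 * K) : ℝ) * Real.exp (L / (400 * K) - √L) := by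
    have c1 : (N : ℝ) ^ (1 - 1 / (500 * K) : ℝ) = Real.exp (L * (1 - 1 / (500 * K))) := by
      rw [hNexp, ← Real.exp_mul]
    rw [c1, ← Real.exp_add]
    have c2 : (3 : ℝ) * (lam : ℝ) ^ 2 * (12 * (N : ℝ)) ≤
        Real.exp (Real.log 3 + L ^ (19 / 20 : ℝ) + Real.log 12 + L) := by
      rw [Real.exp_add, Real.exp_add, Real.exp_add, Real.exp_log (by norm_num), Real.exp_log (by norm_num),
        ← hNexp]
      calc (3 : ℝ) * (lam : ℝ) ^ 2 * (12 * (N : ℝ)) ≤ 3 * Real.exp (L ^ (19 / 20 : ℝ)) * (12 * N) := by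
            gcongr
        _ = _ := by ring
    refine c2.trans (Real.exp_le_exp.2 ?_)
    have d1 : L * (1 - 1 / (500 * K)) = L - 1 / (500 * K) * L := by ring
    have d2 : (1 / (400 * K) - 1 / (500 * K)) * L = L / (400 * K) - 1 / (500 * K) * L := by ring
    rw [d1]
    rw [d2] at hfin
    push_cast at hfin hextra ⊢
    linarith
  exact le_of_mul_le_mul_right (hE1.trans hgoal) (Real.exp_pos _)

end Pool.Agent.Helper20K9.FC
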