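import Mathlib
import Pool.Agent.Helper20K9.Fib2
import Pool.Agent.Y353.PS.Min

/-!
The sieve for the bases `B` in an interval, the base `A` being small: all exponents.
-/

set_option autoImplicit false

namespace Pool.Agent.Helper20K9.FC

open Finset Filter Topology
open Pool.Agent.TH194.BL
open Pool.Agent.Y353.PS (q_le min_q)

theorem log_two_le_sq {K N : ℕ} (hL : 2 * (K : ℝ) + 1 ≤ Real.log N) :
    ((Nat.log 2 (N ^ K) + 1 : ℕ) : ℝ) ≤ Real.log N ^ 2 := by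
  have hK0 : (0 : ℝ) ≤ K := Nat.cast_nonneg _
  have hN0 : 0 < N := by
    rcases Nat.eq_zero_or_pos N with h | h
    · rw [h] at hL
      simp at hL
      linarith
    · exact h
  have h1 : ((Nat.log 2 (N ^ K) : ℕ) : ℝ) * Real.log 2 ≤ Real.log ((N ^ K : ℕ) : ℝ) := by
    rw [← Real.log_pow]
    apply Real.log_le_log (by positivity)
    have : 2 ^ Nat.log 2 (N ^ K) ≤ N ^ K := Nat.pow_log_le_self 2 (by positivity)
    exact_mod_cast this
  rw [Nat.cast_pow, Real.log_pow] at h1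
  have h2 : (1 : ℝ) / 2 ≤ Real.log 2 := by have := Real.log_two_gt_d9; linarith
  have h3 : ((Nat.log 2 (N ^ K) : ℕ) : ℝ) * (1 / 2) ≤ K * Real.log N :=
    le_trans (mul_le_mul_of_nonneg_left h2 (by positivity)) h1
  push_cast
  nlinarith

/-- the least prime factor of the exponent is small if one of the bases has a small prime factor -/
theorem q_small (K : ℕ) : ∃ B' N₀ : ℕ, ∀ N : ℕ, N₀ ≤ N → ∀ A B x y z C : ℕ, 2 ≤ A → 2 ≤ B →
    A ≤ N ^ K → B ≤ N ^ K → Nat.Coprime A B → 0 < x → 0 < y → 2 ≤ z → 2 ≤ C → Eq3 A B C x y z →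
    (∃ l : ℕ, l.Prime ∧ (l : ℝ) ≤ Real.log N ^ K ∧ l ∣ A * B) →
    ∃ q : ℕ, q.Prime ∧ q ∣ z ∧ (q : ℝ) ≤ Real.log N ^ B' := by
  have v2 : ∀ᶠ N : ℕ in atTop, 49 * 10 ^ 18 + 2 * (K : ℝ) + 1 ≤ Real.log N :=
    (Real.tendsto_log_atTop.comp tendsto_natCast_atTop_atTop).eventually_ge_atTop _
  obtain ⟨N₂, hN₂⟩ := eventually_atTop.1 v2
  refine ⟨4 * K + 9, N₂, fun N hN A B x y z C hA hB hAN hBN hco hx hy hz hC heq hl => ?_⟩
  have w1 := hN₂ N hN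
  set L := Real.log (N : ℝ) with hL
  have hK0 : (0 : ℝ) ≤ K := Nat.cast_nonneg _
  have hL1 : 1 ≤ L := by linarith
  have hL49 : 49 * 10 ^ 18 ≤ L := by linarith
  obtain ⟨l, hlp, hlL, hlAB⟩ := hl
  set q := z.minFac with hq
  have hqp : q.Prime := Nat.minFac_prime (by omega)
  refine ⟨q, hqp, Nat.minFac_dvd z, ?_⟩
  rcases Nat.lt_or_ge q 3 with hq3 | hq3
  · have h1 : (q : ℝ) ≤ 2 := by exact_mod_cast (by omega : q ≤ 2)
    calc (q : ℝ) ≤ 2 := h1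
      _ ≤ L := by linarith
      _ = L ^ 1 := (pow_one L).symm
      _ ≤ L ^ (4 * K + 9) := pow_le_pow_right₀ hL1 (by omega)
  have hU : C ^ z = (C ^ (z / q)) ^ q := by
    rw [← pow_mul, Nat.div_mul_cancel (Nat.minFac_dvd z)]
  have hd : 0 < z / q := Nat.div_pos (Nat.minFac_le (by omega)) (Nat.minFac_pos z)
  set U := C ^ (z / q) with hUd
  have hU2 : 2 ≤ U := hC.trans (Nat.le_self_pow hd.ne' C)
  have heq' : Eq3 A B U x y q := by
    unfold Eq3 at heq ⊢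
    rw [← hU]
    exact heq
  set P : ℕ := ⌊L ^ K⌋₊ with hP
  have hlP : l ≤ P := Nat.le_floor hlL
  have hPR : (P : ℝ) ≤ L ^ K := Nat.floor_le (by positivity)
  have hbound : q ≤ 10 ^ 9 * P ^ 2 * (Nat.log 2 q + 1) ^ 2 * (Nat.log 2 (N ^ K) + 1) ^ 2 := by
    have hlog2 : ∀ {A U q x : ℕ} (hA : 2 ≤ A) (hU : 2 ≤ U) (hq : q.Prime)
        (hqx : ¬ q ∣ x) (hx : 0 < x) (h : |(U : ℝ) ^ q - (A : ℝ) ^ x| ≤ (A : ℝ) ^ ((x : ℝ) / 2)),
        q ≤ 10 ^ 9 * (Nat.log 2 A + 1) * (Nat.log 2 q + 1) ^ 2 :=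
      fun h1 h2 h3 h4 h5 h6 => Pool.Agent.H374R2.W.real_two_logs h1 h2 h3 h4 h5 h6
    rcases (Nat.Prime.dvd_mul hlp).1 hlAB with hlA | hlB
    · -- `l` divides `A`: the roles are exchanged
      rcases heq' with h | h | h
      · have h' : (A : ℤ) ^ x + (B : ℤ) ^ y = (U : ℤ) ^ q := by exact_mod_cast h
        exact Pool.Agent.Y353.PS.q_bound hlog2 (s := 1) (σ := 1) (Or.inl rfl) (Or.inl rfl) hqp hq3
          (by omega) hBN hco.symm (by omega) hAN hy (by omega) hx hU2 hlp hlP hlA (by rw [← h']; ring)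
      · have h' : (A : ℤ) ^ x + (U : ℤ) ^ q = (B : ℤ) ^ y := by exact_mod_cast h
        exact Pool.Agent.Y353.PS.q_bound hlog2 (s := 1) (σ := -1) (Or.inl rfl) (Or.inr rfl) hqp hq3
          (by omega) hBN hco.symm (by omega) hAN hy (by omega) hx hU2 hlp hlP hlA (by rw [← h']; ring)
      · have h' : (B : ℤ) ^ y + (U : ℤ) ^ q = (A : ℤ) ^ x := by exact_mod_cast h
        exact Pool.Agent.Y353.PS.q_bound hlog2 (s := -1) (σ := 1) (Or.inr rfl) (Or.inl rfl) hqp hq3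
          (by omega) hBN hco.symm (by omega) hAN hy (by omega) hx hU2 hlp hlP hlA (by rw [← h']; ring)
    · rcases heq' with h | h | h
      · have h' : (A : ℤ) ^ x + (B : ℤ) ^ y = (U : ℤ) ^ q := by exact_mod_cast h
        exact Pool.Agent.Y353.PS.q_bound hlog2 (s := 1) (σ := 1) (Or.inl rfl) (Or.inl rfl) hqp hq3
          (by omega) hAN hco (by omega) hBN hx (by omega) hy hU2 hlp hlP hlB (by rw [← h']; ring)
      · have h' : (A : ℤ) ^ x + (U : ℤ) ^ q = (B : ℤ) ^ y := by exact_mod_cast h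
        exact Pool.Agent.Y353.PS.q_bound hlog2 (s := -1) (σ := 1) (Or.inr rfl) (Or.inl rfl) hqp hq3
          (by omega) hAN hco (by omega) hBN hx (by omega) hy hU2 hlp hlP hlB (by rw [← h']; ring)
      · have h' : (B : ℤ) ^ y + (U : ℤ) ^ q = (A : ℤ) ^ x := by exact_mod_cast h
        exact Pool.Agent.Y353.PS.q_bound hlog2 (s := 1) (σ := -1) (Or.inl rfl) (Or.inr rfl) hqp hq3
          (by omega) hAN hco (by omega) hBN hx (by omega) hy hU2 hlp hlP hlB (by rw [← h']; ring)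
  have h1 : q ≤ 49 * (10 ^ 9 * P ^ 2 * (Nat.log 2 (N ^ K) + 1) ^ 2) ^ 2 := by
    apply q_le hqp.pos
    calc q ≤ _ := hbound
      _ = _ := by ring
  have h2 : ((Nat.log 2 (N ^ K) + 1 : ℕ) : ℝ) ≤ L ^ 2 := log_two_le_sq (by rw [← hL]; linarith)
  have h3 : (q : ℝ) ≤ 49 * (10 ^ 9 * (P : ℝ) ^ 2 * ((Nat.log 2 (N ^ K) + 1 : ℕ) : ℝ) ^ 2) ^ 2 := by
    exact_mod_cast h1
  have hP0 : (0 : ℝ) ≤ P := Nat.cast_nonneg _
  calc (q : ℝ) ≤ 49 * (10 ^ 9 * (P : ℝ) ^ 2 * ((Nat.log 2 (N ^ K) + 1 : ℕ) : ℝ) ^ 2) ^ 2 := h3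
    _ ≤ 49 * (10 ^ 9 * (L ^ K) ^ 2 * (L ^ 2) ^ 2) ^ 2 := by gcongr
    _ = (49 * 10 ^ 18) * L ^ (4 * K + 8) := by ring
    _ ≤ L * L ^ (4 * K + 8) := by gcongr
    _ = L ^ (4 * K + 9) := by ring

/-- one prime exponent `q`, all exponents `m p` with a prime `p` and a small number `m` -/
theorem fib_q : ∃ K : ℕ, 1 ≤ K ∧ ∀ B : ℕ, ∃ N₀ : ℕ, ∀ N : ℕ, N₀ ≤ N → ∀ q : ℕ, q.Prime →
    (q : ℝ) ≤ Real.log N ^ B → ∀ (A b : ℕ) (E : Finset ℕ), 0 < A → A ≤ N →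
    (∀ β ∈ E, (b < β ∧ β ≤ b + N) ∧ ∃ x m p C : ℕ, p.Prime ∧ 0 < m ∧
      (m : ℝ) ≤ Real.exp (Real.log N ^ (1 / 3 : ℝ)) ∧ Eq3 A β C x (m * p) q) →
    (E.card : ℝ) ≤ 2 * Real.log N * (N : ℝ) ^ (1 - 1 / (500 * K) : ℝ) := by
  classical
  obtain ⟨K, hK, hcore⟩ := fib_core
  refine ⟨K, hK, fun B => ?_⟩
  obtain ⟨N₁, h₁⟩ := hcore B
  have hev := (Real.tendsto_log_atTop.comp tendsto_natCast_atTop_atTop).eventually
    (eventually_ge_atTop (4 : ℝ))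
  have hev2 : ∀ᶠ L : ℝ in atTop, L ^ B ≤ Real.exp (L ^ (1 / 3 : ℝ)) := by
    have h1 : ∀ᶠ u : ℝ in atTop, u ^ (3 * B) ≤ Real.exp u := by
      have h := (Real.tendsto_exp_div_pow_atTop (3 * B)).eventually_ge_atTop 1
      filter_upwards [h, eventually_gt_atTop 0] with u hu hu0
      rw [le_div_iff₀ (by positivity), one_mul] at hu
      exact hu
    have h2 := (tendsto_rpow_atTop (show (0 : ℝ) < 1 / 3 by norm_num)).eventually h1
    filter_upwards [h2, eventually_gt_atTop 0] with L hL hL0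
    refine le_trans (le_of_eq ?_) hL
    rw [← Real.rpow_natCast, ← Real.rpow_natCast, ← Real.rpow_mul hL0.le]
    congr 1
    push_cast
    ring
  have hev3 := (Real.tendsto_log_atTop.comp tendsto_natCast_atTop_atTop).eventually hev2
  obtain ⟨N₂, hN₂⟩ := eventually_atTop.1 (hev.and hev3)
  refine ⟨max N₁ (max N₂ 1), fun N hN q hq hqB A b E hA hAN hE => ?_⟩
  simp only [max_le_iff] at hN
  obtain ⟨g1, g2, g3⟩ := hN
  obtain ⟨hL4, hLB⟩ := hN₂ N g2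
  simp only [Function.comp] at hL4 hLB
  set L := Real.log (N : ℝ) with hL
  have hL0 : 0 < L := by linarith
  set X := Real.exp (L ^ (1 / 3 : ℝ)) with hX
  have hqX : (q : ℝ) ≤ X := hqB.trans hLB
  -- a prime that does not matter
  obtain ⟨r₀, hr₀, hr₀p⟩ := Nat.exists_infinite_primes (⌊X⌋₊ + 1)
  have hr₀X : X < r₀ := by
    have h1 := Nat.lt_floor_add_one X
    have h2 : ((⌊X⌋₊ + 1 : ℕ) : ℝ) ≤ r₀ := by exact_mod_cast hr₀
    push_cast at h2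
    linarith
  have hne₀ : r₀ ≠ q := by
    rintro rfl
    linarith
  obtain ⟨lam, hlam0, hlam, hcount⟩ := h₁ N g1 q r₀ hq hqB hr₀p hr₀X hne₀
  -- the prime factors of `lam`
  set F : Finset ℕ := lam.primeFactors.filter (fun p : ℕ => X < (p : ℝ)) with hF
  set S : ℕ → ℕ → Prop := fun β p => ∃ x m C : ℕ, 0 < m ∧ (m : ℝ) ≤ X ∧ Eq3 A β C x (m * p) q with hS
  set E₀ := E.filter (fun β => ∃ p : ℕ, p.Prime ∧ (p ∣ lam → (p : ℝ) ≤ X) ∧ S β p) with hE₀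
  set E₁ : ℕ → Finset ℕ := fun p => E.filter (fun β => S β p) with hE₁
  have hcov : E ⊆ E₀ ∪ F.biUnion E₁ := by
    intro β hβ
    obtain ⟨hb, x, m, p, C, hp, hm0, hm, heq⟩ := hE β hβ
    rw [mem_union]
    by_cases h : p ∣ lam → (p : ℝ) ≤ X
    · left
      rw [hE₀, mem_filter]
      exact ⟨hβ, p, hp, h, x, m, C, hm0, hm, heq⟩
    · right
      push Not at h
      rw [mem_biUnion]
      refine ⟨p, ?_, ?_⟩
      · rw [hF, mem_filter]
        exact ⟨Nat.mem_primeFactors.2 ⟨hp, h.1, hlam0.ne'⟩, h.2⟩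
      · rw [hE₁]
        simp only
        rw [mem_filter]
        exact ⟨hβ, x, m, C, hm0, hm, heq⟩
  have k0 : (E₀.card : ℝ) ≤ (N : ℝ) ^ (1 - 1 / (500 * K) : ℝ) := by
    apply hcount A b E₀ hA hAN
    intro β hβ
    rw [hE₀, mem_filter] at hβ
    obtain ⟨hβE, p, hp, hpl, x, m, C, hm0, hm, heq⟩ := hβ
    exact ⟨(hE β hβE).1, x, m, p, C, hp, hm0, hm, fun h => Or.inr (hpl h), heq⟩
  have k1 : ∀ p ∈ F, ((E₁ p).card : ℝ) ≤ (N : ℝ) ^ (1 - 1 / (500 * K) : ℝ) := by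
    intro p hp
    rw [hF, mem_filter] at hp
    obtain ⟨hp1, hp2⟩ := hp
    have hpp := Nat.prime_of_mem_primeFactors hp1
    have hne : p ≠ q := by
      rintro rfl
      linarith
    obtain ⟨lam', hlam0', hlam', hcount'⟩ := h₁ N g1 q p hq hqB hpp hp2 hne
    apply hcount' A b (E₁ p) hA hAN
    intro β hβ
    rw [hE₁] at hβ
    simp only at hβ
    rw [mem_filter] at hβ
    obtain ⟨hβE, x, m, C, hm0, hm, heq⟩ := hβ
    exact ⟨(hE β hβE).1, x, m, p, C, hpp, hm0, hm, fun _ => Or.inl rfl, heq⟩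
  have hFc : (F.card : ℝ) ≤ L := by
    have h1 : (F.card : ℝ) ≤ lam.primeFactors.card := by exact_mod_cast card_filter_le _ _
    have h2 := card_primeFactors_le2 hlam0
    have h3 : Real.log lam / Real.log 2 ≤ L := by
      have hl2 : (1 : ℝ) / 2 ≤ Real.log 2 := by have := Real.log_two_gt_d9; linarith
      rw [div_le_iff₀ (by linarith)]
      have h4 : L ^ (19 / 20 : ℝ) ≤ L := by
        calc L ^ (19 / 20 : ℝ) ≤ L ^ (1 : ℝ) :=
              Real.rpow_le_rpow_of_exponent_le (by linarith) (by norm_num)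
          _ = L := Real.rpow_one L
      have h5 : L * (1 / 2) ≤ L * Real.log 2 := mul_le_mul_of_nonneg_left hl2 hL0.le
      linarith
    linarith
  have hcard : (E.card : ℝ) ≤ (E₀.card : ℝ) + ∑ p ∈ F, ((E₁ p).card : ℝ) := by
    have h1 : E.card ≤ E₀.card + ∑ p ∈ F, (E₁ p).card :=
      (card_le_card hcov).trans ((card_union_le _ _).trans (Nat.add_le_add_left card_biUnion_le _))
    exact_mod_cast h1
  have hpos : (0 : ℝ) ≤ (N : ℝ) ^ (1 - 1 / (500 * K) : ℝ) := by positivity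
  calc (E.card : ℝ) ≤ (E₀.card : ℝ) + ∑ p ∈ F, ((E₁ p).card : ℝ) := hcard
    _ ≤ (N : ℝ) ^ (1 - 1 / (500 * K) : ℝ) + ∑ p ∈ F, (N : ℝ) ^ (1 - 1 / (500 * K) : ℝ) :=
        add_le_add k0 (sum_le_sum k1)
    _ = (1 + F.card) * (N : ℝ) ^ (1 - 1 / (500 * K) : ℝ) := by
        rw [sum_const, nsmul_eq_mul]; ring
    _ ≤ (2 * L) * (N : ℝ) ^ (1 - 1 / (500 * K) : ℝ) := by
        apply mul_le_mul_of_nonneg_right _ hpos
        linarith

/-- the bases `B` in `(b, b + N]` for which there is a solution with a small base `A` -/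
def FibSet (δ : ℝ) (K N b : ℕ) : Set ℕ :=
  {B | (b < B ∧ B ≤ b + N) ∧ ∃ A x y z C : ℕ, 2 ≤ A ∧ (A : ℝ) ≤ (N : ℝ) ^ δ ∧ Nat.Coprime A B ∧ 0 < x ∧
    (∃ m p : ℕ, y = m * p ∧ p.Prime ∧ 0 < m ∧ (m : ℝ) ≤ Real.exp (Real.log N ^ (1 / 3 : ℝ))) ∧
    2 ≤ z ∧ 0 < C ∧
    (A ^ x + B ^ y = C ^ z ∨ A ^ x + C ^ z = B ^ y ∨ B ^ y + C ^ z = A ^ x) ∧
    ((∃ l : ℕ, l.Prime ∧ (l : ℝ) ≤ Real.log N ^ K ∧ l ∣ A * B) ∨
      ((min x y : ℕ) : ℝ) ≤ Real.exp (Real.log N ^ K))}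

theorem fib_main : ∃ δ : ℝ, 0 < δ ∧ ∀ K : ℕ, ∃ N₀ : ℕ, ∀ N : ℕ, N₀ ≤ N → ∀ b : ℕ, b ≤ N ^ K →
    ((FibSet δ K N b).ncard : ℝ) ≤ (N : ℝ) ^ (1 - δ) := by
  classical
  obtain ⟨Q, hQ, hfib⟩ := fib_q
  have hQR : (1 : ℝ) ≤ Q := by exact_mod_cast hQ
  obtain ⟨δ, hδ⟩ : ∃ δ : ℝ, δ = 1 / (1200 * Q) := ⟨_, rfl⟩
  have hδ0 : 0 < δ := by rw [hδ]; positivity
  have hδ1 : δ ≤ 1 := by
    rw [hδ, div_le_iff₀ (by positivity)]
    linarith
  refine ⟨δ, hδ0, fun K => ?_⟩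
  obtain ⟨B₁, N₁, h₁⟩ := q_small (K + 2)
  obtain ⟨B₂, N₂, h₂⟩ := min_q (K + 2) K
  obtain ⟨BB, hBB⟩ : ∃ BB : ℕ, BB = max (max B₁ B₂) 1 := ⟨_, rfl⟩
  obtain ⟨N₃, h₃⟩ := hfib BB
  -- the last inequality
  have v1 : ∀ᶠ N : ℕ in atTop, 4 * (Real.log N) ^ (BB + 1) + 2 ≤ (N : ℝ) ^ (1 / (3000 * Q) : ℝ) := by
    have h := ((isLittleO_log_rpow_rpow_atTop (s := 1 / (3000 * Q)) ((BB + 2 : ℕ) : ℝ)
      (by positivity)).bound (show (0 : ℝ) < 1 by norm_num))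
    filter_upwards [tendsto_natCast_atTop_atTop.eventually h,
      (Real.tendsto_log_atTop.comp tendsto_natCast_atTop_atTop).eventually_ge_atTop 6] with z hz hz6
    simp only [Function.comp] at hz6
    rw [one_mul, Real.norm_of_nonneg (Real.rpow_nonneg (Nat.cast_nonneg z) _)] at hz
    refine le_trans ?_ hz
    refine le_trans ?_ (Real.le_norm_self _)
    rw [Real.rpow_natCast]
    have h1 : (1 : ℝ) ≤ Real.log z ^ (BB + 1) := one_le_pow₀ (by linarith)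
    calc 4 * Real.log z ^ (BB + 1) + 2 ≤ 6 * Real.log z ^ (BB + 1) := by linarith
      _ ≤ Real.log z * Real.log z ^ (BB + 1) := by gcongr
      _ = Real.log z ^ (BB + 2) := by ring
  have v2 : ∀ᶠ N : ℕ in atTop, 2 ≤ Real.log N :=
    (Real.tendsto_log_atTop.comp tendsto_natCast_atTop_atTop).eventually_ge_atTop _
  obtain ⟨N₄, hN₄⟩ := eventually_atTop.1 (v1.and v2)
  refine ⟨max (max N₁ N₂) (max (max N₃ N₄) 2), fun N hN b hb => ?_⟩
  simp only [max_le_iff] at hN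
  obtain ⟨⟨g1, g2⟩, ⟨g3, g4⟩, g5⟩ := hN
  obtain ⟨w1, w2⟩ := hN₄ N g4
  have hNR : (0 : ℝ) < N := by exact_mod_cast (by omega : 0 < N)
  have hN1R : (1 : ℝ) ≤ N := by exact_mod_cast (by omega : 1 ≤ N)
  set L := Real.log (N : ℝ) with hL
  have hL1 : 1 ≤ L := by linarith
  have hL0 : 0 < L := by linarith
  have hbN : b + N ≤ N ^ (K + 2) := by
    have e1 : N ^ K ≤ N ^ (K + 1) := Nat.pow_le_pow_right (by omega) (by omega)
    have e2 : N ^ 1 ≤ N ^ (K + 1) := Nat.pow_le_pow_right (by omega) (by omega)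
    have e3 : N ^ (K + 2) = N ^ (K + 1) * N := pow_succ _ _
    rw [pow_one] at e2
    have e4 : N ^ (K + 1) * 2 ≤ N ^ (K + 1) * N := Nat.mul_le_mul_left _ g5
    omega
  have hNδ : (N : ℝ) ^ δ ≤ N := by
    calc (N : ℝ) ^ δ ≤ (N : ℝ) ^ (1 : ℝ) := Real.rpow_le_rpow_of_exponent_le hN1R hδ1
      _ = N := Real.rpow_one _
  have hLB : ∀ B' : ℕ, B' ≤ BB → L ^ B' ≤ L ^ BB := fun B' hB' => pow_le_pow_right₀ hL1 hB'
  have b1 : B₁ ≤ BB := by rw [hBB]; exact (le_max_left _ _).trans (le_max_left _ _)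
  have b2 : B₂ ≤ BB := by rw [hBB]; exact (le_max_right _ _).trans (le_max_left _ _)
  have b3 : 1 ≤ BB := by rw [hBB]; exact le_max_right _ _
  have h2LB : (2 : ℝ) ≤ L ^ BB := by
    calc (2 : ℝ) ≤ L := w2
      _ = L ^ 1 := (pow_one L).symm
      _ ≤ L ^ BB := pow_le_pow_right₀ hL1 b3
  -- the index sets
  set IA := Icc 2 ⌊(N : ℝ) ^ δ⌋₊ with hIA
  set IQ := (Icc 1 ⌊L ^ BB⌋₊).filter (fun q => q.Prime) with hIQ
  set EE : ℕ × ℕ → Finset ℕ := fun i => (Ioc b (b + N)).filter (fun β => ∃ x m p C : ℕ, p.Prime ∧ 0 < m ∧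
      (m : ℝ) ≤ Real.exp (L ^ (1 / 3 : ℝ)) ∧ Eq3 i.1 β C x (m * p) i.2) with hEE
  have hsub : FibSet δ K N b ⊆ (({1} ∪ (IA ×ˢ IQ).biUnion EE : Finset ℕ) : Set ℕ) := by
    rintro B ⟨hB, A, x, y, z, C, hA2, hAδ, hco, hx, ⟨m, p, hy, hp, hm0, hm⟩, hz, hC, heq, hor⟩
    have hAN : A ≤ N := by exact_mod_cast hAδ.trans hNδ
    have hAN2 : A ≤ N ^ (K + 2) := by
      calc A ≤ N := hAN
        _ = N ^ 1 := (pow_one N).symm
        _ ≤ N ^ (K + 2) := Nat.pow_le_pow_right (by omega) (by omega)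
    have hBN2 : B ≤ N ^ (K + 2) := hB.2.trans hbN
    rw [mem_coe, mem_union, mem_singleton]
    rcases Nat.lt_or_ge B 2 with hB1 | hB2
    · left
      omega
    right
    have hy0 : 0 < y := by rw [hy]; exact Nat.mul_pos hm0 hp.pos
    -- a small exponent
    obtain ⟨q, C', hq, hqL, heq'⟩ : ∃ q C' : ℕ, q.Prime ∧ (q : ℝ) ≤ L ^ BB ∧ Eq3 A B C' x y q := by
      rcases Nat.lt_or_ge C 2 with hC1 | hC2
      · have hC1' : C = 1 := by omega
        refine ⟨2, 1, Nat.prime_two, by push_cast; exact h2LB, ?_⟩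
        unfold Eq3
        rw [hC1', one_pow] at heq
        rw [one_pow]
        exact heq
      · have hdv : ∀ q : ℕ, q ∣ z → Eq3 A B (C ^ (z / q)) x y q := by
          intro q hqz
          have hU : C ^ z = (C ^ (z / q)) ^ q := by
            rw [← pow_mul, Nat.div_mul_cancel hqz]
          unfold Eq3
          rw [← hU]
          exact heq
        by_cases hsm : ∃ l : ℕ, l.Prime ∧ (l : ℝ) ≤ L ^ (K + 2) ∧ l ∣ A * B
        · obtain ⟨q, hq, hqz, hqL⟩ := h₁ N g1 A B x y z C hA2 hB2 hAN2 hBN2 hco hx hy0 hz hC2 heq hsm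
          exact ⟨q, C ^ (z / q), hq, hqL.trans (hLB _ b1), hdv q hqz⟩
        · have h2L : (2 : ℝ) ≤ L ^ (K + 2) := by
            calc (2 : ℝ) ≤ L := w2
              _ = L ^ 1 := (pow_one L).symm
              _ ≤ L ^ (K + 2) := pow_le_pow_right₀ hL1 (by omega)
          have hA2' : ¬ 2 ∣ A := fun h => hsm ⟨2, Nat.prime_two, by push_cast; exact h2L, h.mul_right _⟩
          have hB2' : ¬ 2 ∣ B := fun h => hsm ⟨2, Nat.prime_two, by push_cast; exact h2L, h.mul_left _⟩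
          have hmn : ((min x y : ℕ) : ℝ) ≤ Real.exp (L ^ K) := by
            rcases hor with h | h
            · exfalso
              obtain ⟨l, hl1, hl2, hl3⟩ := h
              exact hsm ⟨l, hl1, hl2.trans (pow_le_pow_right₀ hL1 (by omega)), hl3⟩
            · exact h
          rcases Nat.le_total x y with hxy | hxy
          · rw [min_eq_left hxy] at hmn
            obtain ⟨q, hq, hqz, hqL⟩ := h₂ N g2 A B x y z C hA2 hB2 hAN2 hBN2 hco hA2' hB2' hx hy0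
              hz hC2 heq hmn
            exact ⟨q, C ^ (z / q), hq, hqL.trans (hLB _ b2), hdv q hqz⟩
          · rw [min_eq_right hxy] at hmn
            obtain ⟨q, hq, hqz, hqL⟩ := h₂ N g2 B A y x z C hB2 hA2 hBN2 hAN2 hco.symm hB2' hA2'
              hy0 hx hz hC2 (by
                rcases heq with h | h | h
                · left; rw [add_comm]; exact h
                · right; right; exact h
                · right; left; exact h) hmn
            exact ⟨q, C ^ (z / q), hq, hqL.trans (hLB _ b2), hdv q hqz⟩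
    rw [mem_biUnion]
    refine ⟨(A, q), ?_, ?_⟩
    · rw [mem_product, hIA, hIQ, mem_Icc, mem_filter, mem_Icc]
      exact ⟨⟨hA2, Nat.le_floor hAδ⟩, ⟨hq.one_lt.le, Nat.le_floor hqL⟩, hq⟩
    · rw [hEE]
      simp only
      rw [mem_filter, mem_Ioc]
      exact ⟨hB, x, m, p, C', hp, hm0, hm, by rw [← hy]; exact heq'⟩
  have hone : ∀ i ∈ IA ×ˢ IQ, ((EE i).card : ℝ) ≤ 2 * L * (N : ℝ) ^ (1 - 1 / (500 * Q) : ℝ) := by
    rintro ⟨A, q⟩ hi
    rw [mem_product, hIA, hIQ, mem_Icc, mem_filter, mem_Icc] at hi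
    obtain ⟨⟨hA2, hAδ⟩, ⟨hq1, hqL⟩, hq⟩ := hi
    simp only at hA2 hAδ hq1 hqL hq
    have hAN : A ≤ N := by
      have h1 : ((A : ℕ) : ℝ) ≤ N := by
        calc (A : ℝ) ≤ ((⌊(N : ℝ) ^ δ⌋₊ : ℕ) : ℝ) := by exact_mod_cast hAδ
          _ ≤ (N : ℝ) ^ δ := Nat.floor_le (by positivity)
          _ ≤ N := hNδ
      exact_mod_cast h1
    have hqL' : (q : ℝ) ≤ L ^ BB := by
      calc (q : ℝ) ≤ ((⌊L ^ BB⌋₊ : ℕ) : ℝ) := by exact_mod_cast hqL
        _ ≤ L ^ BB := Nat.floor_le (by positivity)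
    apply h₃ N g3 q hq hqL' A b (EE (A, q)) (by omega) hAN
    intro β hβ
    rw [hEE] at hβ
    simp only at hβ
    rw [mem_filter, mem_Ioc] at hβ
    exact hβ
  have hcardI : (((IA ×ˢ IQ).card : ℕ) : ℝ) ≤ (N : ℝ) ^ δ * L ^ BB := by
    rw [card_product]
    push_cast
    have e1 : (IA.card : ℝ) ≤ (N : ℝ) ^ δ := by
      have h1 : IA.card ≤ ⌊(N : ℝ) ^ δ⌋₊ := by
        rw [hIA, Nat.card_Icc]; omega
      calc (IA.card : ℝ) ≤ ((⌊(N : ℝ) ^ δ⌋₊ : ℕ) : ℝ) := by exact_mod_cast h1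
        _ ≤ (N : ℝ) ^ δ := Nat.floor_le (by positivity)
    have e2 : (IQ.card : ℝ) ≤ L ^ BB := by
      have h1 : IQ.card ≤ ⌊L ^ BB⌋₊ := by
        refine (card_filter_le _ _).trans ?_
        rw [Nat.card_Icc]; omega
      calc (IQ.card : ℝ) ≤ ((⌊L ^ BB⌋₊ : ℕ) : ℝ) := by exact_mod_cast h1
        _ ≤ L ^ BB := Nat.floor_le (by positivity)
    gcongr
  have hncard : ((FibSet δ K N b).ncard : ℝ) ≤ 1 + ∑ i ∈ IA ×ˢ IQ, ((EE i).card : ℝ) := by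
    have h1 : (FibSet δ K N b).ncard ≤ 1 + ∑ i ∈ IA ×ˢ IQ, (EE i).card := by
      refine (Set.ncard_le_ncard hsub (finite_toSet _)).trans ?_
      rw [Set.ncard_coe_finset]
      refine (card_union_le _ _).trans ?_
      rw [card_singleton]
      exact Nat.add_le_add_left card_biUnion_le _
    exact_mod_cast h1
  have hsum : ∑ i ∈ IA ×ˢ IQ, ((EE i).card : ℝ) ≤
      ((N : ℝ) ^ δ * L ^ BB) * (2 * L * (N : ℝ) ^ (1 - 1 / (500 * Q) : ℝ)) := by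
    calc ∑ i ∈ IA ×ˢ IQ, ((EE i).card : ℝ) ≤
        ∑ i ∈ IA ×ˢ IQ, 2 * L * (N : ℝ) ^ (1 - 1 / (500 * Q) : ℝ) := sum_le_sum hone
      _ = (((IA ×ˢ IQ).card : ℕ) : ℝ) * (2 * L * (N : ℝ) ^ (1 - 1 / (500 * Q) : ℝ)) := by
          rw [sum_const, nsmul_eq_mul]
      _ ≤ _ := mul_le_mul_of_nonneg_right hcardI (by positivity)
  have hfin : (1 : ℝ) + ((N : ℝ) ^ δ * L ^ BB) * (2 * L * (N : ℝ) ^ (1 - 1 / (500 * Q) : ℝ)) ≤
      (N : ℝ) ^ (1 - δ) := by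
    have e1 : (N : ℝ) ^ δ * (N : ℝ) ^ (1 - 1 / (500 * Q) : ℝ) = (N : ℝ) ^ (1 - δ - 1 / (3000 * Q) : ℝ) := by
      rw [← Real.rpow_add hNR, hδ]
      congr 1
      field_simp
      ring
    have e2 : (N : ℝ) ^ (1 - δ) = (N : ℝ) ^ (1 / (3000 * Q) : ℝ) * (N : ℝ) ^ (1 - δ - 1 / (3000 * Q) : ℝ) := by
      rw [← Real.rpow_add hNR]
      congr 1
      ring
    have e3 : (1 : ℝ) ≤ (N : ℝ) ^ (1 - δ - 1 / (3000 * Q) : ℝ) := by
      apply Real.one_le_rpow hN1R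
      rw [hδ]
      have h1 : 1 / (1200 * (Q : ℝ)) ≤ 1 / 1200 := by
        apply one_div_le_one_div_of_le (by norm_num)
        linarith
      have h2 : 1 / (3000 * (Q : ℝ)) ≤ 1 / 3000 := by
        apply one_div_le_one_div_of_le (by norm_num)
        linarith
      linarith
    set M := (N : ℝ) ^ (1 - δ - 1 / (3000 * Q) : ℝ) with hM
    have e4 : ((N : ℝ) ^ δ * L ^ BB) * (2 * L * (N : ℝ) ^ (1 - 1 / (500 * Q) : ℝ)) =
        2 * L ^ (BB + 1) * M := by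
      rw [← e1]; ring
    rw [e4, e2]
    have e5 : (0 : ℝ) ≤ L ^ (BB + 1) := by positivity
    calc 1 + 2 * L ^ (BB + 1) * M ≤ 1 * M + 2 * L ^ (BB + 1) * M := by linarith
      _ = (1 + 2 * L ^ (BB + 1)) * M := by ring
      _ ≤ (N : ℝ) ^ (1 / (3000 * Q) : ℝ) * M := by
          apply mul_le_mul_of_nonneg_right _ (by linarith)
          linarith
  linarith

end Pool.Agent.Helper20K9.FC
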