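import Mathlib
import Pool.Agent.Y902.FB.ExR

/-!
Solutions of `x ^ p + y ^ q = z ^ r` whose bases are near each other.
-/

set_option autoImplicit false

namespace Pool.Agent.Helper20K9.FC

open Finset

/-- the three bases are at most `M`, at least `M / (1 + 1 / (log M) ^ κ)`, `M` the largest of them -/
def Near (κ : ℕ) (x y z : ℕ) : Prop :=
  ((max x (max y z) : ℕ) : ℝ) ≤ ((min x (min y z) : ℕ) : ℝ) * (1 + 1 / Real.log ((max x (max y z) : ℕ) : ℝ) ^ κ)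

theorem pow_near {M u n : ℕ} {δ : ℝ} (hδ : 0 ≤ δ) (hu : (M : ℝ) ≤ u * (1 + δ))
    (hn : (n : ℝ) * δ ≤ 1 / 4) : 3 / 4 * (M : ℝ) ^ n ≤ (u : ℝ) ^ n := by
  have h1 : (1 + δ) ^ n ≤ 4 / 3 := by
    have h2 : 1 + δ ≤ Real.exp δ := by linarith [Real.add_one_le_exp δ]
    have h3 : (1 + δ) ^ n ≤ Real.exp (n * δ) := by
      rw [Real.exp_nat_mul]
      exact pow_le_pow_left₀ (by linarith) h2 n
    refine h3.trans ((Real.exp_le_exp.2 hn).trans ?_)
    -- `exp (1/4) ≤ 4/3`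
    have h4 : Real.exp (-(1 / 4) : ℝ) ≥ 3 / 4 := by
      have := Real.add_one_le_exp (-(1 / 4) : ℝ)
      linarith
    have h5 : Real.exp (1 / 4 : ℝ) * Real.exp (-(1 / 4) : ℝ) = 1 := by
      rw [← Real.exp_add]; norm_num
    have h6 : 0 < Real.exp (1 / 4 : ℝ) := Real.exp_pos _
    nlinarith
  have h2 : (M : ℝ) ^ n ≤ (u : ℝ) ^ n * (1 + δ) ^ n := by
    rw [← mul_pow]
    exact pow_le_pow_left₀ (Nat.cast_nonneg _) hu n
  have h3 : (u : ℝ) ^ n * (1 + δ) ^ n ≤ (u : ℝ) ^ n * (4 / 3) :=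
    mul_le_mul_of_nonneg_left h1 (by positivity)
  linarith

theorem near_core {M x y z p q r : ℕ} (hM : 3 ≤ M) (hx : x ≤ M) (hy : y ≤ M) (hz : z ≤ M)
    (hp : 2 ≤ p) (hq : 2 ≤ q) (hr : 2 ≤ r) (hx0 : 0 < x) (hy0 : 0 < y)
    (lx : 3 / 4 * (M : ℝ) ^ p ≤ (x : ℝ) ^ p) (ly : 3 / 4 * (M : ℝ) ^ q ≤ (y : ℝ) ^ q)
    (lz : 3 / 4 * (M : ℝ) ^ r ≤ (z : ℝ) ^ r)
    (ly' : 3 / 4 * (M : ℝ) ^ (q - 1) ≤ (y : ℝ) ^ (q - 1))
    (lx' : 3 / 4 * (M : ℝ) ^ (p - 1) ≤ (x : ℝ) ^ (p - 1))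
    (h : x ^ p + y ^ q = z ^ r) : False := by
  have hMR : (3 : ℝ) ≤ M := by exact_mod_cast hM
  have hR : (x : ℝ) ^ p + (y : ℝ) ^ q = (z : ℝ) ^ r := by exact_mod_cast h
  have ux : (x : ℝ) ^ p ≤ (M : ℝ) ^ p := pow_le_pow_left₀ (Nat.cast_nonneg _) (by exact_mod_cast hx) p
  have uy : (y : ℝ) ^ q ≤ (M : ℝ) ^ q := pow_le_pow_left₀ (Nat.cast_nonneg _) (by exact_mod_cast hy) q
  have uz : (z : ℝ) ^ r ≤ (M : ℝ) ^ r := pow_le_pow_left₀ (Nat.cast_nonneg _) (by exact_mod_cast hz) r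
  have hx0R : 0 < (x : ℝ) ^ p := by positivity
  have hy0R : 0 < (y : ℝ) ^ q := by positivity
  have hbig : ∀ m n : ℕ, m < n → 3 * (M : ℝ) ^ m ≤ (M : ℝ) ^ n := by
    intro m n hmn
    calc 3 * (M : ℝ) ^ m ≤ M * (M : ℝ) ^ m := by gcongr
      _ = (M : ℝ) ^ (m + 1) := (pow_succ' _ _).symm
      _ ≤ (M : ℝ) ^ n := pow_le_pow_right₀ (by linarith) hmn
  have hpr : p ≤ r := by
    by_contra hc
    have := hbig r p (by omega)
    have h1 : 0 < (M : ℝ) ^ r := by positivity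
    linarith
  have hqr : q ≤ r := by
    by_contra hc
    have := hbig r q (by omega)
    have h1 : 0 < (M : ℝ) ^ r := by positivity
    linarith
  -- the case of a larger exponent `r`
  have key : ∀ u v m n : ℕ, 2 ≤ n → 0 < v → u ≤ M → 3 / 4 * (M : ℝ) ^ (n - 1) ≤ (v : ℝ) ^ (n - 1) → m < n →
      n = r → (u : ℝ) ^ m + (v : ℝ) ^ n = (z : ℝ) ^ r → 0 < (u : ℝ) ^ m → False := by
    intro u v m n hn hv0 huM hv hmn hnr he hu0
    subst hnr
    have hvz : v < z := by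
      by_contra hc
      have : (z : ℝ) ^ n ≤ (v : ℝ) ^ n :=
        pow_le_pow_left₀ (Nat.cast_nonneg _) (by exact_mod_cast (by omega : z ≤ v)) n
      linarith
    have h1 : (v : ℝ) ^ n + 2 * (v : ℝ) ^ (n - 1) ≤ (z : ℝ) ^ n := by
      have h2 : ((v : ℝ) + 1) ^ n ≤ (z : ℝ) ^ n :=
        pow_le_pow_left₀ (by positivity) (by exact_mod_cast hvz) n
      refine le_trans ?_ h2
      obtain ⟨k, rfl⟩ : ∃ k, n = k + 2 := ⟨n - 2, by omega⟩
      have h3 : k + 2 - 1 = k + 1 := by omega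
      rw [h3]
      have hvR : (0 : ℝ) ≤ v := Nat.cast_nonneg _
      have h4 : (v : ℝ) ^ k ≤ ((v : ℝ) + 1) ^ k := pow_le_pow_left₀ hvR (by linarith) k
      calc (v : ℝ) ^ (k + 2) + 2 * (v : ℝ) ^ (k + 1) ≤ (v : ℝ) ^ k * ((v : ℝ) + 1) ^ 2 := by
            have : (v : ℝ) ^ k * ((v : ℝ) + 1) ^ 2 =
              (v : ℝ) ^ (k + 2) + 2 * (v : ℝ) ^ (k + 1) + (v : ℝ) ^ k := by ring
            rw [this]
            have : 0 ≤ (v : ℝ) ^ k := by positivity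
            linarith
        _ ≤ ((v : ℝ) + 1) ^ k * ((v : ℝ) + 1) ^ 2 := by gcongr
        _ = _ := by ring
    have h5 : (u : ℝ) ^ m ≤ (M : ℝ) ^ (n - 1) := by
      calc (u : ℝ) ^ m ≤ (M : ℝ) ^ m := pow_le_pow_left₀ (Nat.cast_nonneg _) (by exact_mod_cast huM) m
        _ ≤ (M : ℝ) ^ (n - 1) := pow_le_pow_right₀ (by linarith) (by omega)
    have h6 : 0 < (M : ℝ) ^ (n - 1) := by positivity
    linarith
  rcases Nat.lt_or_ge p r with h1 | h1
  · rcases Nat.lt_or_ge q r with h2 | h2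
    · have e1 := hbig p r h1
      have e2 := hbig q r h2
      have h3 : 0 < (M : ℝ) ^ r := by positivity
      linarith
    · exact key x y p q hq hy0 hx ly' (by omega) (by omega) hR hx0R
  · rcases Nat.lt_or_ge q r with h2 | h2
    · exact key y x q p hp hx0 hy lx' (by omega) (by omega) (by rw [add_comm]; exact hR) hy0R
    · have e1 : p = r := by omega
      have e2 : q = r := by omega
      rw [e1] at lx hR
      rw [e2] at ly hR
      have h3 : 0 < (M : ℝ) ^ r := by positivity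
      linarith

theorem near_none : ∃ κ M₀ : ℕ, ∀ x y z p q r : ℕ, 0 < x → 0 < y → 0 < z → Nat.Coprime x y →
    Nat.Coprime x z → Nat.Coprime y z → 2 ≤ p → 2 ≤ q → 2 ≤ r → x ^ p + y ^ q = z ^ r →
    Near κ x y z → max x (max y z) < M₀ := by
  obtain ⟨C, κ, hC, hexp⟩ := Pool.Agent.Y902.FB.exp_bound_real
  obtain ⟨M₀, hM₀⟩ : ∃ M₀ : ℕ, M₀ = max 3 (⌈Real.exp (4 * C + 1)⌉₊ + 1) := ⟨_, rfl⟩
  refine ⟨κ + 1, M₀, fun x y z p q r hx hy hz hxy hxz hyz hp hq hr h hnear => ?_⟩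
  by_contra hcon
  push Not at hcon
  obtain ⟨M, hM⟩ : ∃ M : ℕ, M = max x (max y z) := ⟨_, rfl⟩
  have hM3 : 3 ≤ M := by rw [hM]; rw [hM₀] at hcon; exact (le_max_left _ _).trans hcon
  have hMe : Real.exp (4 * C + 1) ≤ M := by
    have h1 : ⌈Real.exp (4 * C + 1)⌉₊ ≤ M := by
      rw [hM]; rw [hM₀] at hcon
      have := (le_max_right _ _).trans hcon
      omega
    exact (Nat.le_ceil _).trans (by exact_mod_cast h1)
  have hM0 : (0 : ℝ) < M := by exact_mod_cast (by omega : 0 < M)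
  have hL : 4 * C + 1 ≤ Real.log M := by rwa [Real.le_log_iff_exp_le hM0]
  unfold Near at hnear
  rw [← hM] at hnear
  obtain ⟨L, hLd⟩ : ∃ L : ℝ, L = Real.log (M : ℝ) := ⟨_, rfl⟩
  rw [← hLd] at hnear hL
  have hL1 : 1 ≤ L := by linarith
  have hLκ : 1 ≤ L ^ (κ + 1) := one_le_pow₀ hL1
  obtain ⟨δ, hδ⟩ : ∃ δ : ℝ, δ = 1 / L ^ (κ + 1) := ⟨_, rfl⟩
  rw [← hδ] at hnear
  have hδ0 : 0 ≤ δ := by rw [hδ]; positivity
  have hδ1 : δ ≤ 1 := by
    rw [hδ, div_le_one (by linarith)]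
    exact hLκ
  have hmin : ∀ u : ℕ, (min x (min y z) : ℕ) ≤ u → (M : ℝ) ≤ u * (1 + δ) := by
    intro u hu
    refine hnear.trans ?_
    have : ((min x (min y z) : ℕ) : ℝ) ≤ u := by exact_mod_cast hu
    gcongr
  have hxm := hmin x (min_le_left _ _)
  have hym := hmin y ((min_le_right _ _).trans (min_le_left _ _))
  have hzm := hmin z ((min_le_right _ _).trans (min_le_right _ _))
  have two : ∀ u : ℕ, 0 < u → (M : ℝ) ≤ u * (1 + δ) → 2 ≤ u := by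
    intro u hu h1
    by_contra hc
    have hu1 : u = 1 := by omega
    rw [hu1] at h1
    have : (3 : ℝ) ≤ M := by exact_mod_cast hM3
    push_cast at h1
    linarith
  obtain ⟨e1, e2, e3⟩ := hexp x y z p q r hx hy hz hxy hxz hyz hp hq hr h
  rw [← hM, ← hLd] at e1 e2 e3
  have e1' := e1 (two x hx hxm)
  have e2' := e2 (two y hy hym)
  have small : ∀ n : ℕ, (n : ℝ) ≤ C * L ^ κ → (n : ℝ) * δ ≤ 1 / 4 := by
    intro n hn
    have h1 : (n : ℝ) * δ ≤ C * L ^ κ * δ := by gcongr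
    have h2 : C * L ^ κ * δ = C / L := by
      rw [hδ, pow_succ]
      field_simp
    have h3 : C / L ≤ 1 / 4 := by
      rw [div_le_div_iff₀ (by linarith) (by norm_num)]
      linarith
    linarith
  have hle : ∀ n : ℕ, (n : ℝ) ≤ C * L ^ κ → ((n - 1 : ℕ) : ℝ) ≤ C * L ^ κ := by
    intro n hn
    refine le_trans ?_ hn
    exact_mod_cast Nat.sub_le n 1
  refine near_core hM3 (x := x) (y := y) (z := z) (by rw [hM]; exact le_max_left _ _)
    (by rw [hM]; exact (le_max_left _ _).trans (le_max_right _ _))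
    (by rw [hM]; exact (le_max_right _ _).trans (le_max_right _ _)) hp hq hr hx hy
    (pow_near hδ0 hxm (small p e1')) (pow_near hδ0 hym (small q e2')) (pow_near hδ0 hzm (small r e3))
    (pow_near hδ0 hym (small _ (hle q e2'))) (pow_near hδ0 hxm (small _ (hle p e1'))) h

/-- **finiteness** -/
theorem near_finite : ∃ κ : ℕ, {v : ℕ × ℕ × ℕ | ∃ x y z p q r : ℕ, 0 < x ∧ 0 < y ∧ 0 < z ∧
    Nat.Coprime x y ∧ Nat.Coprime x z ∧ Nat.Coprime y z ∧ 2 ≤ p ∧ 2 ≤ q ∧ 2 ≤ r ∧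
    x ^ p + y ^ q = z ^ r ∧ Near κ x y z ∧ v = (x ^ p, y ^ q, z ^ r)}.Finite := by
  obtain ⟨κ, M₀, hM₀⟩ := near_none
  obtain ⟨C, κ', hC, hexp⟩ := Pool.Agent.Y902.FB.exp_bound_real
  refine ⟨κ, ?_⟩
  obtain ⟨E, hE⟩ : ∃ E : ℕ, E = ⌈C * Real.log (M₀ + 1) ^ κ'⌉₊ := ⟨_, rfl⟩
  obtain ⟨T, hT⟩ : ∃ T : Finset ℕ, T = ((range (M₀ + 1)) ×ˢ (range (E + 1))).image (fun w => w.1 ^ w.2) :=
    ⟨_, rfl⟩
  apply Set.Finite.subset (Finset.finite_toSet (T ×ˢ (T ×ˢ T)))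
  rintro v ⟨x, y, z, p, q, r, hx, hy, hz, hxy, hxz, hyz, hp, hq, hr, h, hn, rfl⟩
  have hlt := hM₀ x y z p q r hx hy hz hxy hxz hyz hp hq hr h hn
  obtain ⟨e1, e2, e3⟩ := hexp x y z p q r hx hy hz hxy hxz hyz hp hq hr h
  have hxM : x < M₀ := lt_of_le_of_lt (le_max_left _ _) hlt
  have hyM : y < M₀ := lt_of_le_of_lt ((le_max_left _ _).trans (le_max_right _ _)) hlt
  have hzM : z < M₀ := lt_of_le_of_lt ((le_max_right _ _).trans (le_max_right _ _)) hlt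
  have hb : ∀ n : ℕ, (n : ℝ) ≤ C * Real.log ((max x (max y z) : ℕ) : ℝ) ^ κ' → n ≤ E := by
    intro n hn
    have h1 : Real.log ((max x (max y z) : ℕ) : ℝ) ≤ Real.log (M₀ + 1) := by
      apply Real.log_le_log
      · have : 0 < max x (max y z) := lt_of_lt_of_le hx (le_max_left _ _)
        exact_mod_cast this
      · exact_mod_cast (by omega : max x (max y z) ≤ M₀ + 1)
    have h0 : 0 ≤ Real.log ((max x (max y z) : ℕ) : ℝ) := Real.log_natCast_nonneg _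
    have h2 : (n : ℝ) ≤ C * Real.log (M₀ + 1) ^ κ' := hn.trans (by gcongr)
    have h3 : (n : ℝ) ≤ E := h2.trans (by rw [hE]; exact Nat.le_ceil _)
    exact_mod_cast h3
  have mem : ∀ u n : ℕ, u < M₀ → (2 ≤ u → (n : ℝ) ≤ C * Real.log ((max x (max y z) : ℕ) : ℝ) ^ κ') →
      0 < u → u ^ n ∈ T := by
    intro u n hu hn hu0
    rw [hT, mem_image]
    rcases Nat.lt_or_ge u 2 with h1 | h1
    · have : u = 1 := by omega
      refine ⟨(1, 0), ?_, by simp [this]⟩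
      rw [mem_product, mem_range, mem_range]
      simp
      omega
    · refine ⟨(u, n), ?_, rfl⟩
      rw [mem_product, mem_range, mem_range]
      have := hb n (hn h1)
      simp
      omega
  rw [mem_coe, mem_product, mem_product]
  exact ⟨mem x p hxM e1 hx, mem y q hyM e2 hy, mem z r hzM (fun _ => e3) hz⟩

end Pool.Agent.Helper20K9.FC
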