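import Pool.Agent.TH869.LPD.Words

/-!
# Words of digits in the rational translates of a number: one window
-/

set_option autoImplicit false

namespace Pool.Agent.Helper20K9.Tr

open Finset Pool.Agent.W226.MP

/-- the word of `k` digits with the value `W` stands in `y` right after the `j`-th digit -/
def Stands (b k W : ℕ) (y : ℝ) (j : ℕ) : Prop :=
  ⌊(b : ℝ) ^ (j + k) * y⌋ % ((b : ℤ) ^ k) = (W : ℤ)

open Classical in
/-- the number of occurrences after the places `s, ..., s + N - 1` -/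
noncomputable def cnt (b k W : ℕ) (y : ℝ) (s N : ℕ) : ℕ :=
  ((range N).filter (fun j => Stands b k W y (s + j))).card

lemma cnt_le (b k W : ℕ) (y : ℝ) (s N : ℕ) : cnt b k W y s N ≤ N := by
  classical
  unfold cnt
  refine (card_filter_le _ _).trans ?_
  rw [card_range]

lemma cnt_add (b k W : ℕ) (y : ℝ) (s M N : ℕ) :
    cnt b k W y s (M + N) = cnt b k W y s M + cnt b k W y (s + M) N := by
  classical
  unfold cnt
  rw [card_filter, card_filter, card_filter, sum_range_add]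
  congr 1
  apply sum_congr rfl
  intro j _
  rw [Nat.add_assoc]

/-- words whose value is prescribed -/
lemma occursAt_val (b k : ℕ) (hb : 2 ≤ b) (w : Fin k → Fin b) (y : ℝ) (p : ℕ) :
    OccursAt b k w y p ↔ ⌊y * (b : ℝ) ^ (p + k)⌋ % ((b : ℤ) ^ k) = val b (ext b k w) k := by
  rw [occursAt_iff, occ_iff b (by omega) _ (ext_lt b k hb w)]

/-- every value is the value of a word -/
lemma exists_word (b k : ℕ) (hb : 2 ≤ b) (W : ℕ) (hW : W < b ^ k) :
    ∃ w : Fin k → Fin b, val b (ext b k w) k = W := by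
  classical
  have hinj : Function.Injective (fun w : Fin k → Fin b =>
      (⟨val b (ext b k w) k, val_lt b _ (ext_lt b k hb w) k⟩ : Fin (b ^ k))) := by
    intro w w' hww
    have h1 : val b (ext b k w) k = val b (ext b k w') k := by
      have := congrArg Fin.val hww
      exact this
    have key : ∀ n : ℕ, ∀ u v : ℕ → ℕ, (∀ s, u s < b) → (∀ s, v s < b) → val b u n = val b v n →
        ∀ s < n, u s = v s := by
      intro n
      induction n with
      | zero => intro u v _ _ _ s hs; omega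
      | succ n ih =>
        intro u v hu hv h s hs
        rw [Pool.Agent.W226.MP.val, Pool.Agent.W226.MP.val] at h
        have h2 : val b u n = val b v n := by
          have h3 : (b * val b u n + u n) / b = (b * val b v n + v n) / b := by rw [h]
          rw [Nat.mul_add_div (by omega), Nat.mul_add_div (by omega), Nat.div_eq_of_lt (hu n),
            Nat.div_eq_of_lt (hv n)] at h3
          omega
        rcases Nat.lt_succ_iff_lt_or_eq.1 hs with h4 | h4
        · exact ih u v hu hv h2 s h4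
        · rw [h4]
          rw [h2] at h
          omega
    funext s
    have h2 := key k _ _ (ext_lt b k hb w) (ext_lt b k hb w') h1 s s.2
    unfold Pool.Agent.W226.MP.ext at h2
    rw [dif_pos s.2, dif_pos s.2] at h2
    exact Fin.ext h2
  have hcard : Fintype.card (Fin k → Fin b) = Fintype.card (Fin (b ^ k)) := by simp
  have hbij := (Fintype.bijective_iff_injective_and_card _).2 ⟨hinj, hcard⟩
  obtain ⟨w, hw⟩ := hbij.2 ⟨W, hW⟩
  exact ⟨w, congrArg Fin.val hw⟩

/-- a word as a sequence of digits -/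
lemma stands_iff (b k : ℕ) (hb : 2 ≤ b) (W : ℕ) (hW : W < b ^ k) :
    ∃ w : ℕ → ℕ, (∀ s, w s < b) ∧ ∀ (y : ℝ) (p : ℕ),
      Stands b k W y p ↔ ∀ s < k, ⌊y * (b : ℝ) ^ (p + s + 1)⌋ % (b : ℤ) = w s := by
  obtain ⟨w, hw⟩ := exists_word b k hb W hW
  refine ⟨ext b k w, ext_lt b k hb w, fun y p => ?_⟩
  rw [← occursAt_iff, occursAt_val b k hb, hw, Stands, mul_comm]

/-- the points `β + q c / d` in an arc -/
lemma card_arc (d q : ℕ) (hd : 0 < d) (hq : Nat.Coprime q d) (β u v : ℝ) (huv : u ≤ v) :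
    (((range d).filter (fun c : ℕ => u ≤ Int.fract (β + q * c / d) ∧
      Int.fract (β + q * c / d) < v)).card : ℝ) ≤ (v - u) * d + 1 := by
  classical
  have hdR : (0 : ℝ) < d := by exact_mod_cast hd
  let φ : ℕ → ℤ := fun c => (q : ℤ) * c - d * ⌊β + q * c / d⌋
  have hφ : ∀ c : ℕ, ((φ c : ℤ) : ℝ) = d * (Int.fract (β + q * c / d) - β) := by
    intro c
    simp only [φ]
    push_cast
    rw [Int.fract]
    field_simp
    ring
  have hinj : Set.InjOn φ ((range d).filter (fun c : ℕ => u ≤ Int.fract (β + q * c / d) ∧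
      Int.fract (β + q * c / d) < v) : Finset ℕ) := by
    intro c hc c' hc' h
    rw [mem_coe, mem_filter, mem_range] at hc hc'
    have h1 : (q : ℤ) * c - q * c' = d * (⌊β + q * c / d⌋ - ⌊β + q * c' / d⌋) := by
      simp only [φ] at h
      linarith
    have h2 : (q * c : ℕ) ≡ q * c' [MOD d] := by
      rw [Nat.modEq_iff_dvd]
      push_cast
      exact ⟨-(⌊β + q * c / d⌋ - ⌊β + q * c' / d⌋), by linarith⟩
    have h3 : c ≡ c' [MOD d] := Nat.ModEq.cancel_left_of_coprime (by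
      rw [Nat.gcd_comm]; exact hq) h2
    exact Nat.ModEq.eq_of_lt_of_lt h3 hc.1 hc'.1
  have hsub : ((range d).filter (fun c : ℕ => u ≤ Int.fract (β + q * c / d) ∧
      Int.fract (β + q * c / d) < v)).image φ ⊆ Finset.Ico ⌈d * (u - β)⌉ ⌈d * (v - β)⌉ := by
    intro t ht
    obtain ⟨c, hc, rfl⟩ := mem_image.1 ht
    rw [mem_filter, mem_range] at hc
    rw [mem_Ico, Int.ceil_le, Int.lt_ceil, hφ]
    obtain ⟨_, h1, h2⟩ := hc
    constructor
    · apply mul_le_mul_of_nonneg_left _ hdR.le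
      linarith
    · apply mul_lt_mul_of_pos_left _ hdR
      linarith
  have h1 := card_le_card hsub
  rw [card_image_of_injOn hinj, Int.card_Ico] at h1
  have h2 : ((⌈(d : ℝ) * (v - β)⌉ - ⌈(d : ℝ) * (u - β)⌉).toNat : ℝ) ≤ (v - u) * d + 1 := by
    have h3 : ((⌈(d : ℝ) * (v - β)⌉ - ⌈(d : ℝ) * (u - β)⌉).toNat : ℤ) ≤
        max (⌈(d : ℝ) * (v - β)⌉ - ⌈(d : ℝ) * (u - β)⌉) 0 := by
      rw [Int.toNat_eq_max]
    have h4 : (((⌈(d : ℝ) * (v - β)⌉ - ⌈(d : ℝ) * (u - β)⌉).toNat : ℤ) : ℝ) ≤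
        ((max (⌈(d : ℝ) * (v - β)⌉ - ⌈(d : ℝ) * (u - β)⌉) 0 : ℤ) : ℝ) := by exact_mod_cast h3
    have h5 := Int.ceil_lt_add_one ((d : ℝ) * (v - β))
    have h6 := Int.le_ceil ((d : ℝ) * (u - β))
    have h7 : ((max (⌈(d : ℝ) * (v - β)⌉ - ⌈(d : ℝ) * (u - β)⌉) 0 : ℤ) : ℝ) ≤ (v - u) * d + 1 := by
      push_cast
      apply max_le
      · nlinarith
      · nlinarith
    exact_mod_cast h4.trans h7
  exact (by exact_mod_cast h1 : _ ≤ ((⌈(d : ℝ) * (v - β)⌉ - ⌈(d : ℝ) * (u - β)⌉).toNat : ℝ)).trans h2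

open Classical in
/-- **The cells.** -/
lemma cells (b L d m n : ℕ) (hb : 2 ≤ b) (hd : b ^ L ≤ d) (hbd : Nat.Coprime b d)
    (hm : Nat.Coprime m d) (x : ℝ) (z : ℕ) (hz : z < b ^ L) :
    (((range d).filter (fun c : ℕ =>
      ⌊Int.fract ((m * (x + c / d)) * (b : ℝ) ^ n) * ((b ^ L : ℕ) : ℝ)⌋₊ = z)).card : ℝ) ≤
      2 * d / (b : ℝ) ^ L := by
  have hb0 : (0 : ℝ) < b := by exact_mod_cast (by omega : 0 < b)
  have hbL : (0 : ℝ) < (b : ℝ) ^ L := by positivity
  have hd0 : 0 < d := lt_of_lt_of_le (Nat.pow_pos (by omega)) hd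
  have hdR : (0 : ℝ) < d := by exact_mod_cast hd0
  have hdL : (b : ℝ) ^ L ≤ d := by exact_mod_cast hd
  have hcop : Nat.Coprime (m * b ^ n) d := Nat.Coprime.mul_left hm (Nat.Coprime.pow_left n hbd)
  have h1 := card_arc d (m * b ^ n) hd0 hcop (m * x * (b : ℝ) ^ n) (z / (b : ℝ) ^ L)
    ((z + 1) / (b : ℝ) ^ L) (by gcongr; linarith)
  have h2 : (range d).filter (fun c : ℕ =>
      ⌊Int.fract ((m * (x + c / d)) * (b : ℝ) ^ n) * ((b ^ L : ℕ) : ℝ)⌋₊ = z) =
      (range d).filter (fun c : ℕ =>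
        z / (b : ℝ) ^ L ≤ Int.fract (m * x * (b : ℝ) ^ n + ((m * b ^ n : ℕ) : ℝ) * c / d) ∧
        Int.fract (m * x * (b : ℝ) ^ n + ((m * b ^ n : ℕ) : ℝ) * c / d) < (z + 1) / (b : ℝ) ^ L) := by
    apply filter_congr
    intro c _
    have h3 : (m * (x + c / d)) * (b : ℝ) ^ n =
        m * x * (b : ℝ) ^ n + ((m * b ^ n : ℕ) : ℝ) * c / d := by
      push_cast
      field_simp
    rw [h3, Nat.cast_pow]
    have h0 : 0 ≤ Int.fract (m * x * (b : ℝ) ^ n + ((m * b ^ n : ℕ) : ℝ) * c / d) * (b : ℝ) ^ L :=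
      mul_nonneg (Int.fract_nonneg _) hbL.le
    rw [Nat.floor_eq_iff h0, div_le_iff₀ hbL, lt_div_iff₀ hbL]
  rw [h2]
  refine h1.trans ?_
  have h4 : ((z + 1 : ℝ) / (b : ℝ) ^ L - z / (b : ℝ) ^ L) * d = d / (b : ℝ) ^ L := by ring
  rw [h4]
  have h5 : (1 : ℝ) ≤ d / (b : ℝ) ^ L := by rwa [le_div_iff₀ hbL, one_mul]
  have h6 : 2 * (d : ℝ) / (b : ℝ) ^ L = d / (b : ℝ) ^ L + d / (b : ℝ) ^ L := by ring
  rw [h6]
  linarith

/-- the number of the bad numerators for a window -/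
noncomputable def eta (b k L : ℕ) (ε : ℝ) : ℝ :=
  4 * k * (b : ℝ) ^ k * Real.exp (-(ε ^ 2 / 4) * ((L + 1 - k) / k : ℕ))

open Classical in
/-- the numerators which are bad at the window after the `n`-th digit -/
noncomputable def bad (b k L d m : ℕ) (ε : ℝ) (x : ℝ) (n : ℕ) : Finset ℕ :=
  (range d).filter (fun c : ℕ => ∃ W < b ^ k, ε * (L + 1 - k : ℕ) + k <
    |(cnt b k W (m * (x + c / d)) n (L + 1 - k) : ℝ) - (L + 1 - k : ℕ) / (b : ℝ) ^ k|)

/-- **One window.** -/
theorem card_bad (b k L d m n : ℕ) (hb : 2 ≤ b) (hk : 1 ≤ k) (hkL : k ≤ L) (hd : b ^ L ≤ d)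
    (hbd : Nat.Coprime b d) (hm : Nat.Coprime m d) (x ε : ℝ) (hε : 0 < ε) (hε1 : ε ≤ 1) :
    ((bad b k L d m ε x n).card : ℝ) ≤ eta b k L ε * d := by
  classical
  have hb0 : (0 : ℝ) < b := by exact_mod_cast (by omega : 0 < b)
  have h1 := Pool.Agent.TH869.LPD.freqG b k L hb hk hkL n d (fun c : ℕ => m * (x + c / d))
    (2 * d / (b : ℝ) ^ L) (by positivity)
    (fun z hz => cells b L d m n hb hd hbd hm x z hz) ε hε hε1 (bad b k L d m ε x n) (by
      intro c hc
      unfold bad at hc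
      rw [mem_filter, mem_range] at hc
      obtain ⟨hc1, W, hW, h2⟩ := hc
      obtain ⟨w, hw1, hw2⟩ := stands_iff b k hb W hW
      refine ⟨hc1, w, hw1, ?_⟩
      have e : ((range (L + 1 - k)).filter (fun j => ∀ s < k,
          ⌊(m * (x + c / d)) * (b : ℝ) ^ (n + j + s + 1)⌋ % (b : ℤ) = w s)).card =
          cnt b k W (m * (x + c / d)) n (L + 1 - k) := by
        unfold cnt
        congr 1
        apply filter_congr
        intro j _
        exact (hw2 _ (n + j)).symm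
      rw [e]
      exact h2)
  refine h1.trans (le_of_eq ?_)
  unfold eta
  have : (b : ℝ) ^ L ≠ 0 := by positivity
  field_simp
  ring

end Pool.Agent.Helper20K9.Tr
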