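import Pool.Agent.Helper20K9.Tr1

/-!
# Words of digits in the rational translates of a number: all long windows
-/

set_option autoImplicit false

namespace Pool.Agent.Helper20K9.Tr

open Finset

/-- the frequencies of the words of `k` digits at the places `s, ..., s + N - 1` -/
def Near (b k : ℕ) (ε : ℝ) (y : ℝ) (s N : ℕ) : Prop :=
  ∀ W < b ^ k, |(cnt b k W y s N : ℝ) - N / (b : ℝ) ^ k| ≤ ε * N

lemma abs_cnt (b k W : ℕ) (hb : 2 ≤ b) (y : ℝ) (s N : ℕ) :
    |(cnt b k W y s N : ℝ) - N / (b : ℝ) ^ k| ≤ N := by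
  have h1 : (cnt b k W y s N : ℝ) ≤ N := by exact_mod_cast cnt_le b k W y s N
  have h2 : (1 : ℝ) ≤ (b : ℝ) ^ k := one_le_pow₀ (by exact_mod_cast (by omega : 1 ≤ b))
  have h3 : (N : ℝ) / (b : ℝ) ^ k ≤ N := div_le_self (Nat.cast_nonneg _) h2
  have h4 : (0 : ℝ) ≤ N / (b : ℝ) ^ k := by positivity
  have h5 : (0 : ℝ) ≤ cnt b k W y s N := Nat.cast_nonneg _
  rw [abs_le]
  constructor <;> linarith

lemma cnt_blocks (b k W : ℕ) (y : ℝ) (s l R : ℕ) :
    cnt b k W y s (R * l) = ∑ i ∈ range R, cnt b k W y (s + i * l) l := by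
  induction R with
  | zero => simp [cnt]
  | succ R ih =>
    rw [Nat.succ_mul, cnt_add, ih, sum_range_succ]

open Classical in
/-- good and bad windows -/
lemma near_of (b k W : ℕ) (hb : 2 ≤ b) (y : ℝ) (s l R r : ℕ) (hr : r ≤ l) (ε θ : ℝ) (hε : 0 ≤ ε)
    (B : Finset ℕ) (hB : ∀ i < R, i ∉ B →
      |(cnt b k W y (s + i * l) l : ℝ) - l / (b : ℝ) ^ k| ≤ ε * l + k)
    (hB2 : ((((range R).filter (fun i => i ∈ B)).card : ℕ) : ℝ) ≤ θ * R) :
    |(cnt b k W y s (R * l + r) : ℝ) - (R * l + r : ℕ) / (b : ℝ) ^ k| ≤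
      R * (ε * l + k) + θ * R * l + l := by
  have h1 : (cnt b k W y s (R * l + r) : ℝ) - (R * l + r : ℕ) / (b : ℝ) ^ k =
      ∑ i ∈ range R, ((cnt b k W y (s + i * l) l : ℝ) - l / (b : ℝ) ^ k) +
      ((cnt b k W y (s + R * l) r : ℝ) - r / (b : ℝ) ^ k) := by
    rw [cnt_add, cnt_blocks, sum_sub_distrib, sum_const, card_range, nsmul_eq_mul]
    push_cast
    ring
  have h2 : |∑ i ∈ range R, ((cnt b k W y (s + i * l) l : ℝ) - l / (b : ℝ) ^ k)| ≤
      ∑ i ∈ range R, ((ε * l + k) + if i ∈ B then (l : ℝ) else 0) := by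
    refine (abs_sum_le_sum_abs _ _).trans (sum_le_sum fun i hi => ?_)
    split_ifs with h
    · have h3 := abs_cnt b k W hb y (s + i * l) l
      have h4 : (0 : ℝ) ≤ ε * l + k := by positivity
      linarith
    · rw [add_zero]
      exact hB i (mem_range.1 hi) h
  have h3 : ∑ i ∈ range R, ((ε * l + k) + if i ∈ B then (l : ℝ) else 0) ≤
      R * (ε * l + k) + θ * R * l := by
    rw [sum_add_distrib, sum_const, card_range, nsmul_eq_mul, ← sum_filter, sum_const,
      nsmul_eq_mul]
    have : (0 : ℝ) ≤ l := Nat.cast_nonneg _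
    have h5 := mul_le_mul_of_nonneg_right hB2 this
    linarith
  have h4 := abs_cnt b k W hb y (s + R * l) r
  have h5 : (r : ℝ) ≤ l := by exact_mod_cast hr
  rw [h1]
  refine (abs_add_le _ _).trans ?_
  linarith

open Classical in
/-- **Dyadic scales.** -/
lemma dyadic (d : ℕ) (A : ℕ → Finset ℕ) (hA : ∀ i, A i ⊆ range d) (η : ℝ)
    (hη : ∀ i, ((A i).card : ℝ) ≤ η * d) (θ : ℝ) (hθ : 0 < θ) (R1 Q : ℕ) (hR1 : 1 ≤ R1) :
    (((range d).filter (fun c => ∃ R, R1 ≤ R ∧ R ≤ 2 ^ Q * R1 ∧
      θ * R < (((range R).filter (fun i => c ∈ A i)).card : ℕ))).card : ℝ) ≤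
      (Q + 1) * (2 * η / θ) * d := by
  let E : ℕ → Finset ℕ := fun q => (range d).filter (fun c =>
    θ / 2 * (2 ^ q * R1 : ℕ) < (((range (2 ^ q * R1)).filter (fun i => c ∈ A i)).card : ℕ))
  have hE : ∀ q, ((E q).card : ℝ) ≤ 2 * η / θ * d := by
    intro q
    set T := 2 ^ q * R1 with hT
    have hT0 : (0 : ℝ) < T := by
      have : 0 < T := Nat.mul_pos (Nat.pow_pos (by norm_num)) hR1
      exact_mod_cast this
    have h1 : (E q).card * (θ / 2 * T) ≤ ∑ c ∈ E q, (((range T).filter (fun i => c ∈ A i)).card : ℝ) := by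
      rw [← nsmul_eq_mul, ← sum_const]
      refine sum_le_sum fun c hc => ?_
      exact (mem_filter.1 hc).2.le
    have h2 : ∑ c ∈ E q, (((range T).filter (fun i => c ∈ A i)).card : ℝ) ≤ T * (η * d) := by
      calc ∑ c ∈ E q, (((range T).filter (fun i => c ∈ A i)).card : ℝ)
          ≤ ∑ c ∈ range d, (((range T).filter (fun i => c ∈ A i)).card : ℝ) :=
            sum_le_sum_of_subset_of_nonneg (filter_subset _ _) fun _ _ _ => Nat.cast_nonneg _
        _ = ∑ i ∈ range T, ((A i).card : ℝ) := by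
            simp_rw [card_filter]
            push_cast
            rw [sum_comm]
            refine sum_congr rfl fun i _ => ?_
            rw [← sum_filter, sum_const, nsmul_eq_mul, mul_one]
            congr 2
            ext c
            rw [mem_filter]
            exact ⟨fun h => h.2, fun h => ⟨hA i h, h⟩⟩
        _ ≤ ∑ _i ∈ range T, η * d := sum_le_sum fun i _ => hη i
        _ = T * (η * d) := by rw [sum_const, card_range, nsmul_eq_mul]
    have h3 : ((E q).card : ℝ) * (θ / 2) ≤ η * d := by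
      have h4 := h1.trans h2
      have h5 : (E q).card * (θ / 2 * T) = T * ((E q).card * (θ / 2)) := by ring
      rw [h5] at h4
      exact le_of_mul_le_mul_left h4 hT0
    rw [div_mul_eq_mul_div, le_div_iff₀ hθ]
    linarith
  have hsub : (range d).filter (fun c => ∃ R, R1 ≤ R ∧ R ≤ 2 ^ Q * R1 ∧
      θ * R < (((range R).filter (fun i => c ∈ A i)).card : ℕ)) ⊆ (range (Q + 1)).biUnion E := by
    intro c hc
    rw [mem_filter] at hc
    obtain ⟨hc1, R, h1, h2, h3⟩ := hc
    have hex : ∃ q, R ≤ 2 ^ q * R1 := ⟨Q, h2⟩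
    set q := Nat.find hex with hq
    have hq1 : R ≤ 2 ^ q * R1 := Nat.find_spec hex
    have hqQ : q ≤ Q := Nat.find_min' hex h2
    have h4 : 2 ^ q * R1 ≤ 2 * R := by
      rcases Nat.eq_zero_or_pos q with h0 | h0
      · rw [h0, pow_zero, one_mul]; omega
      · have h5 := Nat.find_min hex (m := q - 1) (by omega)
        have h6 : 2 ^ q = 2 * 2 ^ (q - 1) := by
          rw [← pow_succ']; congr 1; omega
        rw [h6, mul_assoc]
        omega
    rw [mem_biUnion]
    refine ⟨q, mem_range.2 (by omega), ?_⟩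
    simp only [E]
    rw [mem_filter]
    refine ⟨hc1, ?_⟩
    have h5 : (((range R).filter (fun i => c ∈ A i)).card : ℕ) ≤
        ((range (2 ^ q * R1)).filter (fun i => c ∈ A i)).card := by
      apply card_le_card
      intro i hi
      rw [mem_filter, mem_range] at hi ⊢
      exact ⟨lt_of_lt_of_le hi.1 hq1, hi.2⟩
    have h6 : ((2 ^ q * R1 : ℕ) : ℝ) ≤ 2 * R := by exact_mod_cast h4
    have h7 : ((((range R).filter (fun i => c ∈ A i)).card : ℕ) : ℝ) ≤
        ((((range (2 ^ q * R1)).filter (fun i => c ∈ A i)).card : ℕ) : ℝ) := by exact_mod_cast h5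
    calc θ / 2 * (2 ^ q * R1 : ℕ) ≤ θ / 2 * (2 * R) := by gcongr
      _ = θ * R := by ring
      _ < _ := h3
      _ ≤ _ := h7
  have h1 : (((range d).filter (fun c => ∃ R, R1 ≤ R ∧ R ≤ 2 ^ Q * R1 ∧
      θ * R < (((range R).filter (fun i => c ∈ A i)).card : ℕ))).card : ℝ) ≤
      ∑ q ∈ range (Q + 1), ((E q).card : ℝ) := by
    exact_mod_cast (card_le_card hsub).trans card_biUnion_le
  refine h1.trans ?_
  calc ∑ q ∈ range (Q + 1), ((E q).card : ℝ) ≤ ∑ _q ∈ range (Q + 1), 2 * η / θ * d :=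
        sum_le_sum fun q _ => hE q
    _ = _ := by
        rw [sum_const, card_range, nsmul_eq_mul]
        push_cast
        ring

open Classical in
/-- **All long windows, one multiplier.** -/
theorem windows (b k L d m : ℕ) (hb : 2 ≤ b) (hk : 1 ≤ k) (hkL : k ≤ L) (hd : b ^ L ≤ d)
    (hbd : Nat.Coprime b d) (hm : Nat.Coprime m d) (x ε : ℝ) (hε : 0 < ε) (hε1 : ε ≤ 1)
    (hl : 4 * k / ε ≤ (L + 1 - k : ℕ)) (s N1 Q : ℕ) (hN1 : 4 * (L + 1 - k : ℕ) / ε ≤ N1) :
    (((range d).filter (fun c : ℕ => ∃ N, N1 ≤ N ∧ N ≤ 2 ^ Q * N1 ∧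
      ¬ Near b k ε (m * (x + c / d)) s N)).card : ℝ) ≤
      (Q + 2) * (8 * eta b k L (ε / 4) / ε) * d := by
  set l := L + 1 - k with hl0
  have hl1 : 1 ≤ l := by omega
  have hlR : (1 : ℝ) ≤ l := by exact_mod_cast hl1
  have hN1l : l ≤ N1 := by
    have h1 : (l : ℝ) ≤ 4 * l / ε := by
      rw [le_div_iff₀ hε]
      nlinarith
    exact_mod_cast h1.trans hN1
  set R1 := N1 / l with hR1
  have hR1' : 1 ≤ R1 := (Nat.one_le_div_iff hl1).2 hN1l
  have h1 := dyadic d (fun i => bad b k L d m (ε / 4) x (s + i * l)) (fun i => filter_subset _ _)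
    (eta b k L (ε / 4)) (fun i => card_bad b k L d m (s + i * l) hb hk hkL hd hbd hm x (ε / 4)
      (by positivity) (by linarith)) (ε / 4) (by positivity) R1 (Q + 1) hR1'
  have hsub : (range d).filter (fun c : ℕ => ∃ N, N1 ≤ N ∧ N ≤ 2 ^ Q * N1 ∧
      ¬ Near b k ε (m * (x + c / d)) s N) ⊆
      (range d).filter (fun c => ∃ R, R1 ≤ R ∧ R ≤ 2 ^ (Q + 1) * R1 ∧
      ε / 4 * R < (((range R).filter (fun i => c ∈ bad b k L d m (ε / 4) x (s + i * l))).card : ℕ)) := by
    intro c hc
    rw [mem_filter] at hc ⊢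
    obtain ⟨hc1, N, hN, hN', hnear⟩ := hc
    refine ⟨hc1, N / l, Nat.div_le_div_right hN, ?_, ?_⟩
    · have h2 : N1 < (R1 + 1) * l := by
        rw [hR1, Nat.add_mul, one_mul]
        have := Nat.div_add_mod N1 l
        have h3 := Nat.mod_lt N1 hl1
        rw [mul_comm] at this
        omega
      have h3 : N < (2 ^ (Q + 1) * R1 + 1) * l := by
        calc N ≤ 2 ^ Q * N1 := hN'
          _ < 2 ^ Q * ((R1 + 1) * l) := Nat.mul_lt_mul_of_pos_left h2 (Nat.pow_pos (by norm_num))
          _ ≤ 2 ^ Q * ((2 * R1) * l) := by gcongr; omega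
          _ = (2 ^ (Q + 1) * R1) * l := by rw [pow_succ]; ring
          _ ≤ _ := by gcongr; omega
      exact Nat.lt_succ_iff.1 (Nat.div_lt_of_lt_mul (by rw [mul_comm]; exact h3))
    · by_contra hcon
      push Not at hcon
      apply hnear
      intro W hW
      set R := N / l with hR
      set r := N % l with hr
      have hNR : R * l + r = N := by rw [hR, hr, mul_comm]; exact Nat.div_add_mod N l
      have hrl : r ≤ l := (Nat.mod_lt N hl1).le
      have h2 := near_of b k W hb (m * (x + c / d)) s l R r hrl (ε / 4) (ε / 4) (by positivity)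
        ((range R).filter (fun i => c ∈ bad b k L d m (ε / 4) x (s + i * l))) (by
          intro i hi hiB
          rw [mem_filter, not_and] at hiB
          have h3 := hiB (mem_range.2 hi)
          unfold bad at h3
          rw [mem_filter, not_and] at h3
          have h4 := h3 hc1
          push Not at h4
          exact h4 W hW) (by
          have e : (range R).filter (fun i => i ∈ (range R).filter
              (fun i => c ∈ bad b k L d m (ε / 4) x (s + i * l))) =
              (range R).filter (fun i => c ∈ bad b k L d m (ε / 4) x (s + i * l)) := by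
            ext i
            simp only [mem_filter, mem_range]
            tauto
          rw [e]
          exact hcon)
      rw [hNR] at h2
      refine h2.trans ?_
      have hRN : (R : ℝ) * l ≤ N := by exact_mod_cast (by omega : R * l ≤ N)
      have h4 : (R : ℝ) * k ≤ ε / 4 * N := by
        rw [div_le_iff₀ hε] at hl
        have h5 : (k : ℝ) ≤ ε / 4 * l := by linarith
        calc (R : ℝ) * k ≤ R * (ε / 4 * l) := by gcongr
          _ = ε / 4 * (R * l) := by ring
          _ ≤ _ := by gcongr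
      have h5 : (l : ℝ) ≤ ε / 4 * N := by
        rw [div_le_iff₀ hε] at hN1
        have h6 : (N1 : ℝ) ≤ N := by exact_mod_cast hN
        nlinarith
      have h6 : (ε / 4) * (R * l) ≤ ε / 4 * N := by gcongr
      nlinarith
  have h2 : (((range d).filter (fun c : ℕ => ∃ N, N1 ≤ N ∧ N ≤ 2 ^ Q * N1 ∧
      ¬ Near b k ε (m * (x + c / d)) s N)).card : ℝ) ≤
      (((range d).filter (fun c => ∃ R, R1 ≤ R ∧ R ≤ 2 ^ (Q + 1) * R1 ∧
      ε / 4 * R < (((range R).filter (fun i => c ∈ bad b k L d m (ε / 4) x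
        (s + i * l))).card : ℕ))).card : ℝ) := by
    exact_mod_cast card_le_card hsub
  refine (h2.trans h1).trans (le_of_eq ?_)
  push_cast
  field_simp
  ring

end Pool.Agent.Helper20K9.Tr
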