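import Pool.Agent.Helper20K9.Tr2

/-!
# Words of digits in the rational translates of a number: the count
-/

set_option autoImplicit false

namespace Pool.Agent.Helper20K9.Tr

open Finset

lemma eta_le (b k d : ℕ) (hb : 2 ≤ b) (hk : 1 ≤ k) (hd : 1 ≤ d) (hkL : k ≤ Nat.log b d) (ε : ℝ)
    (hε : 0 < ε) (hε1 : ε ≤ 1) :
    eta b k (Nat.log b d) (ε / 4) ≤
      8 * k * (b : ℝ) ^ k * (d : ℝ) ^ (-(3 * (ε ^ 2 / (192 * k * Real.log b)))) := by
  set L := Nat.log b d with hL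
  have hb1 : (1 : ℝ) < b := by exact_mod_cast (by omega : 1 < b)
  have hb0 : (0 : ℝ) < b := by linarith
  have hlb : 0 < Real.log b := Real.log_pos hb1
  have hdR : (1 : ℝ) ≤ d := by exact_mod_cast hd
  have hd0 : (0 : ℝ) < d := by linarith
  have hkR : (1 : ℝ) ≤ k := by exact_mod_cast hk
  have hk0 : (0 : ℝ) < k := by linarith
  have h1 : d < b ^ (L + 1) := Nat.lt_pow_succ_log_self (by omega) d
  have h2 : Real.log d ≤ (L + 1) * Real.log b := by
    have h3 : (d : ℝ) ≤ (b : ℝ) ^ (L + 1) := by exact_mod_cast h1.le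
    have h4 := Real.log_le_log hd0 h3
    rw [Real.log_pow] at h4
    exact_mod_cast h4
  -- the number of blocks
  have h3 : ((L : ℝ) + 1) / k - 2 ≤ ((L + 1 - k) / k : ℕ) := by
    have h4 := Nat.lt_div_mul_add (a := L + 1 - k) (b := k) (by omega)
    have h5 : ((L + 1 - k : ℕ) : ℝ) ≤ ((L + 1 - k) / k : ℕ) * k + k := by exact_mod_cast h4.le
    rw [Nat.cast_sub (by omega)] at h5
    push_cast at h5
    have h6 : ((L : ℝ) + 1) ≤ (((L + 1 - k) / k : ℕ) + 2) * k := by linarith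
    have h7 := (div_le_iff₀ hk0).2 h6
    linarith
  have h4 : Real.log d / (k * Real.log b) - 2 ≤ ((L + 1 - k) / k : ℕ) := by
    refine le_trans ?_ h3
    have h5 : Real.log d / (k * Real.log b) ≤ ((L : ℝ) + 1) / k := by
      rw [div_le_div_iff₀ (by positivity) hk0]
      calc Real.log d * k ≤ ((L + 1) * Real.log b) * k := by gcongr
        _ = _ := by ring
    linarith
  have hexp : Real.exp (-((ε / 4) ^ 2 / 4) * ((L + 1 - k) / k : ℕ)) ≤
      2 * (d : ℝ) ^ (-(3 * (ε ^ 2 / (192 * k * Real.log b)))) := by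
    have h5 : -((ε / 4) ^ 2 / 4) * ((L + 1 - k) / k : ℕ) ≤
        Real.log 2 + Real.log d * (-(3 * (ε ^ 2 / (192 * k * Real.log b)))) := by
      have h6 : (ε / 4) ^ 2 / 4 * (Real.log d / (k * Real.log b) - 2) ≤
          (ε / 4) ^ 2 / 4 * ((L + 1 - k) / k : ℕ) := mul_le_mul_of_nonneg_left h4 (by positivity)
      have h7 : (ε / 4) ^ 2 / 4 * (Real.log d / (k * Real.log b) - 2) =
          Real.log d * (3 * (ε ^ 2 / (192 * k * Real.log b))) - ε ^ 2 / 32 := by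
        field_simp
        ring
      have h8 : ε ^ 2 / 32 ≤ Real.log 2 := by
        have := Real.log_two_gt_d9
        nlinarith
      linarith
    calc Real.exp (-((ε / 4) ^ 2 / 4) * ((L + 1 - k) / k : ℕ))
        ≤ Real.exp (Real.log 2 + Real.log d * (-(3 * (ε ^ 2 / (192 * k * Real.log b))))) :=
          Real.exp_le_exp.2 h5
      _ = _ := by
          rw [Real.exp_add, Real.exp_log (by norm_num), Real.rpow_def_of_pos hd0]
  unfold eta
  calc 4 * k * (b : ℝ) ^ k * Real.exp (-((ε / 4) ^ 2 / 4) * ((L + 1 - k) / k : ℕ))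
      ≤ 4 * k * (b : ℝ) ^ k * (2 * (d : ℝ) ^ (-(3 * (ε ^ 2 / (192 * k * Real.log b))))) := by gcongr
    _ = _ := by ring

open Classical in
/-- **The count.** -/
theorem count (b k : ℕ) (hb : 2 ≤ b) (hk : 1 ≤ k) (ε : ℝ) (hε : 0 < ε) (hε1 : ε ≤ 1) :
    ∃ δ : ℝ, 0 < δ ∧ δ ≤ 1 / 2 ∧ ∃ C : ℝ, 1 ≤ C ∧ ∀ d : ℕ, 1 ≤ d → Nat.Coprime b d →
      ∀ (x : ℝ) (s N1 : ℕ), C * (1 + Real.log d) ≤ N1 →
      (((range d).filter (fun c : ℕ => ∃ m : ℕ, (m : ℝ) ≤ (d : ℝ) ^ δ ∧ Nat.Coprime m d ∧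
        ∃ N : ℕ, N1 ≤ N ∧ (N : ℝ) ≤ Real.exp ((d : ℝ) ^ δ) * N1 ∧
          ¬ Near b k ε (m * (x + c / d)) s N)).card : ℝ) ≤ C * (d : ℝ) ^ (1 - δ) := by
  have hb1 : (1 : ℝ) < b := by exact_mod_cast (by omega : 1 < b)
  have hb0 : (0 : ℝ) < b := by linarith
  have hlb : 0 < Real.log b := Real.log_pos hb1
  have hlb2 : Real.log 2 ≤ Real.log b := Real.log_le_log (by norm_num) (by exact_mod_cast hb)
  have hl2 := Real.log_two_gt_d9
  have hkR : (1 : ℝ) ≤ k := by exact_mod_cast hk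
  have hk0 : (0 : ℝ) < k := by linarith
  set δ : ℝ := ε ^ 2 / (192 * k * Real.log b) with hδ
  have hδ0 : 0 < δ := by positivity
  have hδ1 : δ ≤ 1 / 2 := by
    rw [hδ, div_le_iff₀ (by positivity)]
    have h1 : (0.69 : ℝ) ≤ k * Real.log b := by nlinarith
    nlinarith
  set J := ⌈5 * k / ε⌉₊ with hJ
  have hJ1 : 5 * k / ε ≤ J := Nat.le_ceil _
  set C : ℝ := (b : ℝ) ^ (J + 1) + 640 * k * (b : ℝ) ^ k / ε + 6 / ε with hC
  have hC1 : (b : ℝ) ^ (J + 1) ≤ C := by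
    rw [hC]
    have : 0 ≤ 640 * k * (b : ℝ) ^ k / ε + 6 / ε := by positivity
    linarith
  have hC2 : 640 * k * (b : ℝ) ^ k / ε ≤ C := by
    rw [hC]
    have : 0 ≤ (b : ℝ) ^ (J + 1) + 6 / ε := by positivity
    linarith
  have hC3 : 6 / ε ≤ C := by
    rw [hC]
    have : 0 ≤ (b : ℝ) ^ (J + 1) + 640 * k * (b : ℝ) ^ k / ε := by positivity
    linarith
  refine ⟨δ, hδ0, hδ1, C, (one_le_pow₀ hb1.le).trans hC1, fun d hd hbd x s N1 hN1 => ?_⟩
  have hdR : (1 : ℝ) ≤ d := by exact_mod_cast hd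
  have hd0 : (0 : ℝ) < d := by linarith
  have hdδ : (1 : ℝ) ≤ (d : ℝ) ^ δ := Real.one_le_rpow hdR hδ0.le
  rcases lt_or_ge d (b ^ (J + 1)) with hsm | hbig
  · have h1 : (((range d).filter (fun c : ℕ => ∃ m : ℕ, (m : ℝ) ≤ (d : ℝ) ^ δ ∧ Nat.Coprime m d ∧
        ∃ N : ℕ, N1 ≤ N ∧ (N : ℝ) ≤ Real.exp ((d : ℝ) ^ δ) * N1 ∧
          ¬ Near b k ε (m * (x + c / d)) s N)).card : ℝ) ≤ d := by
      have := card_filter_le (range d) (fun c : ℕ => ∃ m : ℕ, (m : ℝ) ≤ (d : ℝ) ^ δ ∧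
        Nat.Coprime m d ∧ ∃ N : ℕ, N1 ≤ N ∧ (N : ℝ) ≤ Real.exp ((d : ℝ) ^ δ) * N1 ∧
          ¬ Near b k ε (m * (x + c / d)) s N)
      rw [card_range] at this
      exact_mod_cast this
    refine h1.trans ?_
    have h2 : (d : ℝ) ≤ (b : ℝ) ^ (J + 1) := by exact_mod_cast hsm.le
    have h3 : (d : ℝ) ^ δ ≤ C := by
      calc (d : ℝ) ^ δ ≤ (d : ℝ) ^ (1 : ℝ) := Real.rpow_le_rpow_of_exponent_le hdR (by linarith)
        _ = d := Real.rpow_one _
        _ ≤ C := h2.trans hC1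
    calc (d : ℝ) = (d : ℝ) ^ δ * (d : ℝ) ^ (1 - δ) := by
          rw [← Real.rpow_add hd0]; norm_num
      _ ≤ C * (d : ℝ) ^ (1 - δ) := by gcongr
  · set L := Nat.log b d with hL
    have hLJ : J + 1 ≤ L := by
      rw [hL]
      exact (Nat.le_log_iff_pow_le (by omega) (by omega)).2 hbig
    have hJk : (k : ℝ) ≤ J := by
      refine le_trans ?_ hJ1
      rw [le_div_iff₀ hε]
      nlinarith
    have hkJ : k ≤ J := by exact_mod_cast hJk
    have hkL : k ≤ L := by omega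
    have hbL : b ^ L ≤ d := Nat.pow_log_le_self b (by omega)
    have hl : 4 * k / ε ≤ (L + 1 - k : ℕ) := by
      rw [Nat.cast_sub (by omega)]
      push_cast
      have h1 : ((J : ℝ) + 1) ≤ L := by exact_mod_cast hLJ
      have h2 : (k : ℝ) ≤ k / ε := by
        rw [le_div_iff₀ hε]; nlinarith
      have h3 : 5 * (k : ℝ) / ε = 4 * k / ε + k / ε := by ring
      linarith
    have hLd : (L : ℝ) * Real.log b ≤ Real.log d := by
      have h1 : (b : ℝ) ^ L ≤ d := by exact_mod_cast hbL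
      have h2 := Real.log_le_log (by positivity) h1
      rwa [Real.log_pow] at h2
    have hlogd : 0 ≤ Real.log d := Real.log_nonneg hdR
    have hN1' : 4 * (L + 1 - k : ℕ) / ε ≤ N1 := by
      refine le_trans ?_ hN1
      have h1 : ((L + 1 - k : ℕ) : ℝ) ≤ L := by exact_mod_cast (by omega : L + 1 - k ≤ L)
      have h2 : (L : ℝ) * 0.69 ≤ Real.log d := by
        refine le_trans ?_ hLd
        gcongr
        linarith
      have h3 : 4 * ((L + 1 - k : ℕ) : ℝ) ≤ 6 * (1 + Real.log d) := by linarith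
      calc 4 * ((L + 1 - k : ℕ) : ℝ) / ε ≤ 6 * (1 + Real.log d) / ε := by gcongr
        _ = 6 / ε * (1 + Real.log d) := by ring
        _ ≤ C * (1 + Real.log d) := by gcongr
    set Q := ⌈(d : ℝ) ^ δ / Real.log 2⌉₊ with hQ
    have hQ1 : Real.exp ((d : ℝ) ^ δ) ≤ 2 ^ Q := by
      have h1 : (d : ℝ) ^ δ / Real.log 2 ≤ Q := Nat.le_ceil _
      rw [div_le_iff₀ (by linarith)] at h1
      calc Real.exp ((d : ℝ) ^ δ) ≤ Real.exp (Q * Real.log 2) := Real.exp_le_exp.2 h1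
        _ = 2 ^ Q := by rw [mul_comm, Real.exp_mul, Real.exp_log (by norm_num), Real.rpow_natCast]
    have hQ2 : (Q : ℝ) + 2 ≤ 5 * (d : ℝ) ^ δ := by
      have h1 := Nat.ceil_lt_add_one (a := (d : ℝ) ^ δ / Real.log 2) (by positivity)
      have h2 : (d : ℝ) ^ δ / Real.log 2 ≤ 1.5 * (d : ℝ) ^ δ := by
        rw [div_le_iff₀ (by linarith)]
        nlinarith
      have h3 : (Q : ℝ) < (d : ℝ) ^ δ / Real.log 2 + 1 := h1
      linarith
    set M := ⌊(d : ℝ) ^ δ⌋₊ with hM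
    have hM1 : (M : ℝ) + 1 ≤ 2 * (d : ℝ) ^ δ := by
      have := Nat.floor_le (a := (d : ℝ) ^ δ) (by positivity)
      linarith
    let F : ℕ → Finset ℕ := fun m => if Nat.Coprime m d then
      (range d).filter (fun c : ℕ => ∃ N, N1 ≤ N ∧ N ≤ 2 ^ Q * N1 ∧
        ¬ Near b k ε (m * (x + c / d)) s N) else ∅
    have hF : ∀ m, ((F m).card : ℝ) ≤ (Q + 2) * (8 * eta b k L (ε / 4) / ε) * d := by
      intro m
      simp only [F]
      split_ifs with h
      · exact windows b k L d m hb hk hkL hbL hbd h x ε hε hε1 hl s N1 Q hN1'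
      · rw [card_empty, Nat.cast_zero]
        unfold eta
        positivity
    have hsub : (range d).filter (fun c : ℕ => ∃ m : ℕ, (m : ℝ) ≤ (d : ℝ) ^ δ ∧ Nat.Coprime m d ∧
        ∃ N : ℕ, N1 ≤ N ∧ (N : ℝ) ≤ Real.exp ((d : ℝ) ^ δ) * N1 ∧
          ¬ Near b k ε (m * (x + c / d)) s N) ⊆ (range (M + 1)).biUnion F := by
      intro c hc
      rw [mem_filter] at hc
      obtain ⟨hc1, m, hm1, hm2, N, hN2, hN3, hN4⟩ := hc
      rw [mem_biUnion]
      refine ⟨m, mem_range.2 (Nat.lt_succ_of_le (Nat.le_floor hm1)), ?_⟩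
      simp only [F]
      rw [if_pos hm2, mem_filter]
      refine ⟨hc1, N, hN2, ?_, hN4⟩
      have h1 : (N : ℝ) ≤ 2 ^ Q * N1 := hN3.trans (by gcongr)
      exact_mod_cast h1
    have h1 : (((range d).filter (fun c : ℕ => ∃ m : ℕ, (m : ℝ) ≤ (d : ℝ) ^ δ ∧ Nat.Coprime m d ∧
        ∃ N : ℕ, N1 ≤ N ∧ (N : ℝ) ≤ Real.exp ((d : ℝ) ^ δ) * N1 ∧
          ¬ Near b k ε (m * (x + c / d)) s N)).card : ℝ) ≤ ∑ m ∈ range (M + 1), ((F m).card : ℝ) := by
      exact_mod_cast (card_le_card hsub).trans card_biUnion_le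
    refine h1.trans ?_
    have h2 : ∑ m ∈ range (M + 1), ((F m).card : ℝ) ≤
        (M + 1) * ((Q + 2) * (8 * eta b k L (ε / 4) / ε) * d) := by
      calc ∑ m ∈ range (M + 1), ((F m).card : ℝ)
          ≤ ∑ _m ∈ range (M + 1), (Q + 2) * (8 * eta b k L (ε / 4) / ε) * d :=
            sum_le_sum fun m _ => hF m
        _ = _ := by
            rw [sum_const, card_range, nsmul_eq_mul]
            push_cast
            ring
    refine h2.trans ?_
    have h3 := eta_le b k d hb hk hd hkL ε hε hε1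
    rw [← hδ] at h3
    have h0 : 0 ≤ eta b k L (ε / 4) := by unfold eta; positivity
    calc ((M : ℝ) + 1) * ((Q + 2) * (8 * eta b k L (ε / 4) / ε) * d)
        ≤ (2 * (d : ℝ) ^ δ) * ((5 * (d : ℝ) ^ δ) *
          (8 * (8 * k * (b : ℝ) ^ k * (d : ℝ) ^ (-(3 * δ))) / ε) * d) := by gcongr
      _ = 640 * k * (b : ℝ) ^ k / ε *
          ((d : ℝ) ^ δ * (d : ℝ) ^ δ * (d : ℝ) ^ (-(3 * δ)) * (d : ℝ) ^ (1 : ℝ)) := by
          rw [Real.rpow_one]; ring
      _ = 640 * k * (b : ℝ) ^ k / ε * (d : ℝ) ^ (1 - δ) := by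
          rw [← Real.rpow_add hd0, ← Real.rpow_add hd0, ← Real.rpow_add hd0]
          congr 2
          ring
      _ ≤ C * (d : ℝ) ^ (1 - δ) := by gcongr

end Pool.Agent.Helper20K9.Tr
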