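import Pool.Agent.Helper20K9.Tr2

/-!
# Gluing expansions
-/

set_option autoImplicit false

namespace Pool.Agent.Helper20K9.Tr

open Finset Real

lemma floor_succ (b : ℕ) (hb : 0 < b) (t : ℝ) : ⌊t * b⌋ = b * ⌊t⌋ + ⌊t * b⌋ % b := by
  have h1 := Pool.Agent.W226.MP.floor_div_nat t b hb
  have h2 := Int.emod_add_mul_ediv ⌊t * b⌋ (b : ℤ)
  rw [h1] at h2
  linarith

/-- agreeing digits -/
lemma agree (b : ℕ) (hb : 0 < b) (z u : ℝ) (p n : ℕ)
    (h : ∀ s < n, ⌊(b : ℝ) ^ (p + s + 1) * z⌋ % (b : ℤ) = ⌊(b : ℝ) ^ (p + s + 1) * u⌋ % (b : ℤ)) :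
    ∃ e : ℤ, ⌊(b : ℝ) ^ (p + n) * z⌋ - ⌊(b : ℝ) ^ (p + n) * u⌋ = (b : ℤ) ^ n * e := by
  induction n with
  | zero => exact ⟨⌊(b : ℝ) ^ (p + 0) * z⌋ - ⌊(b : ℝ) ^ (p + 0) * u⌋, by rw [pow_zero, one_mul]⟩
  | succ n ih =>
    obtain ⟨e, he⟩ := ih fun s hs => h s (by omega)
    refine ⟨e, ?_⟩
    have h1 := h n (by omega)
    have e1 : ∀ t : ℝ, (b : ℝ) ^ (p + n + 1) * t = ((b : ℝ) ^ (p + n) * t) * b := by
      intro t; rw [pow_succ]; ring
    have h2 := floor_succ b hb ((b : ℝ) ^ (p + n) * z)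
    have h3 := floor_succ b hb ((b : ℝ) ^ (p + n) * u)
    rw [← e1] at h2 h3
    rw [← Nat.add_assoc, h2, h3, h1, pow_succ]
    linear_combination (b : ℤ) * he

lemma stands_congr (b k W : ℕ) (hb : 0 < b) (z u : ℝ) (j : ℕ)
    (h : ∀ s < k, ⌊(b : ℝ) ^ (j + s + 1) * z⌋ % (b : ℤ) = ⌊(b : ℝ) ^ (j + s + 1) * u⌋ % (b : ℤ)) :
    Stands b k W z j ↔ Stands b k W u j := by
  obtain ⟨e, he⟩ := agree b hb z u j k h
  unfold Stands
  have h1 : ⌊(b : ℝ) ^ (j + k) * z⌋ % (b : ℤ) ^ k = ⌊(b : ℝ) ^ (j + k) * u⌋ % (b : ℤ) ^ k := by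
    apply Int.emod_eq_emod_iff_emod_sub_eq_zero.2
    rw [he]
    exact Int.mul_emod_right _ _
  rw [h1]

/-- counts of expansions which agree on a block of places -/
lemma cnt_congr (b k W : ℕ) (hb : 0 < b) (z u : ℝ) (p M T : ℕ) (hMT : M ≤ T)
    (h : ∀ s < T, ⌊(b : ℝ) ^ (p + s + 1) * z⌋ % (b : ℤ) = ⌊(b : ℝ) ^ (p + s + 1) * u⌋ % (b : ℤ)) :
    |(cnt b k W z p M : ℝ) - cnt b k W u p M| ≤ k := by
  classical
  have key : ∀ z u : ℝ, (∀ s < T, ⌊(b : ℝ) ^ (p + s + 1) * z⌋ % (b : ℤ) =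
      ⌊(b : ℝ) ^ (p + s + 1) * u⌋ % (b : ℤ)) → cnt b k W z p M ≤ cnt b k W u p M + k := by
    intro z u h
    unfold cnt
    have hsub : (range M).filter (fun j => Stands b k W z (p + j)) ⊆
        (range M).filter (fun j => Stands b k W u (p + j)) ∪ (Finset.Ico (T - k) T) := by
      intro j hj
      rw [mem_filter, mem_range] at hj
      rw [mem_union, mem_filter, mem_range, mem_Ico]
      by_cases h1 : j + k ≤ T
      · left
        refine ⟨hj.1, (stands_congr b k W hb z u (p + j) fun s hs => ?_).1 hj.2⟩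
        have := h (j + s) (by omega)
        rw [← Nat.add_assoc] at this
        exact this
      · right
        omega
    refine (card_le_card hsub).trans ((card_union_le _ _).trans ?_)
    have : (Finset.Ico (T - k) T).card ≤ k := by
      rw [Nat.card_Ico]; omega
    omega
  have h1 := key z u h
  have h2 := key u z fun s hs => (h s hs).symm
  have h1' : (cnt b k W z p M : ℝ) ≤ cnt b k W u p M + k := by exact_mod_cast h1
  have h2' : (cnt b k W u p M : ℝ) ≤ cnt b k W z p M + k := by exact_mod_cast h2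
  rw [abs_le]
  constructor <;> linarith

/-- the tails of an expansion -/
lemma tail_rec {b : ℕ} (D : ℕ → Fin b) (n : ℕ) :
    ofDigits (fun i => D (i + n)) =
      (((D n : ℕ) : ℝ) + ofDigits (fun i => D (i + (n + 1)))) / b := by
  have h := ofDigits_eq_sum_add_ofDigits (fun i => D (i + n)) 1
  rw [h, sum_range_one, ofDigitsTerm]
  have e : (fun i => (fun i => D (i + n)) (i + 1)) = fun i => D (i + (n + 1)) := by
    funext i
    change D (i + 1 + n) = D (i + (n + 1))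
    congr 1
    ring
  rw [e]
  simp only [zero_add, pow_one]
  ring

lemma tail_lt_one {b : ℕ} (hb : 2 ≤ b) (D : ℕ → Fin b) (hD : ∀ n, ∃ j, n ≤ j ∧ (D j : ℕ) + 1 < b)
    (n : ℕ) : ofDigits (fun i => D (i + n)) < 1 := by
  have hb0 : (0 : ℝ) < b := by exact_mod_cast (by omega : 0 < b)
  obtain ⟨j, hj, hDj⟩ := hD n
  have key : ∀ t n, n + t = j → ofDigits (fun i => D (i + n)) < 1 := by
    intro t
    induction t with
    | zero =>
      intro n hn
      rw [add_zero] at hn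
      subst hn
      rw [tail_rec, div_lt_one hb0]
      have h1 := ofDigits_le_one (fun i => D (i + (n + 1)))
      have h2 : ((D n : ℕ) : ℝ) + 1 < b := by exact_mod_cast hDj
      linarith
    | succ t ih =>
      intro n hn
      rw [tail_rec, div_lt_one hb0]
      have h1 := ih (n + 1) (by omega)
      have h2 : ((D n : ℕ) : ℝ) + 1 ≤ b := by exact_mod_cast (D n).2
      linarith
  exact key (j - n) n (by omega)

/-- the integer parts of an expansion -/
lemma exists_int {b : ℕ} (hb : 2 ≤ b) (D : ℕ → Fin b) (n : ℕ) :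
    ∃ V : ℤ, (b : ℝ) ^ n * ofDigits D = V + ofDigits (fun i => D (i + n)) := by
  have hb0 : (0 : ℝ) < b := by exact_mod_cast (by omega : 0 < b)
  induction n with
  | zero => exact ⟨0, by simp⟩
  | succ n ih =>
    obtain ⟨V, hV⟩ := ih
    refine ⟨b * V + (D n : ℕ), ?_⟩
    rw [pow_succ', mul_assoc, hV, tail_rec]
    push_cast
    field_simp
    ring

/-- **The digits.** -/
lemma digit_ofDigits {b : ℕ} (hb : 2 ≤ b) (D : ℕ → Fin b)
    (hD : ∀ n, ∃ j, n ≤ j ∧ (D j : ℕ) + 1 < b) (n : ℕ) :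
    ⌊(b : ℝ) ^ (n + 1) * ofDigits D⌋ % (b : ℤ) = (D n : ℕ) := by
  have hb0 : (0 : ℝ) < b := by exact_mod_cast (by omega : 0 < b)
  obtain ⟨V, hV⟩ := exists_int hb D n
  have h1 : (b : ℝ) ^ (n + 1) * ofDigits D =
      ((b * V + (D n : ℕ) : ℤ) : ℝ) + ofDigits (fun i => D (i + (n + 1))) := by
    rw [pow_succ', mul_assoc, hV, tail_rec]
    push_cast
    field_simp
    ring
  have h2 := tail_lt_one hb D hD (n + 1)
  have h3 := ofDigits_nonneg (fun i => D (i + (n + 1)))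
  have h4 : ⌊(b : ℝ) ^ (n + 1) * ofDigits D⌋ = b * V + (D n : ℕ) := by
    rw [Int.floor_eq_iff, h1]
    constructor <;> linarith
  rw [h4, Int.mul_add_emod_self_left]
  exact Int.emod_eq_of_lt (by positivity) (by exact_mod_cast (D n).2)

end Pool.Agent.Helper20K9.Tr
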