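import Pool.Agent.Helper20K9.Tr3
import Pool.Agent.Helper20K9.Tr4

/-!
# Translates by concatenations of fractions
-/

set_option autoImplicit false

namespace Pool.Agent.Helper20K9.Tr

open Finset Real

/-- the number of the block of the place `j` -/
def idx (S : ℕ → ℕ) (j : ℕ) : ℕ := Nat.findGreatest (fun i => S i ≤ j) j

lemma idx_eq {S : ℕ → ℕ} (hS : StrictMono S) (i j : ℕ) (h1 : S i ≤ j) (h2 : j < S (i + 1)) :
    idx S j = i := by
  have hle : i ≤ j := (hS.id_le i).trans h1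
  have h3 : i ≤ idx S j := Nat.le_findGreatest hle h1
  have h4 : S (idx S j) ≤ j := by
    have := Nat.findGreatest_spec (P := fun i => S i ≤ j) (m := i) (n := j) hle h1
    exact this
  by_contra hne
  have h5 : i + 1 ≤ idx S j := by omega
  have h6 := hS.monotone h5
  omega

lemma digit_lt (b : ℕ) (hb : 2 ≤ b) (t : ℝ) : (⌊t⌋ % (b : ℤ)).toNat < b := by
  have h1 := Int.emod_nonneg ⌊t⌋ (by omega : (b : ℤ) ≠ 0)
  have h2 := Int.emod_lt_of_pos ⌊t⌋ (by omega : (0 : ℤ) < b)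
  omega

/-- the digits of the glued number -/
noncomputable def glueD (b : ℕ) (hb : 2 ≤ b) (S : ℕ → ℕ) (u : ℕ → ℝ) (j : ℕ) : Fin b :=
  ⟨(⌊(b : ℝ) ^ (j + 1) * u (idx S j)⌋ % (b : ℤ)).toNat, digit_lt b hb _⟩

/-- **The glued number.** -/
lemma glue_digits (b : ℕ) (hb : 2 ≤ b) (S : ℕ → ℕ) (hS : StrictMono S) (u : ℕ → ℝ)
    (hnl : ∀ i, ∃ j, S i ≤ j ∧ j < S (i + 1) ∧
      ⌊(b : ℝ) ^ (j + 1) * u i⌋ % (b : ℤ) ≠ b - 1) :
    ∃ z : ℝ, ∀ i s, S i + s < S (i + 1) →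
      ⌊(b : ℝ) ^ (S i + s + 1) * z⌋ % (b : ℤ) = ⌊(b : ℝ) ^ (S i + s + 1) * u i⌋ % (b : ℤ) := by
  have hval : ∀ i j, S i ≤ j → j < S (i + 1) →
      (((glueD b hb S u j : ℕ) : ℤ)) = ⌊(b : ℝ) ^ (j + 1) * u i⌋ % (b : ℤ) := by
    intro i j h1 h2
    have e : (((glueD b hb S u j : ℕ) : ℤ)) =
        ((⌊(b : ℝ) ^ (j + 1) * u (idx S j)⌋ % (b : ℤ)).toNat : ℤ) := rfl
    rw [e, idx_eq hS i j h1 h2]
    exact Int.toNat_of_nonneg (Int.emod_nonneg _ (by omega))
  refine ⟨ofDigits (glueD b hb S u), fun i s hs => ?_⟩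
  rw [digit_ofDigits hb _ ?_ (S i + s)]
  · exact hval i (S i + s) (by omega) hs
  · intro n
    obtain ⟨j, h1, h2, h3⟩ := hnl n
    refine ⟨j, (hS.id_le n).trans h1, ?_⟩
    rw [← hval n j h1 h2] at h3
    have := (glueD b hb S u j).2
    omega

/-- the counts of the glued number -/
lemma glue_cnt (b k W : ℕ) (hb : 2 ≤ b) (S : ℕ → ℕ) (hS : StrictMono S) (hS0 : S 0 = 0)
    (u : ℕ → ℝ) (z : ℝ) (hz : ∀ i s, S i + s < S (i + 1) →
      ⌊(b : ℝ) ^ (S i + s + 1) * z⌋ % (b : ℤ) = ⌊(b : ℝ) ^ (S i + s + 1) * u i⌋ % (b : ℤ))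
    (ε : ℝ) (hε : 0 ≤ ε) (N1 : ℕ → ℕ) (hN1 : ∀ i, N1 i ≤ S (i + 1) - S i)
    (hnear : ∀ i M, N1 i ≤ M → M ≤ S (i + 1) - S i →
      |(cnt b k W (u i) (S i) M : ℝ) - M / (b : ℝ) ^ k| ≤ ε * M) (i M : ℕ)
    (hM : M ≤ S (i + 1) - S i) :
    |(cnt b k W z 0 (S i + M) : ℝ) - (S i + M : ℕ) / (b : ℝ) ^ k| ≤
      ε * (S i + M : ℕ) + k * (i + 1) + (if M < N1 i then (M : ℝ) else 0) := by
  have hb0 : (0 : ℝ) < b := by exact_mod_cast (by omega : 0 < b)
  have hcong : ∀ i M, M ≤ S (i + 1) - S i →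
      |(cnt b k W z (S i) M : ℝ) - cnt b k W (u i) (S i) M| ≤ k := by
    intro i M hM
    apply cnt_congr b k W (by omega) z (u i) (S i) M (S (i + 1) - S i) hM
    intro s hs
    exact hz i s (by omega)
  have hblock : ∀ i M, N1 i ≤ M → M ≤ S (i + 1) - S i →
      |(cnt b k W z (S i) M : ℝ) - M / (b : ℝ) ^ k| ≤ ε * M + k := by
    intro i M h1 h2
    have h3 := hcong i M h2
    have h4 := hnear i M h1 h2
    have e : (cnt b k W z (S i) M : ℝ) - M / (b : ℝ) ^ k =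
        ((cnt b k W z (S i) M : ℝ) - cnt b k W (u i) (S i) M) +
        ((cnt b k W (u i) (S i) M : ℝ) - M / (b : ℝ) ^ k) := by ring
    rw [e]
    refine (abs_add_le _ _).trans ?_
    linarith
  have hfull : ∀ i, |(cnt b k W z 0 (S i) : ℝ) - (S i : ℕ) / (b : ℝ) ^ k| ≤
      ε * (S i : ℕ) + k * i := by
    intro i
    induction i with
    | zero => rw [hS0]; simp [cnt]
    | succ i ih =>
      have h1 := hblock i (S (i + 1) - S i) (hN1 i) le_rfl
      have hlt := hS (Nat.lt_succ_self i)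
      have h2 : S (i + 1) = S i + (S (i + 1) - S i) := by
        have := hlt
        simp only [Nat.succ_eq_add_one] at this
        omega
      have h3 : (cnt b k W z 0 (S (i + 1)) : ℝ) =
          cnt b k W z 0 (S i) + cnt b k W z (S i) (S (i + 1) - S i) := by
        conv_lhs => rw [h2]
        rw [cnt_add, Nat.zero_add]
        push_cast
        ring
      have h4 : ((S (i + 1) : ℕ) : ℝ) = S i + ((S (i + 1) - S i : ℕ) : ℝ) := by
        conv_lhs => rw [h2]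
        push_cast
        ring
      rw [h3, h4]
      have e : (cnt b k W z 0 (S i) : ℝ) + cnt b k W z (S i) (S (i + 1) - S i) -
          (S i + ((S (i + 1) - S i : ℕ) : ℝ)) / (b : ℝ) ^ k =
          ((cnt b k W z 0 (S i) : ℝ) - S i / (b : ℝ) ^ k) +
          ((cnt b k W z (S i) (S (i + 1) - S i) : ℝ) - ((S (i + 1) - S i : ℕ) : ℝ) / (b : ℝ) ^ k) := by
        ring
      rw [e]
      refine (abs_add_le _ _).trans ?_
      push_cast
      linarith
  have h1 : |(cnt b k W z (S i) M : ℝ) - M / (b : ℝ) ^ k| ≤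
      ε * M + k + (if M < N1 i then (M : ℝ) else 0) := by
    split_ifs with h
    · have h2 := abs_cnt b k W hb z (S i) M
      have h3 : (0 : ℝ) ≤ ε * M + k := by positivity
      linarith
    · rw [add_zero]
      exact hblock i M (by omega) hM
  have h2 := hfull i
  rw [cnt_add, Nat.zero_add]
  push_cast
  have e : (cnt b k W z 0 (S i) : ℝ) + cnt b k W z (S i) M - (S i + M) / (b : ℝ) ^ k =
      ((cnt b k W z 0 (S i) : ℝ) - S i / (b : ℝ) ^ k) +
      ((cnt b k W z (S i) M : ℝ) - M / (b : ℝ) ^ k) := by ring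
  rw [e]
  refine (abs_add_le _ _).trans ?_
  linarith

/-- a digit which is not the last one -/
lemma exists_digit (b k : ℕ) (hb : 2 ≤ b) (hk : 1 ≤ k) (u : ℝ) (p T : ℕ) (ε : ℝ)
    (hε : ε * (4 * (b : ℝ) ^ k) ≤ 1) (hT : 2 * k * b ^ k < T)
    (h : |(cnt b k 0 u p T : ℝ) - T / (b : ℝ) ^ k| ≤ ε * T) :
    ∃ j, p ≤ j ∧ j < p + T ∧ ⌊(b : ℝ) ^ (j + 1) * u⌋ % (b : ℤ) ≠ b - 1 := by
  classical
  by_contra hcon
  push Not at hcon
  have hb0 : (0 : ℝ) < b := by exact_mod_cast (by omega : 0 < b)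
  have hbk : (0 : ℝ) < (b : ℝ) ^ k := by positivity
  have h1 : cnt b k 0 u p T ≤ k := by
    unfold cnt
    have hsub : (range T).filter (fun j => Stands b k 0 u (p + j)) ⊆ Finset.Ico (T - k) T := by
      intro j hj
      rw [mem_filter, mem_range] at hj
      rw [mem_Ico]
      refine ⟨?_, hj.1⟩
      by_contra hlt
      push Not at hlt
      have h2 := hj.2
      unfold Stands at h2
      have h3 := hcon (p + j + k - 1) (by omega) (by omega)
      have e : p + j + k - 1 + 1 = p + j + k := by omega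
      rw [e] at h3
      have h4 : (b : ℤ) ∣ (b : ℤ) ^ k := dvd_pow_self _ (by omega)
      have h5 := Int.emod_emod_of_dvd ⌊(b : ℝ) ^ (p + j + k) * u⌋ h4
      rw [h2, h3] at h5
      simp at h5
      omega
    refine (card_le_card hsub).trans ?_
    rw [Nat.card_Ico]
    omega
  have h2 : (cnt b k 0 u p T : ℝ) ≤ k := by exact_mod_cast h1
  have h3 := (abs_le.1 h).1
  have h4 : (2 * k * (b : ℝ) ^ k) < T := by exact_mod_cast hT
  have h5 : (T : ℝ) / (b : ℝ) ^ k ≤ k + ε * T := by linarith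
  rw [div_le_iff₀ hbk] at h5
  have h6 : ε * T * (b : ℝ) ^ k ≤ T / 4 := by
    have hT0 : (0 : ℝ) ≤ T := Nat.cast_nonneg _
    have := mul_le_mul_of_nonneg_right hε hT0
    linarith
  nlinarith

end Pool.Agent.Helper20K9.Tr
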