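import Pool.Agent.Helper20K9.Tr5

/-!
# Translates by concatenations of fractions: the theorem
-/

set_option autoImplicit false

namespace Pool.Agent.Helper20K9.Tr

open Finset Real Filter

/-- the block boundaries -/
def bd (A n : ℕ) (i : ℕ) : ℕ := if i = 0 then 0 else A ^ i * n

lemma bd_zero (A n : ℕ) : bd A n 0 = 0 := rfl

lemma bd_succ (A n i : ℕ) : bd A n (i + 1) = A ^ (i + 1) * n := by
  unfold bd
  rw [if_neg (by omega)]

lemma bd_strict (A n : ℕ) (hA : 2 ≤ A) (hn : 1 ≤ n) : StrictMono (bd A n) := by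
  apply strictMono_nat_of_lt_succ
  intro i
  rw [bd_succ]
  rcases Nat.eq_zero_or_pos i with h | h
  · subst h
    rw [bd_zero]
    positivity
  · obtain ⟨j, rfl⟩ : ∃ j, i = j + 1 := ⟨i - 1, by omega⟩
    rw [bd_succ]
    apply Nat.mul_lt_mul_of_pos_right _ (by omega)
    exact Nat.pow_lt_pow_right (by omega) (by omega)

/-- parameters -/
lemma params (ε δ C : ℝ) (hε : 0 < ε) (hδ : 0 < δ) :
    ∃ d0 : ℕ, ∀ d : ℕ, d0 ≤ d → 1 ≤ d ∧ C < (d : ℝ) ^ δ ∧
      Real.exp ((d : ℝ) ^ (δ / 2)) + 4 + 1 / ε ≤ ε * Real.exp ((d : ℝ) ^ δ) := by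
  have h1 : Tendsto (fun d : ℕ => (d : ℝ) ^ δ) atTop atTop :=
    (tendsto_rpow_atTop hδ).comp tendsto_natCast_atTop_atTop
  have h2 : Tendsto (fun d : ℕ => (d : ℝ) ^ (δ / 2)) atTop atTop :=
    (tendsto_rpow_atTop (half_pos hδ)).comp tendsto_natCast_atTop_atTop
  have h3 : Tendsto (fun d : ℕ => ε * Real.exp ((d : ℝ) ^ (δ / 2))) atTop atTop :=
    (Real.tendsto_exp_atTop.comp h2).const_mul_atTop hε
  have h4 := (h1.eventually_gt_atTop C).and ((h2.eventually_ge_atTop 2).and
    ((h3.eventually_ge_atTop (5 + 1 / ε)).and (eventually_ge_atTop 1)))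
  obtain ⟨d0, hd0⟩ := eventually_atTop.1 h4
  refine ⟨d0, fun d hd => ?_⟩
  obtain ⟨h5, h6, h7, h8⟩ := hd0 d hd
  refine ⟨h8, h5, ?_⟩
  set t := (d : ℝ) ^ (δ / 2) with ht
  have ht2 : (d : ℝ) ^ δ = t * t := by
    have hd1 : (0 : ℝ) < d := by exact_mod_cast (by omega : 0 < d)
    rw [ht, ← Real.rpow_add hd1]
    congr 1
    ring
  have h9 : Real.exp t * Real.exp t ≤ Real.exp ((d : ℝ) ^ δ) := by
    rw [← Real.exp_add, ht2]
    apply Real.exp_le_exp.2
    nlinarith
  have h10 : 1 ≤ Real.exp t := Real.one_le_exp (by linarith)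
  have h11 : (5 + 1 / ε) * Real.exp t ≤ ε * Real.exp ((d : ℝ) ^ δ) := by
    calc (5 + 1 / ε) * Real.exp t ≤ (ε * Real.exp t) * Real.exp t := by gcongr
      _ = ε * (Real.exp t * Real.exp t) := by ring
      _ ≤ _ := by gcongr
  have h12 : 0 < 1 / ε := by positivity
  nlinarith

open Classical in
/-- **Translates by concatenations of fractions.** -/
theorem concat (b k : ℕ) (hb : 2 ≤ b) (hk : 1 ≤ k) (ε : ℝ) (hε : 0 < ε) (hε1 : ε ≤ 1) :
    ∃ δ : ℝ, 0 < δ ∧ ∃ C : ℝ, 1 ≤ C ∧ ∃ d0 : ℕ, ∀ d : ℕ, d0 ≤ d → Nat.Coprime b d → ∀ x : ℝ,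
      ∃ (y : ℝ) (c S : ℕ → ℕ), (∀ i, c i < d) ∧ S 0 = 0 ∧ StrictMono S ∧
        (∀ i, Real.exp ((d : ℝ) ^ δ) * S i ≤ S (i + 1)) ∧
        (∀ i j, S i ≤ j → j ≤ S (i + 1) → ∃ h : ℤ,
          |(b : ℝ) ^ j * (y - c i / d) - h| ≤ (b : ℝ) ^ j / (b : ℝ) ^ S (i + 1)) ∧
        ∀ N : ℕ, C * (1 + Real.log d) ≤ N → Near b k ε (x + y) 0 N := by
  have hb1 : (1 : ℝ) < b := by exact_mod_cast (by omega : 1 < b)
  have hb0 : (0 : ℝ) < b := by linarith
  have hbk : (1 : ℝ) ≤ (b : ℝ) ^ k := one_le_pow₀ hb1.le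
  have hkR : (1 : ℝ) ≤ k := by exact_mod_cast hk
  set e : ℝ := ε / (4 * (b : ℝ) ^ k) with he
  have he0 : 0 < e := by positivity
  have he1 : e * (4 * (b : ℝ) ^ k) ≤ 1 := by
    rw [he]
    field_simp
    exact hε1
  have he4 : 4 * e ≤ ε := by
    rw [he]
    have h1 : 4 * (ε / (4 * (b : ℝ) ^ k)) = ε / (b : ℝ) ^ k := by field_simp
    rw [h1]
    exact div_le_self hε.le hbk
  have he14 : e ≤ 1 / 4 := by linarith
  obtain ⟨δ, hδ, hδ1, C, hC, hcount⟩ := count b k hb hk e he0 (by linarith)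
  obtain ⟨d0, hd0⟩ := params e δ C he0 hδ
  set C2 : ℝ := C + (k + 1) / e + 2 * k * (b : ℝ) ^ k + 1 with hC2
  have hC2' : 1 ≤ C2 := by
    rw [hC2]
    have : 0 ≤ (k + 1) / e + 2 * k * (b : ℝ) ^ k := by positivity
    linarith
  refine ⟨δ / 2, half_pos hδ, C2 + 1, by linarith, d0, fun d hd hbd x => ?_⟩
  obtain ⟨hd1, hdC, hdexp⟩ := hd0 d hd
  have hdR : (1 : ℝ) ≤ d := by exact_mod_cast hd1
  have hdpos : (0 : ℝ) < d := by linarith
  have hlog : 0 ≤ Real.log d := Real.log_nonneg hdR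
  set n := ⌈C2 * (1 + Real.log d)⌉₊ with hn
  have hn1 : C2 * (1 + Real.log d) ≤ n := Nat.le_ceil _
  have hn2 : (n : ℝ) ≤ (C2 + 1) * (1 + Real.log d) := by
    have h1 := Nat.ceil_lt_add_one (a := C2 * (1 + Real.log d)) (by positivity)
    have h2 : (n : ℝ) < C2 * (1 + Real.log d) + 1 := h1
    nlinarith
  have hnC2 : C2 ≤ n := by
    refine le_trans ?_ hn1
    nlinarith
  have hn0 : 1 ≤ n := by
    have : (1 : ℝ) ≤ n := hC2'.trans hnC2
    exact_mod_cast this
  have hnC : C * (1 + Real.log d) ≤ n := by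
    refine le_trans ?_ hn1
    apply mul_le_mul_of_nonneg_right _ (by positivity)
    rw [hC2]
    have : 0 ≤ (k + 1) / e + 2 * k * (b : ℝ) ^ k := by positivity
    linarith
  have hnk : (k + 1) / e ≤ n := by
    refine le_trans ?_ hnC2
    rw [hC2]
    have : 0 ≤ 2 * k * (b : ℝ) ^ k := by positivity
    linarith
  have hnb : 2 * k * b ^ k < n := by
    have h1 : (2 * k * (b : ℝ) ^ k : ℝ) < n := by
      refine lt_of_lt_of_le ?_ hnC2
      rw [hC2]
      have : 0 ≤ (k + 1) / e := by positivity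
      linarith
    exact_mod_cast h1
  set G := Real.exp ((d : ℝ) ^ δ) with hG
  set A := ⌊e * G⌋₊ with hA
  have hAG : (A : ℝ) ≤ e * G := Nat.floor_le (by positivity)
  have hAG2 : e * G < A + 1 := Nat.lt_floor_add_one _
  have hexp1 : 0 < Real.exp ((d : ℝ) ^ (δ / 2)) := Real.exp_pos _
  have hie : 0 < 1 / e := by positivity
  have hA3R : (3 : ℝ) ≤ A := by linarith
  have hA3 : 3 ≤ A := by exact_mod_cast hA3R
  have hAe : 1 / e ≤ A := by linarith
  have hAexp : Real.exp ((d : ℝ) ^ (δ / 2)) ≤ A := by linarith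
  set S := bd A n with hS
  have hSm : StrictMono S := bd_strict A n (by omega) hn0
  have hS0 : S 0 = 0 := bd_zero A n
  let N1 : ℕ → ℕ := fun i => if i = 0 then n else ⌈e * S i⌉₊
  -- the conditions for the windows
  have hSi : ∀ i, 1 ≤ i → A * n ≤ S i := by
    intro i hi
    have h1 := hSm.monotone hi
    have h2 : S 1 = A * n := by
      rw [hS, bd_succ, zero_add, pow_one]
    rw [← h2]
    exact h1
  have hSsucc : ∀ i, 1 ≤ i → S (i + 1) = A * S i := by
    intro i hi
    obtain ⟨j, rfl⟩ : ∃ j, i = j + 1 := ⟨i - 1, by omega⟩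
    rw [hS, bd_succ, bd_succ, pow_succ A (j + 1)]
    ring
  have hN1a : ∀ i, n ≤ N1 i := by
    intro i
    simp only [N1]
    split_ifs with h
    · exact le_rfl
    · have h1 : ((A * n : ℕ) : ℝ) ≤ S i := by exact_mod_cast hSi i (by omega)
      have h2 : (n : ℝ) ≤ e * S i := by
        push_cast at h1
        calc (n : ℝ) = (e * (1 / e)) * n := by field_simp
          _ ≤ (e * A) * n := by gcongr
          _ = e * (A * n) := by ring
          _ ≤ e * S i := by gcongr
      have h3 : (n : ℝ) ≤ ⌈e * S i⌉₊ := h2.trans (Nat.le_ceil _)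
      exact_mod_cast h3
  have hN1b : ∀ i, ((S (i + 1) - S i : ℕ) : ℝ) ≤ G * N1 i := by
    intro i
    simp only [N1]
    split_ifs with h
    · subst h
      rw [hS0, Nat.sub_zero, zero_add]
      have h2 : S 1 = A * n := by
        rw [hS, bd_succ, zero_add, pow_one]
      rw [h2]
      push_cast
      have h3 : (A : ℝ) ≤ G := by
        refine hAG.trans ?_
        have : 0 < G := Real.exp_pos _
        nlinarith
      gcongr
    · have h1 : ((S (i + 1) - S i : ℕ) : ℝ) ≤ S (i + 1) := by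
        exact_mod_cast Nat.sub_le _ _
      refine h1.trans ?_
      rw [hSsucc i (by omega)]
      push_cast
      have h3 : e * (S i : ℝ) ≤ ⌈e * S i⌉₊ := Nat.le_ceil _
      have hG0 : 0 < G := Real.exp_pos _
      calc (A : ℝ) * S i ≤ (e * G) * S i := by gcongr
        _ = G * (e * S i) := by ring
        _ ≤ _ := by gcongr
  have hN1c : ∀ i, N1 i ≤ S (i + 1) - S i := by
    intro i
    simp only [N1]
    split_ifs with h
    · subst h
      rw [hS0, Nat.sub_zero, zero_add]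
      have h2 : S 1 = A * n := by
        rw [hS, bd_succ, zero_add, pow_one]
      rw [h2]
      nlinarith
    · rw [hSsucc i (by omega)]
      have h2 : 1 ≤ S i := by
        have := hSi i (by omega)
        have h3 : 1 ≤ A * n := Nat.mul_pos (by omega) hn0
        omega
      have h3 : ⌈e * S i⌉₊ ≤ S i := by
        apply Nat.ceil_le.2
        have : (0 : ℝ) ≤ S i := Nat.cast_nonneg _
        nlinarith
      have h4 : 3 * S i ≤ A * S i := Nat.mul_le_mul_right _ hA3
      omega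
  -- the numerators
  have hgood : ∀ i, ∃ c < d, ∀ M, N1 i ≤ M → M ≤ S (i + 1) - S i →
      Near b k e (x + c / d) (S i) M := by
    intro i
    have h1 := hcount d hd1 hbd x (S i) (N1 i) (hnC.trans (by exact_mod_cast hN1a i))
    have h2 : C * (d : ℝ) ^ (1 - δ) < d := by
      calc C * (d : ℝ) ^ (1 - δ) < (d : ℝ) ^ δ * (d : ℝ) ^ (1 - δ) :=
            mul_lt_mul_of_pos_right hdC (by positivity)
        _ = d := by rw [← Real.rpow_add hdpos]; norm_num
    have h3 := lt_of_le_of_lt h1 h2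
    have h4 : ((range d).filter (fun c : ℕ => ∃ m : ℕ, (m : ℝ) ≤ (d : ℝ) ^ δ ∧ Nat.Coprime m d ∧
        ∃ N : ℕ, N1 i ≤ N ∧ (N : ℝ) ≤ Real.exp ((d : ℝ) ^ δ) * N1 i ∧
          ¬ Near b k e (m * (x + c / d)) (S i) N)).card < d := by exact_mod_cast h3
    obtain ⟨c, hc, hc2⟩ : ∃ c ∈ range d, c ∉ (range d).filter (fun c : ℕ => ∃ m : ℕ,
        (m : ℝ) ≤ (d : ℝ) ^ δ ∧ Nat.Coprime m d ∧
        ∃ N : ℕ, N1 i ≤ N ∧ (N : ℝ) ≤ Real.exp ((d : ℝ) ^ δ) * N1 i ∧
          ¬ Near b k e (m * (x + c / d)) (S i) N) := by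
      by_contra hcon
      push Not at hcon
      have h5 := card_le_card hcon
      rw [card_range] at h5
      omega
    refine ⟨c, mem_range.1 hc, fun M hM1 hM2 => ?_⟩
    rw [mem_filter, not_and] at hc2
    have h5 := hc2 hc
    push Not at h5
    have h6 := h5 1 (by
      push_cast
      exact Real.one_le_rpow hdR hδ.le) (Nat.coprime_one_left d) M hM1 ((by
        exact_mod_cast hM2 : (M : ℝ) ≤ ((S (i + 1) - S i : ℕ) : ℝ)).trans (hN1b i))
    rw [Nat.cast_one, one_mul] at h6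
    exact h6
  choose c hc hnear using hgood
  have hnear' : ∀ W < b ^ k, ∀ i M, N1 i ≤ M → M ≤ S (i + 1) - S i →
      |(cnt b k W (x + c i / d) (S i) M : ℝ) - M / (b : ℝ) ^ k| ≤ e * M :=
    fun W hW i M h1 h2 => hnear i M h1 h2 W hW
  obtain ⟨z, hz⟩ := glue_digits b hb S hSm (fun i => x + c i / d) (by
    intro i
    have h1 := hnear' 0 (Nat.pow_pos (by omega)) i (S (i + 1) - S i) (hN1c i) le_rfl
    have h2 : 2 * k * b ^ k < S (i + 1) - S i :=
      lt_of_lt_of_le hnb ((hN1a i).trans (hN1c i))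
    obtain ⟨j, hj1, hj2, hj3⟩ := exists_digit b k hb hk (x + c i / d) (S i) (S (i + 1) - S i) e
      he1 h2 h1
    have h3 := hSm (Nat.lt_succ_self i)
    exact ⟨j, hj1, by simp only [Nat.succ_eq_add_one] at h3; omega, hj3⟩)
  refine ⟨z - x, c, S, hc, hS0, hSm, ?_, ?_, ?_⟩
  · intro i
    rcases Nat.eq_zero_or_pos i with h | h
    · subst h
      rw [hS0]
      simp
    · rw [hSsucc i h]
      push_cast
      gcongr
  · intro i j hj1 hj2
    obtain ⟨h, hh⟩ := agree b (by omega) z (x + c i / d) j (S (i + 1) - j) (by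
      intro s hs
      have := hz i (j - S i + s) (by omega)
      have e1 : S i + (j - S i + s) + 1 = j + s + 1 := by omega
      rw [e1] at this
      exact this)
    have e1 : j + (S (i + 1) - j) = S (i + 1) := by omega
    rw [e1] at hh
    refine ⟨h, ?_⟩
    have hbT : (0 : ℝ) < (b : ℝ) ^ S (i + 1) := by positivity
    rw [le_div_iff₀ hbT]
    have e2 : (b : ℝ) ^ S (i + 1) = (b : ℝ) ^ j * (b : ℝ) ^ (S (i + 1) - j) := by
      rw [← pow_add, e1]
    have h1 : (⌊(b : ℝ) ^ S (i + 1) * z⌋ : ℝ) - ⌊(b : ℝ) ^ S (i + 1) * (x + c i / d)⌋ =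
        (b : ℝ) ^ (S (i + 1) - j) * h := by exact_mod_cast hh
    have h2 := Int.floor_add_fract ((b : ℝ) ^ S (i + 1) * z)
    have h3 := Int.floor_add_fract ((b : ℝ) ^ S (i + 1) * (x + c i / d))
    have h4 := Int.fract_nonneg ((b : ℝ) ^ S (i + 1) * z)
    have h5 := Int.fract_lt_one ((b : ℝ) ^ S (i + 1) * z)
    have h6 := Int.fract_nonneg ((b : ℝ) ^ S (i + 1) * (x + c i / d))
    have h7 := Int.fract_lt_one ((b : ℝ) ^ S (i + 1) * (x + c i / d))
    have h8 : ((b : ℝ) ^ j * (z - x - c i / d) - h) * (b : ℝ) ^ (S (i + 1) - j) =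
        Int.fract ((b : ℝ) ^ S (i + 1) * z) - Int.fract ((b : ℝ) ^ S (i + 1) * (x + c i / d)) := by
      have h9 : ((b : ℝ) ^ j * (z - x - c i / d) - h) * (b : ℝ) ^ (S (i + 1) - j) =
          (b : ℝ) ^ S (i + 1) * z - (b : ℝ) ^ S (i + 1) * (x + c i / d) -
            (b : ℝ) ^ (S (i + 1) - j) * h := by
        rw [e2]; ring
      rw [h9, ← h1]
      linarith
    have h9 : |((b : ℝ) ^ j * (z - x - c i / d) - h) * (b : ℝ) ^ (S (i + 1) - j)| ≤ 1 := by
      rw [h8, abs_le]
      constructor <;> linarith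
    have h10 : (0 : ℝ) < (b : ℝ) ^ (S (i + 1) - j) := by positivity
    rw [abs_mul, abs_of_pos h10] at h9
    calc |(b : ℝ) ^ j * (z - x - c i / d) - h| * (b : ℝ) ^ S (i + 1)
        = (b : ℝ) ^ j * (|(b : ℝ) ^ j * (z - x - c i / d) - h| * (b : ℝ) ^ (S (i + 1) - j)) := by
          rw [e2]; ring
      _ ≤ (b : ℝ) ^ j * 1 := by gcongr
      _ = _ := mul_one _
  · intro N hN W hW
    have hnN : n ≤ N := by
      have : (n : ℝ) ≤ N := hn2.trans hN
      exact_mod_cast this
    have exz : x + (z - x) = z := by ring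
    rw [exz]
    -- the block of N
    have hex : ∃ i, N < S (i + 1) := ⟨N, lt_of_lt_of_le (Nat.lt_succ_self N) (hSm.id_le (N + 1))⟩
    set i := Nat.find hex with hi
    have hi1 : N < S (i + 1) := Nat.find_spec hex
    have hi2 : S i ≤ N := by
      rcases Nat.eq_zero_or_pos i with h | h
      · rw [h, hS0]; exact Nat.zero_le _
      · have := Nat.find_min hex (m := i - 1) (by omega)
        rw [Nat.sub_add_cancel h] at this
        omega
    have h1 := glue_cnt b k W hb S hSm hS0 (fun i => x + c i / d) z hz e he0.le N1 hN1c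
      (hnear' W hW) i (N - S i) (by omega)
    have e1 : S i + (N - S i) = N := by omega
    rw [e1] at h1
    refine h1.trans ?_
    have hNR : (n : ℝ) ≤ N := by exact_mod_cast hnN
    have hN0 : (0 : ℝ) ≤ N := Nat.cast_nonneg _
    -- the boundaries
    have h2 : ((i : ℝ) + 1) * n ≤ N := by
      rcases Nat.eq_zero_or_pos i with h | h
      · rw [h, Nat.cast_zero, zero_add, one_mul]; exact hNR
      · obtain ⟨j, hj⟩ : ∃ j, i = j + 1 := ⟨i - 1, by omega⟩
        have h3 : S i = A ^ i * n := by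
          rw [hj, hS, bd_succ]
        have h4 : i + 1 ≤ A ^ i := by
          have h5 : i < 2 ^ i := Nat.lt_two_pow_self
          have h6 : 2 ^ i ≤ A ^ i := Nat.pow_le_pow_left (by omega) i
          omega
        have h5 : (i + 1) * n ≤ N := by
          calc (i + 1) * n ≤ A ^ i * n := Nat.mul_le_mul_right _ h4
            _ = S i := h3.symm
            _ ≤ N := hi2
        exact_mod_cast h5
    have h3 : (k : ℝ) * (i + 1) ≤ e * N := by
      have h4 : (k : ℝ) ≤ e * n := by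
        rw [div_le_iff₀ he0] at hnk
        linarith
      calc (k : ℝ) * (i + 1) ≤ (e * n) * (i + 1) := by gcongr
        _ = e * ((i + 1) * n) := by ring
        _ ≤ e * N := by gcongr
    have h4 : (1 : ℝ) ≤ e * N := by
      rw [div_le_iff₀ he0] at hnk
      have : (n : ℝ) * e ≤ N * e := by gcongr
      linarith
    have h5 : (if N - S i < N1 i then ((N - S i : ℕ) : ℝ) else 0) ≤ e * N + 1 := by
      split_ifs with h
      · rcases Nat.eq_zero_or_pos i with h0 | h0
        · exfalso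
          rw [h0, hS0] at h
          simp only [N1, if_true] at h
          omega
        · have h6 : N1 i = ⌈e * S i⌉₊ := by
            simp only [N1]
            rw [if_neg (by omega)]
          rw [h6] at h
          have h7 : ((N - S i : ℕ) : ℝ) ≤ e * S i := (Nat.lt_ceil.1 h).le
          have h8 : (S i : ℝ) ≤ N := by exact_mod_cast hi2
          have h9 : e * (S i : ℝ) ≤ e * N := by gcongr
          linarith
      · positivity
    have h6 : 4 * e * N ≤ ε * N := by gcongr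
    linarith

end Pool.Agent.Helper20K9.Tr
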