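import Mathlib

/-!
The equation with exponents `2 m`, `2`, `r`: the structure of the base of the `r`-th power.
-/

set_option autoImplicit false

namespace Pool.Agent.Helper20K9.TW

open Finset

/-- every prime factor occurs with exponent at least two -/
def SqFull (n : ℕ) : Prop := ∀ l : ℕ, l.Prime → l ∣ n → l ^ 2 ∣ n

theorem sqfull_of {a Q x m r : ℕ} (hm : 3 ≤ m) (hr : r.Prime) (h : a * Q = x ^ m)
    (h1 : ∀ l : ℕ, l.Prime → l ≠ r → l ∣ a → ¬ l ∣ Q) (h2 : r ∣ a → ¬ r ^ 2 ∣ Q) : SqFull a := by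
  intro l hl hla
  have hlx : l ∣ x := hl.dvd_of_dvd_pow (n := m) (by rw [← h]; exact hla.mul_right Q)
  have h3 : l ^ 3 ∣ a * Q := by
    rw [h]
    exact (pow_dvd_pow_of_dvd hlx 3).trans (pow_dvd_pow x hm)
  by_cases hlr : l = r
  · subst hlr
    by_cases hQ : l ∣ Q
    · obtain ⟨Q', rfl⟩ := hQ
      have hQ' : ¬ l ∣ Q' := by
        rintro ⟨Q'', rfl⟩
        exact h2 hla ⟨Q'', by ring⟩
      have h4 : l * l ^ 2 ∣ l * (a * Q') := by
        have e1 : l * l ^ 2 = l ^ 3 := by ring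
        have e2 : l * (a * Q') = a * (l * Q') := by ring
        rw [e1, e2]; exact h3
      have h5 : l ^ 2 ∣ a * Q' := (Nat.mul_dvd_mul_iff_left hl.pos).1 h4
      exact (Nat.Coprime.pow_left 2 ((Nat.Prime.coprime_iff_not_dvd hl).2 hQ')).dvd_of_dvd_mul_right h5
    · have h5 : l ^ 3 ∣ a :=
        (Nat.Coprime.pow_left 3 ((Nat.Prime.coprime_iff_not_dvd hl).2 hQ)).dvd_of_dvd_mul_right h3
      exact (pow_dvd_pow l (by norm_num)).trans h5
  · have h5 : l ^ 3 ∣ a :=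
      (Nat.Coprime.pow_left 3 ((Nat.Prime.coprime_iff_not_dvd hl).2 (h1 l hl hlr hla))).dvd_of_dvd_mul_right h3
    exact (pow_dvd_pow l (by norm_num)).trans h5

/-- the geometric sum -/
def TT {R : Type*} [CommRing R] (r : ℕ) (v w : R) : R := ∑ i ∈ range r, v ^ i * w ^ (r - 1 - i)

theorem TT_mul {R : Type*} [CommRing R] (r : ℕ) (v w : R) : TT r v w * (v - w) = v ^ r - w ^ r := by
  unfold TT
  exact Commute.geom_sum₂_mul (Commute.all v w) r

/-- integers -/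
theorem int_case {v w : ℤ} {x m r : ℕ} (hm : 3 ≤ m) (hr : r.Prime) (hr3 : 3 ≤ r)
    (hco : IsCoprime v w) (d : ℕ) (hd : 0 < d) (hvw : v - w = 2 * (d : ℤ)) (h : v ^ r - w ^ r = 2 * (x : ℤ) ^ m) :
    SqFull d := by
  obtain ⟨T, hT⟩ : ∃ T : ℤ, T = TT r v w := ⟨_, rfl⟩
  have h0 : T * (v - w) = v ^ r - w ^ r := by rw [hT]; exact TT_mul r v w
  have h1 : T * d = (x : ℤ) ^ m := by
    rw [hvw, h] at h0
    linarith
  have hT0 : 0 ≤ T := by
    have : 0 ≤ T * d := by rw [h1]; positivity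
    exact nonneg_of_mul_nonneg_left this (by exact_mod_cast hd)
  obtain ⟨Q, rfl⟩ : ∃ Q : ℕ, T = (Q : ℤ) := ⟨T.toNat, (Int.toNat_of_nonneg hT0).symm⟩
  have h2 : d * Q = x ^ m := by
    have : (Q : ℤ) * d = (x : ℤ) ^ m := h1
    have h3 : ((d * Q : ℕ) : ℤ) = ((x ^ m : ℕ) : ℤ) := by push_cast; linarith
    exact_mod_cast h3
  have hnw : ∀ l : ℕ, l.Prime → l ∣ d → ¬ (l : ℤ) ∣ w := by
    intro l hl hld hw
    have h4 : (l : ℤ) ∣ v - w := by
      rw [hvw]
      exact (Int.natCast_dvd_natCast.2 hld).mul_left 2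
    have h5 : (l : ℤ) ∣ v := by
      have := dvd_add h4 hw
      rwa [sub_add_cancel] at this
    have := hco.isUnit_of_dvd' h5 hw
    rw [Int.isUnit_iff] at this
    have h6 := hl.two_le
    omega
  have hdv : ∀ l : ℕ, l ∣ d → (l : ℤ) ∣ v - w := by
    intro l hld
    rw [hvw]
    exact (Int.natCast_dvd_natCast.2 hld).mul_left 2
  refine sqfull_of hm hr h2 ?_ ?_
  · intro l hl hlr hld hlQ
    have h4 : (l : ℤ) ∣ TT r v w := by rw [← hT]; exact Int.natCast_dvd_natCast.2 hlQ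
    unfold TT at h4
    rw [dvd_geom_sum₂_iff_of_dvd_sub (hdv l hld)] at h4
    have hlp : Prime (l : ℤ) := Nat.prime_iff_prime_int.1 hl
    rcases hlp.dvd_or_dvd h4 with h5 | h5
    · have : l ∣ r := by exact_mod_cast h5
      exact hlr ((Nat.prime_dvd_prime_iff_eq hl hr).1 this)
    · exact hnw l hl hld (hlp.dvd_of_dvd_pow h5)
  · intro hrd hrQ
    obtain ⟨b, hb⟩ := hdv r hrd
    have hv : v = w + r * b := by linarith
    have h4 := odd_sq_dvd_geom_sum₂_sub (a := w) (b := b) (hr.odd_of_ne_two (by omega))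
    rw [← hv] at h4
    have h5 : (r : ℤ) ^ 2 ∣ TT r v w := by
      rw [← hT]
      exact_mod_cast hrQ
    unfold TT at h5
    have h6 : (r : ℤ) ^ 2 ∣ (r : ℤ) * w ^ (r - 1) := by
      have := dvd_sub h5 h4
      rwa [sub_sub_cancel] at this
    rw [pow_two] at h6
    have h7 : (r : ℤ) ∣ w ^ (r - 1) :=
      Int.dvd_of_mul_dvd_mul_left (by exact_mod_cast hr.pos.ne') h6
    exact hnw r hr hrd ((Nat.prime_iff_prime_int.1 hr).dvd_of_dvd_pow h7)

end Pool.Agent.Helper20K9.TW
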