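import Mathlib
import Pool.Agent.Helper20K9.Two1

/-!
The equation `x ^ (2 m) + z ^ 2 = y ^ r`: the structure of `y`.
-/

set_option autoImplicit false

namespace Pool.Agent.Helper20K9.TW

open Finset

theorem unit_pow4 {e : GaussianInt} (he : IsUnit e) : e ^ 4 = 1 := by
  have h := (Zsqrtd.norm_eq_one_iff' (by norm_num : (-1 : ℤ) ≤ 0) e).2 he
  rw [Zsqrtd.norm_def] at h
  have h' : e.re * e.re + e.im * e.im = 1 := by linarith
  have h1 : -1 ≤ e.re := by nlinarith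
  have h2 : e.re ≤ 1 := by nlinarith
  have h3 : -1 ≤ e.im := by nlinarith
  have h4 : e.im ≤ 1 := by nlinarith
  obtain ⟨a, b⟩ := e
  simp only at h' h1 h2 h3 h4
  interval_cases a <;> interval_cases b <;> first | (exfalso; omega) | decide

theorem unit_root {e : GaussianInt} (he : IsUnit e) {r : ℕ} (hr : Odd r) : (e ^ r) ^ r = e := by
  obtain ⟨k, rfl⟩ := hr
  have h : (2 * k + 1) * (2 * k + 1) = 4 * (k * (k + 1)) + 1 := by ring
  rw [← pow_mul, h, pow_succ, pow_mul, unit_pow4 he, one_pow, one_mul]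

theorem gauss_root {X z y r : ℕ} (hr : Odd r) (hXz : Nat.Coprime X z) (hy : Odd y)
    (h : X ^ 2 + z ^ 2 = y ^ r) : ∃ α : GaussianInt, α ^ r = ⟨(X : ℤ), (z : ℤ)⟩ := by
  obtain ⟨k, hk⟩ := hy.pow (n := r)
  obtain ⟨s, t, hst⟩ := Nat.isCoprime_iff_coprime.2 hXz
  have hN : (X : ℤ) ^ 2 + (z : ℤ) ^ 2 = 2 * k + 1 := by
    have : ((X ^ 2 + z ^ 2 : ℕ) : ℤ) = ((2 * k + 1 : ℕ) : ℤ) := by rw [h, hk]
    push_cast at this
    exact this
  have hco : IsCoprime (⟨(X : ℤ), (z : ℤ)⟩ : GaussianInt) (⟨(X : ℤ), -(z : ℤ)⟩ : GaussianInt) := by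
    refine ⟨⟨(X : ℤ) - k * s, -(z : ℤ) + k * t⟩, ⟨-(k * s), -(k * t)⟩, ?_⟩
    apply Zsqrtd.ext
    · simp only [Zsqrtd.re_add, Zsqrtd.re_mul, Zsqrtd.re_one]
      linear_combination hN - 2 * k * hst
    · simp only [Zsqrtd.im_add, Zsqrtd.im_mul, Zsqrtd.im_one]
      ring
  have hmul : (⟨(X : ℤ), (z : ℤ)⟩ : GaussianInt) * (⟨(X : ℤ), -(z : ℤ)⟩ : GaussianInt) =
      ((y : ℕ) : GaussianInt) ^ r := by
    have h1 : ((y : ℕ) : GaussianInt) ^ r = (((y ^ r : ℕ) : ℤ) : GaussianInt) := by push_cast; rfl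
    rw [h1, ← h]
    apply Zsqrtd.ext
    · rw [Zsqrtd.re_mul, Zsqrtd.re_intCast]
      push_cast
      ring
    · rw [Zsqrtd.im_mul, Zsqrtd.im_intCast]
      ring
  obtain ⟨d, u, hu⟩ := exists_associated_pow_of_mul_eq_pow' hco hmul
  refine ⟨d * (u : GaussianInt) ^ r, ?_⟩
  rw [mul_pow, unit_root u.isUnit hr, hu]

theorem norm_pow' (w : GaussianInt) (n : ℕ) : (w ^ n).norm = w.norm ^ n := by
  induction n with
  | zero => simp
  | succ n ih => rw [pow_succ, Zsqrtd.norm_mul, pow_succ, ih]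

theorem gauss_case {X z y x m r : ℕ} (hm : 3 ≤ m) (hr : r.Prime) (hr3 : 3 ≤ r) (hX0 : 0 < X)
    (hXz : Nat.Coprime X z) (hy : Odd y) (h : X ^ 2 + z ^ 2 = y ^ r) (hX : X = x ^ m) :
    ∃ a b : ℕ, 0 < a ∧ SqFull a ∧ y = a ^ 2 + b ^ 2 := by
  have hrodd : Odd r := hr.odd_of_ne_two (by omega)
  obtain ⟨α, hα⟩ := gauss_root hrodd hXz hy h
  obtain ⟨w, hw⟩ : ∃ w : GaussianInt, w = -star α := ⟨_, rfl⟩
  obtain ⟨T, hT⟩ : ∃ T : GaussianInt, T = TT r α w := ⟨_, rfl⟩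
  have h0 : T * (α - w) = α ^ r - w ^ r := by rw [hT]; exact TT_mul r α w
  have hαw : α - w = ((2 * α.re : ℤ) : GaussianInt) := by
    rw [hw]
    apply Zsqrtd.ext
    · rw [Zsqrtd.re_sub, Zsqrtd.re_neg, Zsqrtd.re_star, Zsqrtd.re_intCast]; ring
    · rw [Zsqrtd.im_sub, Zsqrtd.im_neg, Zsqrtd.im_star, Zsqrtd.im_intCast]; ring
  have hwr : w ^ r = -star (α ^ r) := by
    rw [hw, hrodd.neg_pow, star_pow]
  have h1 : T * ((2 * α.re : ℤ) : GaussianInt) = ((2 * X : ℤ) : GaussianInt) := by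
    rw [← hαw, h0, hwr, hα]
    apply Zsqrtd.ext
    · rw [Zsqrtd.re_sub, Zsqrtd.re_neg, Zsqrtd.re_star, Zsqrtd.re_intCast]; ring
    · rw [Zsqrtd.im_sub, Zsqrtd.im_neg, Zsqrtd.im_star, Zsqrtd.im_intCast]; ring
  have h2 : T.re * α.re = X := by
    have := congrArg Zsqrtd.re h1
    rw [Zsqrtd.re_mul, Zsqrtd.re_intCast, Zsqrtd.im_intCast, Zsqrtd.re_intCast] at this
    linarith
  have hX0' : (X : ℤ) ≠ 0 := by exact_mod_cast hX0.ne'
  have ha0 : α.re ≠ 0 := by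
    intro h3
    rw [h3, mul_zero] at h2
    exact hX0' h2.symm
  have h3 : T.im = 0 := by
    have := congrArg Zsqrtd.im h1
    rw [Zsqrtd.im_mul, Zsqrtd.re_intCast, Zsqrtd.im_intCast, Zsqrtd.im_intCast, mul_zero, zero_add] at this
    rcases mul_eq_zero.1 this with h4 | h4
    · exact h4
    · exfalso
      omega
  have hTr : T = (T.re : GaussianInt) := by
    apply Zsqrtd.ext
    · rw [Zsqrtd.re_intCast]
    · rw [Zsqrtd.im_intCast, h3]
  have hnorm : ∀ l : ℕ, l.Prime → (l : ℤ) ∣ α.re → ¬ (l : ℤ) ∣ α.re * α.re + α.im * α.im := by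
    intro l hl h4 h5
    have hlp : Prime (l : ℤ) := Nat.prime_iff_prime_int.1 hl
    have h6 : (l : ℤ) ∣ α.im * α.im := (dvd_add_right (h4.mul_left _)).1 h5
    have h7 : (l : ℤ) ∣ α.im := by
      rcases hlp.dvd_or_dvd h6 with h | h <;> exact h
    have h8 : ((l : ℤ) : GaussianInt) ∣ α := (Zsqrtd.intCast_dvd _ _).2 ⟨h4, h7⟩
    have h9 : ((l : ℤ) : GaussianInt) ∣ α ^ r := h8.trans (dvd_pow_self α hr.ne_zero)
    rw [hα, Zsqrtd.intCast_dvd] at h9
    have h10' : (l : ℤ) ∣ (X : ℤ) := h9.1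
    have h11' : (l : ℤ) ∣ (z : ℤ) := h9.2
    have h10 : l ∣ X := by exact_mod_cast h10'
    have h11 : l ∣ z := by exact_mod_cast h11'
    have := Nat.dvd_gcd h10 h11
    rw [hXz] at this
    exact hl.one_lt.ne' (Nat.dvd_one.1 this)
  have hnw : w.norm = α.re * α.re + α.im * α.im := by
    rw [hw, Zsqrtd.norm_def, Zsqrtd.re_neg, Zsqrtd.im_neg, Zsqrtd.re_star, Zsqrtd.im_star]
    ring
  have hnormpow : ∀ l : ℕ, l.Prime → (l : ℤ) ∣ α.re → ∀ n : ℕ, ¬ (l : ℤ) ∣ (w ^ n).norm := by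
    intro l hl h4 n h5
    rw [norm_pow'] at h5
    have := (Nat.prime_iff_prime_int.1 hl).dvd_of_dvd_pow h5
    rw [hnw] at this
    exact hnorm l hl h4 this
  have hα' : α.re.natAbs * T.re.natAbs = x ^ m := by
    have h4 : ((α.re.natAbs * T.re.natAbs : ℕ) : ℤ) = ((x ^ m : ℕ) : ℤ) := by
      rw [← Int.natAbs_mul, mul_comm, h2, ← hX]
      rfl
    exact_mod_cast h4
  refine ⟨α.re.natAbs, α.im.natAbs, Int.natAbs_pos.2 ha0, ?_, ?_⟩
  · refine sqfull_of hm hr hα' ?_ ?_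
    · intro l hl hlr hla hlQ
      have hla' : (l : ℤ) ∣ α.re := Int.natCast_dvd.2 hla
      have hlQ' : (l : ℤ) ∣ T.re := Int.natCast_dvd.2 hlQ
      have h4 : ((l : ℤ) : GaussianInt) ∣ α - w := by
        rw [hαw, Zsqrtd.intCast_dvd_intCast]
        exact hla'.mul_left 2
      have h5 : ((l : ℤ) : GaussianInt) ∣ TT r α w := by
        rw [← hT, hTr, Zsqrtd.intCast_dvd_intCast]
        exact hlQ'
      unfold TT at h5
      rw [dvd_geom_sum₂_iff_of_dvd_sub h4] at h5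
      obtain ⟨c, hc⟩ := h5
      have h6 := congrArg Zsqrtd.norm hc
      rw [Zsqrtd.norm_mul, Zsqrtd.norm_mul] at h6
      have h7 : ((r : ℕ) : GaussianInt).norm = (r : ℤ) * r := Zsqrtd.norm_natCast r
      have h8 : (((l : ℤ)) : GaussianInt).norm = (l : ℤ) * l := Zsqrtd.norm_intCast _
      rw [h7, h8] at h6
      have h9 : (l : ℤ) ∣ (r : ℤ) * r * (w ^ (r - 1)).norm := by
        rw [h6]
        exact ⟨l * c.norm, by ring⟩
      have hlp : Prime (l : ℤ) := Nat.prime_iff_prime_int.1 hl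
      rcases hlp.dvd_or_dvd h9 with h10 | h10
      · have : (l : ℤ) ∣ (r : ℤ) := by
          rcases hlp.dvd_or_dvd h10 with h | h <;> exact h
        have : l ∣ r := by exact_mod_cast this
        exact hlr ((Nat.prime_dvd_prime_iff_eq hl hr).1 this)
      · exact hnormpow l hl hla' _ h10
    · intro hra hrQ
      have hra' : (r : ℤ) ∣ α.re := Int.natCast_dvd.2 hra
      obtain ⟨c, hc⟩ := hra'
      have hv : α = w + (r : GaussianInt) * ((2 * c : ℤ) : GaussianInt) := by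
        have : (r : GaussianInt) * ((2 * c : ℤ) : GaussianInt) = α - w := by
          rw [hαw, hc]
          push_cast
          ring
        rw [this]; ring
      have h4 := odd_sq_dvd_geom_sum₂_sub (a := w) (b := ((2 * c : ℤ) : GaussianInt)) hrodd
      rw [← hv] at h4
      have h5 : (r : GaussianInt) ^ 2 ∣ TT r α w := by
        rw [← hT, hTr]
        have e1 : (r : GaussianInt) ^ 2 = (((r : ℤ) ^ 2 : ℤ) : GaussianInt) := by push_cast; rfl
        rw [e1, Zsqrtd.intCast_dvd_intCast]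
        have : ((r ^ 2 : ℕ) : ℤ) ∣ T.re := Int.natCast_dvd.2 hrQ
        exact_mod_cast this
      unfold TT at h5
      have h6 : (r : GaussianInt) ^ 2 ∣ (r : GaussianInt) * w ^ (r - 1) := by
        have := dvd_sub h5 h4
        rwa [sub_sub_cancel] at this
      rw [pow_two] at h6
      have hr0 : (r : GaussianInt) ≠ 0 := by
        exact_mod_cast hr.ne_zero
      have h7 : (r : GaussianInt) ∣ w ^ (r - 1) := (mul_dvd_mul_iff_left hr0).1 h6
      obtain ⟨c', hc'⟩ := h7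
      have h8 := congrArg Zsqrtd.norm hc'
      rw [Zsqrtd.norm_mul, Zsqrtd.norm_natCast] at h8
      refine hnormpow r hr ⟨c, hc⟩ (r - 1) ?_
      rw [h8]
      exact ⟨r * c'.norm, by ring⟩
  · have h4 := congrArg Zsqrtd.norm hα
    rw [norm_pow', Zsqrtd.norm_def, Zsqrtd.norm_def] at h4
    have h5 : (α.re * α.re - -1 * α.im * α.im) ^ r = ((y : ℤ)) ^ r := by
      rw [h4]
      have : ((X ^ 2 + z ^ 2 : ℕ) : ℤ) = ((y ^ r : ℕ) : ℤ) := by rw [h]
      push_cast at this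
      rw [← this]
      ring
    have h6 : α.re * α.re - -1 * α.im * α.im = (y : ℤ) := by
      have h7 : (0 : ℤ) ≤ α.re * α.re - -1 * α.im * α.im := by nlinarith [mul_self_nonneg α.re, mul_self_nonneg α.im]
      exact (pow_left_inj₀ h7 (Int.natCast_nonneg y) hr.ne_zero).1 h5
    have h8 : ((y : ℕ) : ℤ) = ((α.re.natAbs ^ 2 + α.im.natAbs ^ 2 : ℕ) : ℤ) := by
      push_cast
      rw [sq_abs, sq_abs, ← h6]
      ring
    exact_mod_cast h8

end Pool.Agent.Helper20K9.TW
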