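import Mathlib
import Pool.Agent.Helper20K9.Two2

/-!
The structure of `y` for the three sign patterns, and the count.
-/

set_option autoImplicit false

namespace Pool.Agent.Helper20K9.TW

open Finset

/-- the two factors -/
theorem factors {P Q y r : ℕ} (hr : r ≠ 0) (hco : Nat.Coprime P Q) (h : P * Q = y ^ r) :
    ∃ u v : ℕ, P = u ^ r ∧ Q = v ^ r ∧ y = u * v := by
  have h1 : IsUnit (gcd P Q) := by
    rw [Nat.isUnit_iff]
    exact hco
  obtain ⟨u, hu⟩ := exists_eq_pow_of_mul_eq_pow h1 h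
  have h2 : IsUnit (gcd Q P) := by
    rw [Nat.isUnit_iff]
    exact hco.symm
  obtain ⟨v, hv⟩ := exists_eq_pow_of_mul_eq_pow h2 (by rw [mul_comm]; exact h)
  refine ⟨u, v, hu, hv, ?_⟩
  rw [hu, hv, ← mul_pow] at h
  exact (Nat.pow_left_injective hr h).symm

theorem split2 {A B y r : ℕ} (hr : r ≠ 0) (hAB : Nat.Coprime A B) (hy : Odd y)
    (h : A ^ 2 + y ^ r = B ^ 2) : ∃ u v : ℕ, Odd u ∧ Odd v ∧ Nat.Coprime u v ∧ y = u * v ∧
      v ^ r = u ^ r + 2 * A ∧ v ^ r + u ^ r = 2 * B := by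
  have hy0 : 0 < y ^ r := pow_pos hy.pos r
  have hlt : A < B := by
    apply lt_of_pow_lt_pow_left₀ 2 (Nat.zero_le _)
    omega
  obtain ⟨P, hP⟩ : ∃ P, B = A + P := ⟨B - A, by omega⟩
  subst hP
  have h1 : P * (P + 2 * A) = y ^ r := by nlinarith
  have hco : Nat.Coprime P (P + 2 * A) := by
    rw [Nat.coprime_self_add_right]
    apply Nat.Coprime.mul_right
    · rw [Nat.coprime_two_right]
      have h2 : Odd (P * (P + 2 * A)) := by rw [h1]; exact hy.pow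
      exact (Nat.odd_mul.1 h2).1
    · rw [Nat.coprime_self_add_right] at hAB
      exact hAB.symm
  obtain ⟨u, v, hu, hv, huv⟩ := factors hr hco h1
  have hodd : Odd u ∧ Odd v := by
    rw [huv] at hy
    exact Nat.odd_mul.1 hy
  refine ⟨u, v, hodd.1, hodd.2, ?_, huv, ?_, ?_⟩
  · have h3 : Nat.Coprime (u ^ r) (v ^ r) := by rw [← hu, ← hv]; exact hco
    exact (Nat.coprime_pow_left_iff (Nat.pos_of_ne_zero hr) _ _).1
      ((Nat.coprime_pow_right_iff (Nat.pos_of_ne_zero hr) _ _).1 h3)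
  · omega
  · omega

/-- the shape of `y` -/
def Shape (y : ℕ) : Prop :=
  (∃ u v d : ℕ, 0 < u ∧ u ≤ v ∧ 0 < d ∧ SqFull d ∧ y = u * v ∧ (v = 2 * d + u ∨ v + u = 2 * d)) ∨
  (∃ a b : ℕ, 0 < a ∧ SqFull a ∧ y = a ^ 2 + b ^ 2)

theorem shape {x z y m r : ℕ} (hm : 3 ≤ m) (hr : r.Prime) (hr3 : 3 ≤ r) (hx : 0 < x)
    (hxz : Nat.Coprime x z) (hy : Odd y)
    (h : x ^ (2 * m) + y ^ r = z ^ 2 ∨ z ^ 2 + y ^ r = x ^ (2 * m) ∨ x ^ (2 * m) + z ^ 2 = y ^ r) :
    Shape y := by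
  have hX : x ^ (2 * m) = (x ^ m) ^ 2 := by rw [← pow_mul, mul_comm]
  have hcoX : Nat.Coprime (x ^ m) z := Nat.Coprime.pow_left m hxz
  have hX0 : 0 < x ^ m := pow_pos hx m
  rw [hX] at h
  rcases h with h | h | h
  · left
    obtain ⟨u, v, hu, hv, huv, hyuv, h1, -⟩ := split2 hr.ne_zero hcoX hy h
    have hlt : u < v := by
      apply lt_of_pow_lt_pow_left₀ r (Nat.zero_le _)
      omega
    obtain ⟨d, hd⟩ : ∃ d, v = 2 * d + u := by
      obtain ⟨i, hi⟩ := hu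
      obtain ⟨j, hj⟩ := hv
      exact ⟨j - i, by omega⟩
    have hd0 : 0 < d := by omega
    refine ⟨u, v, d, hu.pos, hlt.le, hd0, ?_, hyuv, Or.inl hd⟩
    refine int_case (v := (v : ℤ)) (w := (u : ℤ)) (x := x) hm hr hr3 ?_ d hd0 ?_ ?_
    · exact (Nat.isCoprime_iff_coprime.2 huv).symm
    · rw [hd]; push_cast; ring
    · have : ((v ^ r : ℕ) : ℤ) = ((u ^ r + 2 * x ^ m : ℕ) : ℤ) := by rw [h1]
      push_cast at this
      rw [this]; ring
  · left
    obtain ⟨u, v, hu, hv, huv, hyuv, h1, h2⟩ := split2 hr.ne_zero hcoX.symm hy h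
    have hle : u ≤ v := by
      apply le_of_pow_le_pow_left₀ hr.ne_zero (Nat.zero_le _)
      omega
    obtain ⟨d, hd⟩ : ∃ d, v + u = 2 * d := by
      obtain ⟨i, hi⟩ := hu
      obtain ⟨j, hj⟩ := hv
      exact ⟨j + i + 1, by omega⟩
    have hu0 := hu.pos
    have hd0 : 0 < d := by omega
    refine ⟨u, v, d, hu.pos, hle, hd0, ?_, hyuv, Or.inr hd⟩
    refine int_case (v := (v : ℤ)) (w := -(u : ℤ)) (x := x) hm hr hr3 ?_ d hd0 ?_ ?_
    · exact (Nat.isCoprime_iff_coprime.2 huv).symm.neg_right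
    · have : ((v + u : ℕ) : ℤ) = ((2 * d : ℕ) : ℤ) := by rw [hd]
      push_cast at this
      linarith
    · have hrodd : Odd r := hr.odd_of_ne_two (by omega)
      rw [hrodd.neg_pow, sub_neg_eq_add]
      exact_mod_cast h2
  · right
    exact gauss_case hm hr hr3 hX0 hcoX hy h rfl

/-- the number of squarefull numbers -/
theorem sum_32 (A : ℕ) : ∑ a ∈ Icc 1 A, (((a : ℝ)) * √(a : ℝ))⁻¹ ≤ 3 := by
  have h : ∀ A : ℕ, 1 ≤ A → ∑ a ∈ Icc 1 A, (((a : ℝ)) * √(a : ℝ))⁻¹ ≤ 3 - 2 / √(A : ℝ) := by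
    intro A hA
    induction A, hA using Nat.le_induction with
    | base => norm_num
    | succ n hn ih =>
      rw [Finset.sum_Icc_succ_top (by omega)]
      have hn1 : (1 : ℝ) ≤ n := by exact_mod_cast hn
      obtain ⟨s, hs⟩ : ∃ s, s = √(n : ℝ) := ⟨_, rfl⟩
      obtain ⟨t, ht⟩ : ∃ t, t = √((n + 1 : ℕ) : ℝ) := ⟨_, rfl⟩
      have hs2 : s * s = n := by rw [hs]; exact Real.mul_self_sqrt (by linarith)
      have ht2 : t * t = n + 1 := by
        rw [ht, Real.mul_self_sqrt (by positivity)]; push_cast; ring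
      have hs0 : 0 < s := by rw [hs]; exact Real.sqrt_pos.2 (by linarith)
      have ht0 : 0 < t := by rw [ht]; exact Real.sqrt_pos.2 (by positivity)
      have hst : s ≤ t := by nlinarith
      rw [← ht]
      rw [← hs] at ih
      have h1 : (((n + 1 : ℕ) : ℝ) * t)⁻¹ ≤ 2 / s - 2 / t := by
        have e1 : ((n + 1 : ℕ) : ℝ) = t * t := by rw [ht2]; push_cast; ring
        rw [e1]
        have e2 : 2 / s - 2 / t = 2 * (t - s) / (s * t) := by field_simp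
        have e3 : (t - s) * (t + s) = 1 := by nlinarith
        have e4 : t - s = 1 / (t + s) := by
          field_simp
          linarith
        rw [e2, e4]
        have e5 : 2 * (1 / (t + s)) / (s * t) = 2 / ((t + s) * (s * t)) := by field_simp
        rw [e5, inv_eq_one_div, div_le_div_iff₀ (by positivity) (by positivity)]
        have e6 : (t + s) * (s * t) ≤ (t + t) * (t * t) := by gcongr
        nlinarith
      linarith
  rcases Nat.eq_zero_or_pos A with h0 | h0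
  · rw [h0]; simp
  · have h1 := h A h0
    have h2 : 0 ≤ 2 / √(A : ℝ) := by positivity
    linarith

theorem sqfull_form {n : ℕ} (hn : 0 < n) (h : SqFull n) : ∃ a c : ℕ, 0 < a ∧ 0 < c ∧ n = a ^ 3 * c ^ 2 := by
  obtain ⟨a, b, ha, hb, hab, hsq⟩ := Nat.sq_mul_squarefree_of_pos hn
  have h1 : a ∣ b := by
    rw [← Nat.prod_primeFactors_of_squarefree hsq]
    apply Finset.prod_primes_dvd
    · intro p hp
      exact (Nat.prime_of_mem_primeFactors hp).prime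
    · intro p hp
      have hpp := Nat.prime_of_mem_primeFactors hp
      have hpa := Nat.dvd_of_mem_primeFactors hp
      by_contra hpb
      have h2 : p ^ 2 ∣ b ^ 2 * a := by
        rw [hab]
        exact h p hpp (by rw [← hab]; exact hpa.mul_left _)
      have h3 : Nat.Coprime (p ^ 2) (b ^ 2) :=
        Nat.Coprime.pow 2 2 ((Nat.Prime.coprime_iff_not_dvd hpp).2 hpb)
      have h4 : p ^ 2 ∣ a := h3.dvd_of_dvd_mul_left h2
      have h5 := hsq p (by rw [← pow_two]; exact h4)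
      exact hpp.one_lt.ne' (Nat.isUnit_iff.1 h5)
  obtain ⟨c, rfl⟩ := h1
  refine ⟨a, c, ha, Nat.pos_of_mul_pos_left hb, ?_⟩
  rw [← hab]; ring

open Classical in
/-- squarefull numbers up to `H` -/
noncomputable def SF (H : ℕ) : Finset ℕ := (Icc 1 H).filter SqFull

theorem mem_SF {H n : ℕ} (h1 : 0 < n) (h2 : n ≤ H) (h3 : SqFull n) : n ∈ SF H := by
  classical
  rw [SF, mem_filter, mem_Icc]
  exact ⟨⟨h1, h2⟩, h3⟩

theorem card_SF (H : ℕ) : ((SF H).card : ℝ) ≤ 3 * √(H : ℝ) := by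
  classical
  have h1 : SF H ⊆ (Icc 1 H).biUnion fun a => (Icc 1 (Nat.sqrt (H / a ^ 3))).image fun c => a ^ 3 * c ^ 2 := by
    intro n hn
    rw [SF, mem_filter, mem_Icc] at hn
    obtain ⟨a, c, ha, hc, hac⟩ := sqfull_form (by omega) hn.2
    rw [mem_biUnion]
    have ha3 : a ≤ a ^ 3 * c ^ 2 := by
      calc a ≤ a ^ 3 := Nat.le_self_pow (by norm_num) a
        _ ≤ a ^ 3 * c ^ 2 := Nat.le_mul_of_pos_right _ (by positivity)
    refine ⟨a, mem_Icc.2 ⟨ha, by omega⟩, ?_⟩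
    rw [mem_image]
    refine ⟨c, mem_Icc.2 ⟨hc, ?_⟩, hac.symm⟩
    rw [Nat.le_sqrt', Nat.le_div_iff_mul_le (by positivity)]
    calc c ^ 2 * a ^ 3 = n := by rw [hac]; ring
      _ ≤ H := hn.1.2
  have h2 : (SF H).card ≤ ∑ a ∈ Icc 1 H, Nat.sqrt (H / a ^ 3) := by
    refine (card_le_card h1).trans (card_biUnion_le.trans (sum_le_sum fun a _ => ?_))
    refine card_image_le.trans ?_
    rw [Nat.card_Icc]
    omega
  have h3 : ((SF H).card : ℝ) ≤ ∑ a ∈ Icc 1 H, √(H : ℝ) * ((a : ℝ) * √(a : ℝ))⁻¹ := by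
    refine le_trans (Nat.cast_le.2 h2) ?_
    push_cast
    apply sum_le_sum
    intro a ha
    have ha1 : (1 : ℝ) ≤ a := by exact_mod_cast (mem_Icc.1 ha).1
    calc ((Nat.sqrt (H / a ^ 3) : ℕ) : ℝ) ≤ √(((H / a ^ 3 : ℕ)) : ℝ) := Real.nat_sqrt_le_real_sqrt
      _ ≤ √((H : ℝ) / (a : ℝ) ^ 3) := by
          apply Real.sqrt_le_sqrt
          exact_mod_cast Nat.cast_div_le (α := ℝ) (m := H) (n := a ^ 3)
      _ = √(H : ℝ) * ((a : ℝ) * √(a : ℝ))⁻¹ := by
          rw [Real.sqrt_div (Nat.cast_nonneg H), div_eq_mul_inv]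
          congr 2
          have : (a : ℝ) ^ 3 = a ^ 2 * a := by ring
          rw [this, Real.sqrt_mul (by positivity), Real.sqrt_sq (by linarith)]
  rw [← mul_sum] at h3
  have h4 := sum_32 H
  have h5 : 0 ≤ √(H : ℝ) := Real.sqrt_nonneg _
  nlinarith

theorem sum_12 (U : ℕ) : ∑ u ∈ Icc 1 U, (√(u : ℝ))⁻¹ ≤ 2 * √(U : ℝ) := by
  induction U with
  | zero => simp
  | succ n ih =>
    rw [Finset.sum_Icc_succ_top (by omega)]
    obtain ⟨s, hs⟩ : ∃ s, s = √(n : ℝ) := ⟨_, rfl⟩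
    obtain ⟨t, ht⟩ : ∃ t, t = √((n + 1 : ℕ) : ℝ) := ⟨_, rfl⟩
    have hs2 : s * s = n := by rw [hs]; exact Real.mul_self_sqrt (Nat.cast_nonneg n)
    have ht2 : t * t = n + 1 := by
      rw [ht, Real.mul_self_sqrt (by positivity)]; push_cast; ring
    have hs0 : 0 ≤ s := by rw [hs]; exact Real.sqrt_nonneg _
    have ht0 : 0 < t := by rw [ht]; exact Real.sqrt_pos.2 (by positivity)
    have hst : s ≤ t := by nlinarith
    rw [← ht]
    rw [← hs] at ih
    have h1 : t⁻¹ ≤ 2 * (t - s) := by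
      rw [inv_le_iff_one_le_mul₀ ht0]
      nlinarith
    linarith

/-- the finite set which contains all `y` -/
noncomputable def F1 (N : ℕ) : Finset ℕ := by
  classical
  exact (Icc 1 (Nat.sqrt N)).biUnion fun u =>
    (SF (N / u)).image (fun d => u * (2 * d + u)) ∪ (SF (N / u)).image (fun d => u * (2 * d - u))

noncomputable def F2 (N : ℕ) : Finset ℕ := by
  classical
  exact (SF (Nat.sqrt N) ×ˢ range (Nat.sqrt N + 1)).image fun p => p.1 ^ 2 + p.2 ^ 2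

theorem mem_F {N y : ℕ} (hyN : y ≤ N) (h : Shape y) : y ∈ F1 N ∪ F2 N := by
  classical
  rw [mem_union]
  rcases h with ⟨u, v, d, hu, huv, hd, hsd, hy, hv⟩ | ⟨a, b, ha, hsa, hy⟩
  · left
    rw [F1, mem_biUnion]
    have h1 : u * v ≤ N := by rw [← hy]; exact hyN
    have h2 : v ≤ N / u := by
      rw [Nat.le_div_iff_mul_le hu, mul_comm]; exact h1
    refine ⟨u, mem_Icc.2 ⟨hu, ?_⟩, ?_⟩
    · rw [Nat.le_sqrt']
      calc u ^ 2 = u * u := pow_two u
        _ ≤ u * v := Nat.mul_le_mul_left _ huv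
        _ ≤ N := h1
    · rw [mem_union, mem_image, mem_image]
      rcases hv with hv | hv
      · left
        exact ⟨d, mem_SF hd (by omega) hsd, by rw [hy, hv]⟩
      · right
        refine ⟨d, mem_SF hd (by omega) hsd, ?_⟩
        rw [hy, ← hv, Nat.add_sub_cancel]
  · right
    rw [F2, mem_image]
    have h1 : a ≤ Nat.sqrt N := by
      rw [Nat.le_sqrt']
      have : 0 ≤ b ^ 2 := Nat.zero_le _
      omega
    have h2 : b ≤ Nat.sqrt N := by
      rw [Nat.le_sqrt']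
      have : 0 ≤ a ^ 2 := Nat.zero_le _
      omega
    exact ⟨(a, b), mem_product.2 ⟨mem_SF ha h1 hsa, mem_range.2 (by omega)⟩, hy.symm⟩

theorem card_F1 (N : ℕ) : ((F1 N).card : ℝ) ≤ 12 * (√(N : ℝ) * √(√(N : ℝ))) := by
  classical
  have h1 : (F1 N).card ≤ ∑ u ∈ Icc 1 (Nat.sqrt N), 2 * (SF (N / u)).card := by
    rw [F1]
    refine card_biUnion_le.trans (sum_le_sum fun u _ => ?_)
    refine (card_union_le _ _).trans ?_
    rw [two_mul]
    exact Nat.add_le_add card_image_le card_image_le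
  have h2 : ((F1 N).card : ℝ) ≤ ∑ u ∈ Icc 1 (Nat.sqrt N), 6 * √(N : ℝ) * (√(u : ℝ))⁻¹ := by
    refine le_trans (Nat.cast_le.2 h1) ?_
    push_cast
    apply sum_le_sum
    intro u hu
    have h3 := card_SF (N / u)
    have h4 : √((N / u : ℕ) : ℝ) ≤ √(N : ℝ) * (√(u : ℝ))⁻¹ := by
      rw [← div_eq_mul_inv, ← Real.sqrt_div (Nat.cast_nonneg N)]
      exact Real.sqrt_le_sqrt Nat.cast_div_le
    linarith
  rw [← mul_sum] at h2
  have h3 := sum_12 (Nat.sqrt N)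
  have h4 : √((Nat.sqrt N : ℕ) : ℝ) ≤ √(√(N : ℝ)) := Real.sqrt_le_sqrt Real.nat_sqrt_le_real_sqrt
  have h5 : 0 ≤ √(N : ℝ) := Real.sqrt_nonneg _
  calc ((F1 N).card : ℝ) ≤ 6 * √(N : ℝ) * ∑ u ∈ Icc 1 (Nat.sqrt N), (√(u : ℝ))⁻¹ := h2
    _ ≤ 6 * √(N : ℝ) * (2 * √(√(N : ℝ))) := by
        apply mul_le_mul_of_nonneg_left _ (by positivity)
        linarith
    _ = 12 * (√(N : ℝ) * √(√(N : ℝ))) := by ring

theorem card_F2 {N : ℕ} (hN : 1 ≤ N) : ((F2 N).card : ℝ) ≤ 6 * (√(N : ℝ) * √(√(N : ℝ))) := by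
  classical
  have h1 : (F2 N).card ≤ (SF (Nat.sqrt N)).card * (Nat.sqrt N + 1) := by
    rw [F2]
    refine card_image_le.trans ?_
    rw [card_product, card_range]
  have hN1 : (1 : ℝ) ≤ N := by exact_mod_cast hN
  have h2 : (1 : ℝ) ≤ √(N : ℝ) := by
    rw [Real.one_le_sqrt]; exact hN1
  have h3 : ((Nat.sqrt N : ℕ) : ℝ) ≤ √(N : ℝ) := Real.nat_sqrt_le_real_sqrt
  have h4 := card_SF (Nat.sqrt N)
  have h5 : √((Nat.sqrt N : ℕ) : ℝ) ≤ √(√(N : ℝ)) := Real.sqrt_le_sqrt h3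
  calc ((F2 N).card : ℝ) ≤ ((SF (Nat.sqrt N)).card : ℝ) * ((Nat.sqrt N : ℕ) + 1) := by exact_mod_cast h1
    _ ≤ (3 * √(√(N : ℝ))) * (√(N : ℝ) + √(N : ℝ)) := by
        apply mul_le_mul (by linarith) (by linarith) (by positivity) (by positivity)
    _ = 6 * (√(N : ℝ) * √(√(N : ℝ))) := by ring

/-- the `y ≤ N` in question -/
def EY (N : ℕ) : Set ℕ := {y : ℕ | Odd y ∧ y ≤ N ∧ ∃ x z m r : ℕ, 0 < x ∧ 3 ≤ m ∧ r.Prime ∧ 3 ≤ r ∧
  Nat.Coprime x z ∧
  (x ^ (2 * m) + y ^ r = z ^ 2 ∨ z ^ 2 + y ^ r = x ^ (2 * m) ∨ x ^ (2 * m) + z ^ 2 = y ^ r)}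

theorem main_y (N : ℕ) : ((EY N).ncard : ℝ) ≤ 18 * (N : ℝ) ^ (3 / 4 : ℝ) := by
  classical
  rcases Nat.eq_zero_or_pos N with h0 | h0
  · have : EY N = ∅ := by
      rw [Set.eq_empty_iff_forall_notMem]
      rintro y ⟨hy, hyN, -⟩
      have := hy.pos
      omega
    rw [this, Set.ncard_empty, Nat.cast_zero]
    positivity
  · have h1 : EY N ⊆ ((F1 N ∪ F2 N : Finset ℕ) : Set ℕ) := by
      rintro y ⟨hy, hyN, x, z, m, r, hx, hm, hr, hr3, hxz, h⟩
      rw [mem_coe]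
      exact mem_F hyN (shape hm hr hr3 hx hxz hy h)
    have h2 := Set.ncard_le_ncard h1 (Finset.finite_toSet _)
    rw [Set.ncard_coe_finset] at h2
    have h3 : ((EY N).ncard : ℝ) ≤ (F1 N).card + (F2 N).card := by
      exact_mod_cast h2.trans (card_union_le _ _)
    have h4 := card_F1 N
    have h5 := card_F2 h0
    have hN0 : (0 : ℝ) < N := by exact_mod_cast h0
    have h6 : √(N : ℝ) * √(√(N : ℝ)) = (N : ℝ) ^ (3 / 4 : ℝ) := by
      rw [Real.sqrt_eq_rpow, Real.sqrt_eq_rpow, ← Real.rpow_mul hN0.le, ← Real.rpow_add hN0]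
      norm_num
    rw [h6] at h4 h5
    linarith

end Pool.Agent.Helper20K9.TW
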