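import Mathlib
import Pool.Agent.Helper20K9.Two3
import Pool.Agent.TH863.Alg

/-!
The equations `x ^ (2 m) + y ^ r = z ^ 2`, `z ^ 2 + y ^ r = x ^ (2 m)` with odd `y`: the factors of `x`.
-/

set_option autoImplicit false

namespace Pool.Agent.Helper20K9.TW

open Finset
open Pool.Agent.TH863 (GG GG_mul)

theorem x_factors {v w : ℤ} {x m r : ℕ} (hm : 1 ≤ m) (hr : r.Prime) (hr3 : 3 ≤ r)
    (hco : IsCoprime v w) (d : ℕ) (hd : 0 < d) (hx0 : 0 < x) (hvw : v - w = 2 * (d : ℤ))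
    (h : v ^ r - w ^ r = 2 * (x : ℤ) ^ m) :
    ∃ e s n : ℕ, e ≤ 1 ∧ 1 ≤ s ∧ 1 ≤ n ∧ x = s * n ∧ r ^ e * d = s ^ m ∧
      GG r v (v - ((2 * d : ℕ) : ℤ)) = (r : ℤ) ^ e * (n : ℤ) ^ m := by
  obtain ⟨T, hT⟩ : ∃ T : ℤ, T = GG r v w := ⟨_, rfl⟩
  have h0 : T * (v - w) = v ^ r - w ^ r := by rw [hT]; exact GG_mul r v w
  have h1 : T * d = (x : ℤ) ^ m := by
    rw [hvw, h] at h0
    linarith
  have hT0 : 0 ≤ T := by
    have : 0 ≤ T * d := by rw [h1]; positivity
    exact nonneg_of_mul_nonneg_left this (by exact_mod_cast hd)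
  obtain ⟨Q, rfl⟩ : ∃ Q : ℕ, T = (Q : ℤ) := ⟨T.toNat, (Int.toNat_of_nonneg hT0).symm⟩
  have h2 : d * Q = x ^ m := by
    have : (Q : ℤ) * d = (x : ℤ) ^ m := h1
    have h3 : ((d * Q : ℕ) : ℤ) = ((x ^ m : ℕ) : ℤ) := by push_cast; linarith
    exact_mod_cast h3
  have hwe : v - ((2 * d : ℕ) : ℤ) = w := by push_cast; linarith
  rw [hwe, ← hT]
  have hnw : ∀ l : ℕ, l.Prime → l ∣ d → ¬ (l : ℤ) ∣ w := by
    intro l hl hld hw
    have h4 : (l : ℤ) ∣ v - w := by
      rw [hvw]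
      exact (Int.natCast_dvd_natCast.2 hld).mul_left 2
    have h5 : (l : ℤ) ∣ v := by
      have := dvd_add h4 hw
      rwa [sub_add_cancel] at this
    have := hco.isUnit_of_dvd' h5 hw
    rw [Int.isUnit_iff] at this
    have h6 := hl.two_le
    omega
  have hdv : ∀ l : ℕ, l ∣ d → (l : ℤ) ∣ v - w := by
    intro l hld
    rw [hvw]
    exact (Int.natCast_dvd_natCast.2 hld).mul_left 2
  have hA : ∀ l : ℕ, l.Prime → l ≠ r → l ∣ d → ¬ l ∣ Q := by
    intro l hl hlr hld hlQ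
    have h4 : (l : ℤ) ∣ GG r v w := by rw [← hT]; exact Int.natCast_dvd_natCast.2 hlQ
    unfold GG at h4
    rw [dvd_geom_sum₂_iff_of_dvd_sub (hdv l hld)] at h4
    have hlp : Prime (l : ℤ) := Nat.prime_iff_prime_int.1 hl
    rcases hlp.dvd_or_dvd h4 with h5 | h5
    · have : l ∣ r := by exact_mod_cast h5
      exact hlr ((Nat.prime_dvd_prime_iff_eq hl hr).1 this)
    · exact hnw l hl hld (hlp.dvd_of_dvd_pow h5)
  have hB : r ∣ d → ¬ r ^ 2 ∣ Q := by
    intro hrd hrQ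
    obtain ⟨b, hb⟩ := hdv r hrd
    have hv : v = w + r * b := by linarith
    have h4 := odd_sq_dvd_geom_sum₂_sub (a := w) (b := b) (hr.odd_of_ne_two (by omega))
    rw [← hv] at h4
    have h5 : (r : ℤ) ^ 2 ∣ GG r v w := by
      rw [← hT]
      exact_mod_cast hrQ
    unfold GG at h5
    have h6 : (r : ℤ) ^ 2 ∣ (r : ℤ) * w ^ (r - 1) := by
      have := dvd_sub h5 h4
      rwa [sub_sub_cancel] at this
    rw [pow_two] at h6
    have h7 : (r : ℤ) ∣ w ^ (r - 1) :=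
      Int.dvd_of_mul_dvd_mul_left (by exact_mod_cast hr.pos.ne') h6
    exact hnw r hr hrd ((Nat.prime_iff_prime_int.1 hr).dvd_of_dvd_pow h7)
  have hm0 : m ≠ 0 := by omega
  by_cases hrd : r ∣ d
  · have hrQ : r ∣ Q := by
      have h4 : (r : ℤ) ∣ GG r v w := by
        unfold GG
        rw [dvd_geom_sum₂_iff_of_dvd_sub (hdv r hrd)]
        exact dvd_mul_right _ _
      rw [← hT] at h4
      exact_mod_cast h4
    obtain ⟨Q', rfl⟩ := hrQ
    have hrQ' : ¬ r ∣ Q' := by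
      rintro ⟨Q'', rfl⟩
      exact hB hrd ⟨Q'', by ring⟩
    have h5 : (r * d) * Q' = x ^ m := by rw [← h2]; ring
    have hcop : Nat.Coprime (r * d) Q' := by
      apply Nat.Coprime.mul_left ((Nat.Prime.coprime_iff_not_dvd hr).2 hrQ')
      rw [Nat.coprime_iff_gcd_eq_one]
      by_contra hg
      obtain ⟨l, hl, hlg⟩ := Nat.exists_prime_and_dvd hg
      have hld := hlg.trans (Nat.gcd_dvd_left _ _)
      have hlQ := hlg.trans (Nat.gcd_dvd_right _ _)
      by_cases hlr : l = r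
      · rw [hlr] at hlQ
        exact hrQ' hlQ
      · exact hA l hl hlr hld (hlQ.mul_left r)
    obtain ⟨s, n, hs, hn, hx⟩ := factors hm0 hcop h5
    have hsn : 0 < s * n := by rw [← hx]; exact hx0
    refine ⟨1, s, n, le_rfl, Nat.pos_of_mul_pos_right hsn, Nat.pos_of_mul_pos_left hsn, hx, ?_, ?_⟩
    · rw [pow_one]; exact hs
    · push_cast
      rw [pow_one, hn]
      push_cast
      ring
  · have hcop : Nat.Coprime d Q := by
      rw [Nat.coprime_iff_gcd_eq_one]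
      by_contra hg
      obtain ⟨l, hl, hlg⟩ := Nat.exists_prime_and_dvd hg
      have hld := hlg.trans (Nat.gcd_dvd_left _ _)
      have hlQ := hlg.trans (Nat.gcd_dvd_right _ _)
      by_cases hlr : l = r
      · rw [hlr] at hld
        exact hrd hld
      · exact hA l hl hlr hld hlQ
    obtain ⟨s, n, hs, hn, hx⟩ := factors hm0 hcop h2
    have hsn : 0 < s * n := by rw [← hx]; exact hx0
    refine ⟨0, s, n, by omega, Nat.pos_of_mul_pos_right hsn, Nat.pos_of_mul_pos_left hsn, hx, ?_, ?_⟩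
    · rw [pow_zero, one_mul]; exact hs
    · rw [hn]
      push_cast
      ring

/-- the factors of `x`, with bounds -/
theorem x_struct {N x y z m r : ℕ} (hm : 3 ≤ m) (hr : r.Prime) (hr3 : 3 ≤ r) (hx : 0 < x) (hxN : x ≤ N)
    (hxz : Nat.Coprime x z) (hy : Odd y)
    (h : x ^ (2 * m) + y ^ r = z ^ 2 ∨ z ^ 2 + y ^ r = x ^ (2 * m)) :
    ∃ e s n d : ℕ, e ≤ 1 ∧ 1 ≤ s ∧ 1 ≤ n ∧ x = s * n ∧ 0 < d ∧ r ^ e * d = s ^ m ∧
      (∃ X : ℤ, GG r X (X - ((2 * d : ℕ) : ℤ)) = (r : ℤ) ^ e * (n : ℤ) ^ m) ∧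
      s ^ 3 ≤ r * N ∧ (x = 1 ∨ 2 ^ (r - 1) ≤ N ^ m) ∧ ((e = 0 ∧ s = 1) ∨ 2 ^ r ≤ N ^ 2) := by
  have hX : x ^ (2 * m) = (x ^ m) ^ 2 := by rw [← pow_mul, mul_comm]
  have hcoX : Nat.Coprime (x ^ m) z := Nat.Coprime.pow_left m hxz
  have hX0 : 0 < x ^ m := pow_pos hx m
  have hN0 : 0 < N := lt_of_lt_of_le hx hxN
  have hxm : x ^ m ≤ N ^ m := Nat.pow_le_pow_left hxN m
  -- the common data
  obtain ⟨v, w, d, hd, hco, hvw, heq, hdr, hsz⟩ : ∃ (v w : ℤ) (d : ℕ), 0 < d ∧ IsCoprime v w ∧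
      v - w = 2 * (d : ℤ) ∧ v ^ r - w ^ r = 2 * (x : ℤ) ^ m ∧ d ^ r ≤ x ^ m ∧
      (x = 1 ∨ 2 ^ (r - 1) ≤ x ^ m) := by
    rw [hX] at h
    rcases h with h | h
    · obtain ⟨u, v, hu, hv, huv, hyuv, h1, -⟩ := split2 hr.ne_zero hcoX hy h
      have hlt : u < v := by
        apply lt_of_pow_lt_pow_left₀ r (Nat.zero_le _)
        omega
      obtain ⟨d, hd⟩ : ∃ d, v = 2 * d + u := by
        obtain ⟨i, hi⟩ := hu
        obtain ⟨j, hj⟩ := hv
        exact ⟨j - i, by omega⟩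
      have hd0 : 0 < d := by omega
      refine ⟨v, u, d, hd0, (Nat.isCoprime_iff_coprime.2 huv).symm, ?_, ?_, ?_, Or.inr ?_⟩
      · rw [hd]; push_cast; ring
      · have : ((v ^ r : ℕ) : ℤ) = ((u ^ r + 2 * x ^ m : ℕ) : ℤ) := by rw [h1]
        push_cast at this
        rw [this]; ring
      · have h2 : u ^ r + (2 * d) ^ r ≤ (u + 2 * d) ^ r :=
          pow_add_pow_le (Nat.zero_le _) (Nat.zero_le _) hr.ne_zero
        have h3 : u + 2 * d = v := by omega
        rw [h3, h1] at h2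
        have h4 : 2 * d ^ r ≤ (2 * d) ^ r := by
          rw [mul_pow]
          exact Nat.mul_le_mul_right _ (Nat.le_self_pow hr.ne_zero 2)
        omega
      · obtain ⟨k, rfl⟩ : ∃ k, r = k + 1 := ⟨r - 1, by omega⟩
        rw [Nat.add_sub_cancel]
        have h2 : u ^ (k + 1) ≤ u * v ^ k := by
          rw [pow_succ']
          exact Nat.mul_le_mul_left _ (Nat.pow_le_pow_left hlt.le _)
        have h3 : v ^ (k + 1) = v * v ^ k := pow_succ' _ _
        have h4 : (u + 2) * v ^ k ≤ v * v ^ k := Nat.mul_le_mul_right _ (by omega)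
        have h5 : (u + 2) * v ^ k = u * v ^ k + 2 * v ^ k := by ring
        have h6 : 2 ^ k ≤ v ^ k := Nat.pow_le_pow_left (by omega) _
        omega
    · obtain ⟨u, v, hu, hv, huv, hyuv, h1, h2⟩ := split2 hr.ne_zero hcoX.symm hy h
      have hle : u ≤ v := by
        apply le_of_pow_le_pow_left₀ hr.ne_zero (Nat.zero_le _)
        omega
      obtain ⟨d, hd⟩ : ∃ d, v + u = 2 * d := by
        obtain ⟨i, hi⟩ := hu
        obtain ⟨j, hj⟩ := hv
        exact ⟨j + i + 1, by omega⟩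
      have hu0 := hu.pos
      have hd0 : 0 < d := by omega
      have hrodd : Odd r := hr.odd_of_ne_two (by omega)
      refine ⟨v, -(u : ℤ), d, hd0, (Nat.isCoprime_iff_coprime.2 huv).symm.neg_right, ?_, ?_, ?_, ?_⟩
      · have : ((v + u : ℕ) : ℤ) = ((2 * d : ℕ) : ℤ) := by rw [hd]
        push_cast at this
        linarith
      · rw [hrodd.neg_pow, sub_neg_eq_add]
        exact_mod_cast h2
      · have h3 := add_pow_le (Nat.zero_le v) (Nat.zero_le u) r
        rw [hd, h2, mul_pow] at h3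
        obtain ⟨k, rfl⟩ : ∃ k, r = k + 1 := ⟨r - 1, by omega⟩
        rw [Nat.add_sub_cancel] at h3
        have h4 : 2 ^ (k + 1) * d ^ (k + 1) ≤ 2 ^ (k + 1) * x ^ m := by
          calc 2 ^ (k + 1) * d ^ (k + 1) ≤ 2 ^ k * (2 * x ^ m) := h3
            _ = 2 ^ (k + 1) * x ^ m := by ring
        exact Nat.le_of_mul_le_mul_left h4 (by positivity)
      · rcases Nat.lt_or_ge v 2 with h3 | h3
        · left
          have h4 : v = 1 := by omega
          have h5 : u = 1 := by omega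
          rw [h4, h5, one_pow] at h2
          have h6 : x ^ m = 1 := by omega
          exact (Nat.pow_eq_one.1 h6).resolve_right (by omega)
        · right
          have h4 : 2 ^ r ≤ v ^ r := Nat.pow_le_pow_left h3 _
          obtain ⟨k, rfl⟩ : ∃ k, r = k + 1 := ⟨r - 1, by omega⟩
          rw [Nat.add_sub_cancel]
          rw [pow_succ] at h4
          omega
  obtain ⟨e, s, n, he, hs, hn, hxsn, hrd, hG⟩ := x_factors (by omega) hr hr3 hco d hd hx hvw heq
  have hdN : d ^ r ≤ N ^ m := hdr.trans hxm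
  have hd3 : d ^ 3 ≤ N ^ m := (Nat.pow_le_pow_right hd hr3).trans hdN
  refine ⟨e, s, n, d, he, hs, hn, hxsn, hd, hrd, ⟨v, hG⟩, ?_, ?_, ?_⟩
  · have h1 : (s ^ 3) ^ m ≤ (r * N) ^ m := by
      calc (s ^ 3) ^ m = (s ^ m) ^ 3 := by rw [← pow_mul, ← pow_mul, mul_comm]
        _ = (r ^ e) ^ 3 * d ^ 3 := by rw [← hrd, mul_pow]
        _ ≤ r ^ m * N ^ m := by
            apply Nat.mul_le_mul _ hd3
            rw [← pow_mul]
            apply Nat.pow_le_pow_right hr.pos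
            omega
        _ = (r * N) ^ m := (mul_pow _ _ _).symm
    exact le_of_pow_le_pow_left₀ (by omega) (Nat.zero_le _) h1
  · rcases hsz with h1 | h1
    · exact Or.inl h1
    · exact Or.inr (h1.trans hxm)
  · rcases Nat.eq_zero_or_pos e with h0 | h0
    · rcases Nat.lt_or_ge s 2 with h1 | h1
      · left; exact ⟨h0, by omega⟩
      · right
        rw [h0, pow_zero, one_mul] at hrd
        have h2 : (2 ^ r) ^ m ≤ (N ^ 2) ^ m := by
          calc (2 ^ r) ^ m ≤ (s ^ r) ^ m := Nat.pow_le_pow_left (Nat.pow_le_pow_left h1 r) m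
            _ = (s ^ m) ^ r := by rw [← pow_mul, ← pow_mul, mul_comm]
            _ = d ^ r := by rw [hrd]
            _ ≤ N ^ m := hdN
            _ ≤ (N ^ 2) ^ m := Nat.pow_le_pow_left (Nat.le_self_pow (by norm_num) N) m
        exact le_of_pow_le_pow_left₀ (by omega) (Nat.zero_le _) h2
    · right
      have he' : e = 1 := by omega
      rw [he', pow_one] at hrd
      have hrs : r ∣ s := by
        have : r ∣ s ^ m := ⟨d, hrd.symm⟩
        exact hr.dvd_of_dvd_pow this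
      have h1 : r ^ (m - 1) ≤ d := by
        have h2 : r ^ m ≤ r * d := by
          rw [hrd]
          exact Nat.pow_le_pow_left (Nat.le_of_dvd hs hrs) m
        have h3 : r ^ m = r * r ^ (m - 1) := by
          rw [← pow_succ']
          congr 1
          omega
        rw [h3] at h2
        exact Nat.le_of_mul_le_mul_left h2 hr.pos
      have h4 : (2 ^ r) ^ (m - 1) ≤ (N ^ 2) ^ (m - 1) := by
        calc (2 ^ r) ^ (m - 1) = (2 ^ (m - 1)) ^ r := by rw [← pow_mul, ← pow_mul, mul_comm]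
          _ ≤ (r ^ (m - 1)) ^ r := Nat.pow_le_pow_left (Nat.pow_le_pow_left hr.two_le _) _
          _ ≤ d ^ r := Nat.pow_le_pow_left h1 _
          _ ≤ N ^ m := hdN
          _ ≤ N ^ (2 * (m - 1)) := Nat.pow_le_pow_right hN0 (by omega)
          _ = (N ^ 2) ^ (m - 1) := by rw [pow_mul]
      exact le_of_pow_le_pow_left₀ (by omega) (Nat.zero_le _) h4

end Pool.Agent.Helper20K9.TW
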